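import Pool.Agent.P.MP_a07190_gt.Wk.Iface

section

/-! Integral estimates for the measure on positions and normals. -/

open scoped Manifold ContDiff RealInnerProductSpace Topology
open Set MeasureTheory Filter

namespace Pool.Agent.P.MP_a07190_gt.Wk

namespace EstA

variable {Γ : Set E2} {L H R : ℝ} {ν : Measure (E3 × E3)}

theorem id_yz (h : Good Γ L H ν) : ∫ z, z.1 1 * z.2 1 ∂ν = ∫ z, z.1 2 * z.2 2 ∂ν := by
  have := h.st _ (contDiff_prod3 C1.one C1.id C1.id) (e3 0) fun q _ => by simp [prod3, toP]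
  simp only [std, fderiv_prod3 C1.one C1.id C1.id] at this
  rw [← sub_eq_zero, ← integral_sub (h.bd.integrable (by fun_prop))
    (h.bd.integrable (by fun_prop)), ← this]
  refine integral_congr_ae (Eventually.of_forall fun m => ?_)
  simp; ring

theorem id_xz (h : Good Γ L H ν) : ∫ z, z.1 2 * z.2 2 ∂ν = ∫ z, z.1 0 * z.2 0 ∂ν := by
  have := h.st _ (contDiff_prod3 C1.id C1.one C1.id) (e3 1) fun q _ => by simp [prod3, toP]
  simp only [std, fderiv_prod3 C1.id C1.one C1.id] at this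
  rw [← sub_eq_zero, ← integral_sub (h.bd.integrable (by fun_prop))
    (h.bd.integrable (by fun_prop)), ← this]
  refine integral_congr_ae (Eventually.of_forall fun m => ?_)
  simp; ring

theorem vol_eq (h : Good Γ L H ν) : volN ν = |∫ z, z.1 2 * z.2 2 ∂ν| := by
  simp only [volN, inner3]
  rw [integral_add (h.bd.integrable (by fun_prop)) (h.bd.integrable (by fun_prop)), integral_add
    (h.bd.integrable (by fun_prop)) (h.bd.integrable (by fun_prop)), id_yz h, ← id_xz h]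
  rw [show ∀ a : ℝ, a + a + a = 3 * a from fun a => by ring, abs_mul]
  norm_num
  ring

theorem exc_le (h : Good Γ L H ν) : excN ν ≤ 2 * |H| * volN ν := by
  have := h.fz Subset.rfl _ (contDiff_prod3 C1.one C1.one C1.id) (e3 2) fun q _ => by
    simp [prod3, toP]
  simp only [fvd, fderiv_prod3 C1.one C1.one C1.id] at this
  have e : excN ν + 2 * H * ∫ z, z.1 2 * z.2 2 ∂ν = 0 := by
    rw [excN, ← integral_const_mul, ← integral_add (h.bd.integrable (by fun_prop))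
      (h.bd.integrable (by fun_prop)), ← this]
    refine integral_congr_ae (Eventually.of_forall fun m => ?_)
    simp [inner3, prod3]; ring
  rw [vol_eq h, mul_assoc, ← abs_mul]
  have := neg_abs_le (H * ∫ z, z.1 2 * z.2 2 ∂ν)
  linarith

theorem exc_nonneg (h : Bd ν) : 0 ≤ excN ν :=
  integral_nonneg_of_ae (h.unit.mono fun z hz => by
    have := unit3 hz
    simp only [Pi.zero_apply]
    nlinarith [sq_nonneg (z.2 0), sq_nonneg (z.2 1)])

theorem real_eq : ν.real univ = ∫ _, (1 : ℝ) ∂ν := by simp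

theorem area_le (h : Good Γ L H ν) (hR : 0 ≤ R) (hy : ∀ q ∈ Γ, ‖q‖ ≤ R) :
    ν.real univ ≤ R * L + 4 * |H| * volN ν := by
  have k := h.fv _ (contDiff_prod3 C1.one C1.id C1.one) (e3 1) R hR fun q hq => by
    have : |q 1| ≤ ‖q‖ := PiLp.norm_apply_le q 1
    simpa [prod3, toP] using this.trans (hy q hq)
  have n1 : ‖e3 1‖ = 1 := by simp [e3]
  simp only [fvd, fderiv_prod3 C1.one C1.id C1.one, n1, mul_one] at k
  have e : ∫ z, (1 - z.2 1 ^ 2) ∂ν + 2 * H * ∫ z, z.1 1 * z.2 1 ∂ν ≤ R * L := by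
    rw [← integral_const_mul, ← integral_add (h.bd.integrable (by fun_prop))
      (h.bd.integrable (by fun_prop))]
    refine le_trans (le_of_eq ?_) ((le_abs_self _).trans k)
    refine integral_congr_ae (Eventually.of_forall fun m => ?_)
    simp [inner3, prod3]; ring
  have e2 : ∫ _, (1 : ℝ) ∂ν ≤ ∫ z, (1 - z.2 1 ^ 2) ∂ν + excN ν := by
    rw [excN, ← integral_add (h.bd.integrable (by fun_prop)) (h.bd.integrable (by fun_prop))]
    refine integral_mono_ae (h.bd.integrable (by fun_prop)) (h.bd.integrable (by fun_prop))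
      (h.bd.unit.mono fun z hz => ?_)
    have := unit3 hz
    simp only
    nlinarith [sq_nonneg (z.2 0)]
  have e3 := exc_le h
  rw [id_yz h] at e
  rw [vol_eq h, mul_assoc, ← abs_mul] at *
  have := neg_abs_le (H * ∫ z, z.1 2 * z.2 2 ∂ν)
  rw [real_eq]
  linarith

theorem H_le (h : Good Γ L H ν) {g : E3 → ℝ} {K : ℝ} (hg : Dg Γ g K)
    (hdeg : |∫ z, g z.1 * z.2 2 ∂ν| = 1) {t : ℝ} (ht : 0 < t) :
    2 * |H| ≤ K * (excN ν / (2 * t) + t * ν.real univ / 2) := by
  have c1 := hg.c1.continuous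
  have c2 : Continuous fun z : E3 × E3 => fderiv ℝ g z.1 z.2 :=
    ((hg.c1.continuous_fderiv one_ne_zero).comp continuous_fst).clm_apply continuous_snd
  have hK : 0 ≤ K := (norm_nonneg _).trans (hg.bdd 0)
  have := h.fz Subset.rfl g hg.c1 (e3 2) hg.zero
  have e : 2 * H * ∫ z, g z.1 * z.2 2 ∂ν = ∫ z, fderiv ℝ g z.1 z.2 * z.2 2 ∂ν := by
    rw [← sub_eq_zero, ← integral_const_mul, ← integral_sub
      (h.bd.integrable (by fun_prop)) (h.bd.integrable (by fun_prop)), ← this]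
    refine integral_congr_ae (Eventually.of_forall fun m => ?_)
    simp [fvd, inner3, hg.vert]; ring
  have e2 := congrArg abs e
  rw [abs_mul, hdeg, abs_mul, mul_one, abs_two] at e2
  rw [e2, excN, real_eq, ← integral_div, ← integral_const_mul, ← integral_div, ← integral_add
    (h.bd.integrable (by fun_prop)) (h.bd.integrable (by fun_prop)), ← integral_const_mul]
  refine abs_integral_le_integral_abs.trans (integral_mono_ae (h.bd.integrable (by fun_prop))
    (h.bd.integrable (by fun_prop)) (h.bd.unit.mono fun z hz => ?_))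
  have h1 := unit3 hz
  have h2 : |z.2 2| ≤ 1 := by
    rw [← sq_le_one_iff_abs_le_one]; nlinarith [sq_nonneg (z.2 0), sq_nonneg (z.2 1)]
  have h3 : fderiv ℝ g z.1 z.2 = fderiv ℝ g z.1 (z.2 - z.2 2 • e3 2) := by
    rw [map_sub, map_smul, hg.vert, smul_zero, sub_zero]
  have h4 : ‖z.2 - z.2 2 • e3 2‖ ^ 2 = 1 - z.2 2 ^ 2 := by
    rw [norm_sq3]; simp; linarith
  have h5 := abs_le_sq_add ‖z.2 - z.2 2 • e3 2‖ ht
  rw [h4, abs_norm] at h5
  simp only
  rw [abs_mul, h3, mul_one]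
  refine (mul_le_of_le_one_right (abs_nonneg _) h2).trans ?_
  exact ((fderiv ℝ g z.1).le_of_opNorm_le (hg.bdd _) _).trans (mul_le_mul_of_nonneg_left h5 hK)

end EstA

theorem p_EST : S_EST := fun _ _ _ _ _ h hR hy =>
  ⟨EstA.exc_nonneg h.bd, EstA.exc_le h, EstA.area_le h hR hy,
    fun _ _ hg hd _ ht => EstA.H_le h hg hd ht⟩

end Pool.Agent.P.MP_a07190_gt.Wk

end

section

open scoped Manifold ContDiff RealInnerProductSpace Topology
open Set MeasureTheory Filter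

namespace Pool.Agent.P.MP_a07190_gt.Wk

namespace SmlA

theorem consts (R L K ε : ℝ) (hR : 0 ≤ R) (hL : 0 ≤ L) (hε : 0 < ε) : ∃ V0 : ℝ, 0 < V0 ∧
    ∀ h V E A : ℝ, 0 ≤ K → 0 ≤ h → 0 ≤ V → V < V0 → E ≤ 2 * h * V → A ≤ R * L + 4 * h * V →
    (∀ t : ℝ, 0 < t → 2 * h ≤ K * (E / (2 * t) + t * A / 2)) →
    h ≤ ε ∧ E ≤ ε ∧ A ≤ R * L + 1 := by
  set e := min ε 1 with he
  have e0 : 0 < e := lt_min hε one_pos
  have e1 : e ≤ 1 := min_le_right _ _
  have e2 : e ≤ ε := min_le_left _ _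
  have hK := abs_nonneg K
  have hRL : 0 ≤ R * L := mul_nonneg hR hL
  set t := min 1 (e / (|K| * (R * L) + 1)) with ht
  have t0 : 0 < t := lt_min one_pos (by positivity)
  have t1 : t ≤ 1 := min_le_left _ _
  have t2 : t * (|K| * (R * L) + 1) ≤ e := (le_div_iff₀ (by positivity)).1 (min_le_right _ _)
  refine ⟨t / (4 * |K| + 4), by positivity, fun h V E A K0 h0 V0 V1 E1 A1 hH => ?_⟩
  rw [abs_of_nonneg K0] at V1 t2
  have V2 : V * (4 * K + 4) ≤ t := ((lt_div_iff₀ (by positivity)).1 V1).le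
  have KV : 0 ≤ K * V := mul_nonneg K0 V0
  have V4 : V ≤ 1 / 4 := by nlinarith
  have k1 : K * (E / (2 * t)) ≤ h / 4 := by
    rw [← mul_div_assoc, div_le_div_iff₀ (by positivity) (by positivity)]
    have h1 : K * E ≤ K * (2 * h * V) := by gcongr
    have h2 : h * (V * (4 * K + 4)) ≤ h * t := by gcongr
    nlinarith [mul_nonneg h0 V0]
  have k2 : K * (t * A / 2) ≤ e / 2 + h / 2 := by
    have h1 : K * (t * A / 2) ≤ K * (t * (R * L + 4 * h * V) / 2) := by gcongr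
    have h2 : h * (V * (4 * K + 4)) ≤ h * 1 := by gcongr; exact V2.trans t1
    have h3 : t * (K * (h * V)) ≤ 1 * (K * (h * V)) := by gcongr
    nlinarith [mul_nonneg h0 V0]
  have k3 : h ≤ e := by
    have := hH t t0
    rw [mul_add] at this
    linarith
  have k4 : h * V ≤ e * (1 / 4) := by gcongr
  refine ⟨k3.trans e2, by nlinarith, by nlinarith⟩

theorem hd_sq (u : ℝ) : HasDerivAt (fun u : ℝ => max 0 u ^ 2) (2 * max 0 u) u := by
  rcases lt_trichotomy u 0 with h | h | h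
  · rw [max_eq_left h.le, mul_zero]
    refine (hasDerivAt_const u (0 : ℝ)).congr_of_eventuallyEq ?_
    filter_upwards [Iio_mem_nhds h] with v hv
    rw [max_eq_left (le_of_lt hv)]; norm_num
  · subst h
    rw [max_self, mul_zero, hasDerivAt_iff_isLittleO_nhds_zero]
    have h1 : (fun v : ℝ => v ^ 2) =o[𝓝 0] fun v => v := by
      simpa using Asymptotics.isLittleO_pow_id (𝕜 := ℝ) (n := 2) (by norm_num)
    refine Asymptotics.IsBigO.trans_isLittleO (Asymptotics.IsBigO.of_bound 1 ?_) h1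
    refine Eventually.of_forall fun v => ?_
    rcases le_total v 0 with hv | hv
    · simp [max_eq_left hv, sq_nonneg]
    · simp [max_eq_right hv]
  · rw [max_eq_right h.le]
    have : HasDerivAt (fun v : ℝ => v ^ 2) (2 * u) u := by
      simpa using hasDerivAt_pow 2 u
    refine this.congr_of_eventuallyEq ?_
    filter_upwards [Ioi_mem_nhds h] with v hv
    rw [max_eq_right (le_of_lt hv)]

theorem bdd {f : ℝ → ℝ} (hf : Continuous f) {r : ℝ} (hr : 0 < r)
    (h1 : ∀ t, t ≤ -r → f t = f (-r)) (h2 : ∀ t, r ≤ t → f t = f r) :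
    ∃ K, ∀ t, |f t| ≤ K := by
  obtain ⟨K, hK⟩ := isCompact_Icc.exists_bound_of_continuousOn (hf.continuousOn (s := Icc (-r) r))
  refine ⟨K, fun t => ?_⟩
  rcases le_total t (-r) with h | h
  · rw [h1 t h]; exact hK _ ⟨le_rfl, by linarith⟩
  rcases le_total r t with h' | h'
  · rw [h2 t h']; exact hK _ ⟨by linarith, le_rfl⟩
  · exact hK _ ⟨h, h'⟩

end SmlA

theorem p_SML (hEST : S_EST) : S_SML := by
  intro R L K ε hR hL hε
  obtain ⟨V0, h0, hc⟩ := SmlA.consts R L K ε hR hL hε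
  refine ⟨V0, h0, fun Γ g H ν hΓ hg hν h1 hV => ?_⟩
  obtain ⟨-, e2, e3', e4⟩ := hEST Γ L H R ν hν hR hΓ
  obtain ⟨a, b, c⟩ := hc |H| (volN ν) (excN ν) (ν.real univ) ((norm_nonneg _).trans (hg.bdd 0))
    (abs_nonneg H) (by unfold volN; positivity) hV e2 e3' (e4 g K hg h1)
  exact ⟨a, b, c⟩

theorem p_BMP : S_BMP := by
  intro r hr
  have z : ∀ t : ℝ, t ≤ -r ∨ r ≤ t → max 0 (r ^ 2 - t ^ 2) = 0 := fun t ht =>
    max_eq_left (by rcases ht with h | h <;> nlinarith)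
  have zb : ∀ t : ℝ, t ≤ -r ∨ r ≤ t → bmp r t = 0 := fun t ht => by
    unfold bmp; rw [z t ht]; norm_num
  have cb : Continuous (bmp r) := by unfold bmp; fun_prop
  have cb' : Continuous fun t : ℝ => 2 * max 0 (r ^ 2 - t ^ 2) * (-(2 * t)) := by fun_prop
  have hB : ∀ t, HasDerivAt (fun u => ∫ x in (-r)..u, bmp r x) (bmp r t) t := fun t =>
    intervalIntegral.integral_hasDerivAt_right (cb.intervalIntegrable _ _)
      (cb.stronglyMeasurableAtFilter _ _) cb.continuousAt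
  have cB : Continuous fun u => ∫ x in (-r)..u, bmp r x :=
    continuous_iff_continuousAt.2 fun t => (hB t).continuousAt
  have B1 : ∀ t, t ≤ -r → ∫ x in (-r)..t, bmp r x = 0 := fun t ht => by
    rw [intervalIntegral.integral_congr (g := fun _ => (0 : ℝ))]
    · simp
    · intro x hx
      rw [uIcc_of_ge ht] at hx
      exact zb x (Or.inl hx.2)
  have B2 : ∀ t, r ≤ t → ∫ x in (-r)..t, bmp r x = ∫ x in (-r)..r, bmp r x := fun t ht => by
    rw [← intervalIntegral.integral_add_adjacent_intervals (b := r) (cb.intervalIntegrable _ _)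
      (cb.intervalIntegrable _ _), intervalIntegral.integral_congr (a := r) (g := fun _ => (0 : ℝ))]
    · simp
    · intro x hx
      rw [uIcc_of_le ht] at hx
      exact zb x (Or.inr hx.1)
  obtain ⟨K1, k1⟩ := SmlA.bdd cb hr
    (fun t ht => by rw [zb t (Or.inl ht), zb _ (Or.inl le_rfl)])
    (fun t ht => by rw [zb t (Or.inr ht), zb _ (Or.inr le_rfl)])
  obtain ⟨K2, k2⟩ := SmlA.bdd cb' hr
    (fun t ht => by simp only [z t (Or.inl ht), z _ (Or.inl le_rfl), mul_zero, zero_mul])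
    (fun t ht => by simp only [z t (Or.inr ht), z _ (Or.inr le_rfl), mul_zero, zero_mul])
  obtain ⟨K3, k3⟩ := SmlA.bdd cB hr
    (fun t ht => by rw [B1 t ht, B1 _ le_rfl]) B2
  refine ⟨fun t => 2 * max 0 (r ^ 2 - t ^ 2) * (-(2 * t)), fun u => ∫ x in (-r)..u, bmp r x,
    max K1 (max K2 K3), ⟨fun t => ?_, cb'⟩, ⟨hB, cb⟩, fun t => ⟨(k1 t).trans (le_max_left _ _),
      (k2 t).trans ((le_max_left _ _).trans (le_max_right _ _)),
      (k3 t).trans ((le_max_right _ _).trans (le_max_right _ _))⟩, B1, B2⟩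
  have h1 : HasDerivAt (fun t : ℝ => r ^ 2 - t ^ 2) (-(2 * t)) t := by
    simpa using (hasDerivAt_pow 2 t).const_sub (r ^ 2)
  exact (SmlA.hd_sq (r ^ 2 - t ^ 2)).comp t h1

end Pool.Agent.P.MP_a07190_gt.Wk

end

section

open scoped Manifold ContDiff RealInnerProductSpace Topology
open Set MeasureTheory Filter

namespace Pool.Agent.P.MP_a07190_gt.Wk

namespace SlabA

theorem fderiv_two {a a' g g' : ℝ → ℝ} (ha : C1 a a') (hg : C1 g g') (i j : Fin 3) (p u : E3) :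
    fderiv ℝ (fun q : E3 => a (q i) * g (q j)) p u =
      a' (p i) * g (p j) * u i + a (p i) * g' (p j) * u j := by
  have := (((ha.hd (p i)).comp_hasFDerivAt p (hasFD_coord p i)).mul
    ((hg.hd (p j)).comp_hasFDerivAt p (hasFD_coord p j))).fderiv
  have e : (fun q : E3 => a (q i) * g (q j)) =
    (a ∘ fun q : E3 => q i) * (g ∘ fun q : E3 => q j) := rfl
  rw [e, this]
  simp
  ring

theorem inner_e3 (j : Fin 3) (n : E3) : ⟪e3 j, n⟫ = n j := by
  simp [e3, EuclideanSpace.inner_single_left]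

theorem pt_le {a a' w θ x y e K H t : ℝ} (ht : 0 < t) (a0 : 0 ≤ a) (aK : a ≤ K) (dK : |a'| ≤ K)
    (w0 : 0 ≤ w) (w1 : w ≤ 1) (hθ : |θ| ≤ 2) (hx : |x| ≤ 1) (hy : |y| ≤ 1) (he : y ^ 2 ≤ e) :
    a * w ≤ (a * w - (a' * θ * x + a * w * y) * y + 2 * H * (a * θ) * y) +
      ((K + K / t) * e + (K * t + 4 * |H| * K)) := by
  have hK : 0 ≤ K := a0.trans aK
  have b1 : |a' * θ * x * y| ≤ K * 2 * 1 * (e / (2 * t) + t / 2) := by
    rw [abs_mul, abs_mul, abs_mul]
    have : |y| ≤ e / (2 * t) + t / 2 := (abs_le_sq_add y ht).trans (by gcongr)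
    gcongr
  have b2 : |2 * H * (a * θ) * y| ≤ 2 * |H| * (K * 2) * 1 := by
    rw [abs_mul, abs_mul, abs_mul, abs_mul, abs_two, abs_of_nonneg a0]
    gcongr
  have b3 : a * w * y ^ 2 ≤ K * 1 * e := by gcongr
  have b4 : K * 2 * 1 * (e / (2 * t) + t / 2) = K / t * e + K * t := by field_simp
  have b5 := abs_le.1 b1
  have b6 := abs_le.1 b2
  nlinarith

theorem coord_le {n : E3} (h : ‖n‖ = 1) (i : Fin 3) : |n i| ≤ 1 := by
  rw [← h, ← Real.norm_eq_abs]
  exact PiLp.norm_apply_le n i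

theorem coord_sq {n : E3} (h : ‖n‖ = 1) {j : Fin 3} (hj : j ≠ 2) : n j ^ 2 ≤ 1 - n 2 ^ 2 := by
  have := unit3 h
  fin_cases j
  · simp; nlinarith [sq_nonneg (n 1)]
  · simp; nlinarith [sq_nonneg (n 0)]
  · exact absurd rfl hj

end SlabA

open SlabA in
theorem p_SLAB (hBMP : S_BMP) : S_SLAB := by
  intro r δ A hr hr1 hδ
  obtain ⟨b', B, K, hb, -, hK, -⟩ := hBMP (2 * r) (by positivity)
  have K0 : 0 ≤ K := (abs_nonneg _).trans (hK 0).1
  set κ := 9 * r ^ 4 / 2 with hκ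
  have κ0 : 0 < κ := by positivity
  set t := κ * δ / (2 * (K * |A| + 1)) with ht
  have t0 : 0 < t := by positivity
  set ε := κ * δ / (2 * (K + K / t + 4 * K * |A| + 1)) with hε
  have ε0 : 0 < ε := by positivity
  refine ⟨ε, ε0, fun Kk H ν hν hF hS i j hij hj s c h0 => ?_⟩
  have := hν.fin
  have ha : C1 (fun u => bmp (2 * r) (u - s)) (fun u => b' (u - s)) :=
    ⟨fun u => HasDerivAt.comp_sub_const u s (hb.hd (u - s)), hb.hc.comp (by fun_prop)⟩
  have hg : C1 (fun u => Real.arctan (u - c)) (fun u => 1 / (1 + (u - c) ^ 2)) :=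
    ⟨fun u => by simpa using ((hasDerivAt_id u).sub_const c).arctan,
      continuous_const.div (by fun_prop) fun u => by positivity⟩
  have hφ : ContDiff ℝ 1 fun q : E3 => bmp (2 * r) (q i - s) * Real.arctan (q j - c) :=
    (ha.contDiff.comp (contDiff_coord i)).mul (hg.contDiff.comp (contDiff_coord j))
  have k := hF _ hφ (e3 j) fun q hq => by
    have h1 : (2 * r) ^ 2 ≤ (toP q i - s) ^ 2 := by
      rw [← sq_abs (toP q i - s)]
      exact pow_le_pow_left₀ (by positivity) (h0 q hq) 2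
    simp only [bmp, max_eq_left (sub_nonpos.2 h1)]
    simp
  have hm : MeasurableSet {z : E3 × E3 | |z.1 i - s| ≤ r ∧ |z.1 j - c| ≤ r} :=
    ((isClosed_le (f := fun z : E3 × E3 => |z.1 i - s|) (by fun_prop) continuous_const).inter
      (isClosed_le (f := fun z : E3 × E3 => |z.1 j - c|) (by fun_prop)
        continuous_const)).measurableSet
  have i1 := hν.integrable (continuous_fvd H hφ (e3 j))
  have i2 : Integrable (fun z : E3 × E3 => (K + K / t) * (1 - z.2 2 ^ 2)) ν :=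
    hν.integrable (by fun_prop)
  have i3 : Integrable (fun _ : E3 × E3 => K * t + 4 * |H| * K) ν := integrable_const _
  have i4 : Integrable (fun z : E3 × E3 => (K + K / t) * (1 - z.2 2 ^ 2) +
      (K * t + 4 * |H| * K)) ν := i2.add i3
  have main : ν.real {z : E3 × E3 | |z.1 i - s| ≤ r ∧ |z.1 j - c| ≤ r} * κ ≤
      (K + K / t) * excN ν + ν.real univ * (K * t + 4 * |H| * K) := by
    rw [← smul_eq_mul, ← integral_indicator_const _ hm, excN, ← integral_const_mul,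
      ← smul_eq_mul (ν.real univ), ← integral_const, ← integral_add i2 i3,
      ← zero_add (∫ _, _ + _ ∂_), ← k, ← integral_add i1 i4]
    refine integral_mono_ae ((integrable_const _).indicator hm) (i1.add i4) ?_
    filter_upwards [hν.unit] with z hz
    have a0 : 0 ≤ bmp (2 * r) (z.1 i - s) := sq_nonneg _
    have w0 : 0 ≤ 1 / (1 + (z.1 j - c) ^ 2) := by positivity
    have w1 : 1 / (1 + (z.1 j - c) ^ 2) ≤ 1 := by
      rw [div_le_one (by positivity)]; nlinarith [sq_nonneg (z.1 j - c)]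
    have a2 : |Real.arctan (z.1 j - c)| ≤ 2 := by
      have h1 := Real.arctan_lt_pi_div_two (z.1 j - c)
      have h2 := Real.neg_pi_div_two_lt_arctan (z.1 j - c)
      have := Real.pi_le_four
      rw [abs_le]; constructor <;> linarith
    have b := pt_le (H := H) t0 a0 ((le_abs_self _).trans (hK _).1) (hK (z.1 i - s)).2.1 w0 w1 a2
      (coord_le hz i) (coord_le hz j) (coord_sq hz hj)
    refine le_trans ?_ (b.trans (le_of_eq ?_))
    · by_cases hz' : z ∈ {z : E3 × E3 | |z.1 i - s| ≤ r ∧ |z.1 j - c| ≤ r}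
      · rw [indicator_of_mem hz']
        have h1 : (z.1 i - s) ^ 2 ≤ r ^ 2 := sq_le_sq' (abs_le.1 hz'.1).1 (abs_le.1 hz'.1).2
        have h2 : (z.1 j - c) ^ 2 ≤ r ^ 2 := sq_le_sq' (abs_le.1 hz'.2).1 (abs_le.1 hz'.2).2
        have h3 : (3 * r ^ 2) ^ 2 ≤ bmp (2 * r) (z.1 i - s) :=
          pow_le_pow_left₀ (by positivity) (le_max_of_le_right (by linarith)) 2
        have h4 : 1 / 2 ≤ 1 / (1 + (z.1 j - c) ^ 2) :=
          one_div_le_one_div_of_le (by positivity) (by nlinarith)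
        calc κ = (3 * r ^ 2) ^ 2 * (1 / 2) := by rw [hκ]; ring
          _ ≤ _ := by gcongr
      · rw [indicator_of_notMem hz']; exact mul_nonneg a0 w0
    · simp only [fvd, fderiv_two ha hg, inner_e3, e3_apply, if_neg hij, if_true]
      ring
  have hA : ν.real univ ≤ |A| := hS.a.trans (le_abs_self A)
  have A0 := abs_nonneg A
  have c1 : (K + K / t) * excN ν ≤ (K + K / t) * ε :=
    mul_le_mul_of_nonneg_left hS.e (by positivity)
  have c2 : ν.real univ * (K * t + 4 * |H| * K) ≤ |A| * (K * t + 4 * ε * K) := by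
    have := hS.h
    gcongr
  have c3 : (K * |A| + 1) * t = κ * δ / 2 := by rw [ht]; field_simp
  have c4 : (K + K / t + 4 * K * |A| + 1) * ε = κ * δ / 2 := by rw [hε]; field_simp
  refine le_of_mul_le_mul_right ?_ κ0
  nlinarith

end Pool.Agent.P.MP_a07190_gt.Wk

end

section

/-! Moving the square over which there is little area. -/

open scoped Manifold ContDiff RealInnerProductSpace Topology
open Set MeasureTheory Filter

namespace Pool.Agent.P.MP_a07190_gt.Wk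

namespace MoveA

variable {K : Set E2} {H : ℝ} {ν : Measure (E3 × E3)} {i j : Fin 3}

theorem core (hb : Bd ν) (hz : Fz K H ν) {φ d e : E3 → ℝ} (hφ : ContDiff ℝ 1 φ)
    (hd : Continuous d) {C : ℝ} (hij : ∀ n : E3, ‖n‖ = 1 → n i ^ 2 + n j ^ 2 = 1 - n 2 ^ 2)
    (hne : j ≠ i) (hD : ∀ p u, fderiv ℝ φ p u = d p * u i + e p * u j)
    (hC : ∀ p, |d p| ≤ C ∧ |e p| ≤ C ∧ |φ p| ≤ C) (h0 : ∀ q ∈ K, φ (toP q) = 0) :
    ∫ z, d z.1 ∂ν ≤ 2 * C * (excN ν + |H| * ν.real univ) := by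
  have := hb.fin
  have i1 : Integrable (fun z : E3 × E3 => d z.1) ν := hb.integrable (by fun_prop)
  have i2 := hb.integrable (continuous_fvd H hφ (e3 i))
  have i3 : Integrable (fun z : E3 × E3 => 1 - z.2 2 ^ 2) ν := hb.integrable (by fun_prop)
  have e1 : ∫ z, d z.1 ∂ν = ∫ z, (d z.1 - fvd H φ (e3 i) z) ∂ν := by
    rw [integral_sub i1 i2, hz φ hφ _ h0, sub_zero]
  have e2 : 2 * C * (excN ν + |H| * ν.real univ)
      = ∫ z : E3 × E3, 2 * C * (1 - z.2 2 ^ 2 + |H|) ∂ν := by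
    rw [integral_const_mul, integral_add i3 (integrable_const _), excN]
    simp [mul_comm]
  rw [e1, e2]
  refine integral_mono_ae (i1.sub i2) ((i3.add (integrable_const _)).const_mul _) ?_
  filter_upwards [hb.unit] with z hu
  have h1 := hij _ hu
  have h2 : ⟪e3 i, z.2⟫ = z.2 i := by simp [e3, EuclideanSpace.inner_single_left]
  obtain ⟨c1, c2, c3⟩ := hC z.1
  have c0 : 0 ≤ C := (abs_nonneg _).trans c1
  have h3 : d z.1 - fvd H φ (e3 i) z = d z.1 * z.2 i ^ 2 + e z.1 * (z.2 j * z.2 i)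
      - 2 * (H * φ z.1 * z.2 i) := by
    simp only [fvd, hD, h2, e3_apply, if_neg hne, if_true]
    ring
  have h4 : d z.1 * z.2 i ^ 2 ≤ C * z.2 i ^ 2 :=
    mul_le_mul_of_nonneg_right (le_of_abs_le c1) (sq_nonneg _)
  have h5 : e z.1 * (z.2 j * z.2 i) ≤ C * (z.2 i ^ 2 + z.2 j ^ 2) := by
    refine (le_abs_self _).trans ?_
    rw [abs_mul]
    refine mul_le_mul c2 (abs_le.2 ⟨?_, ?_⟩) (abs_nonneg _) c0
    · nlinarith [sq_nonneg (z.2 i + z.2 j)]
    · nlinarith [sq_nonneg (z.2 i - z.2 j)]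
  have h6 : |H * φ z.1 * z.2 i| ≤ |H| * C := by
    have : |z.2 i| ≤ 1 := by
      rw [← sq_le_one_iff_abs_le_one]
      nlinarith [sq_nonneg (z.2 j), sq_nonneg (z.2 2)]
    rw [abs_mul, abs_mul]
    exact (mul_le_of_le_one_right (by positivity) this).trans
      (mul_le_mul_of_nonneg_left c3 (abs_nonneg _))
  have h7 := neg_abs_le (H * φ z.1 * z.2 i)
  have h8 := mul_nonneg c0 (sq_nonneg (z.2 j))
  simp only [h3, ← h1]
  nlinarith

theorem shift {g g' : ℝ → ℝ} (h : C1 g g') (a : ℝ) :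
    C1 (fun t => g (t - a)) (fun t => g' (t - a)) :=
  ⟨fun t => (h.hd (t - a)).comp_sub_const t a, h.hc.comp (by fun_prop)⟩

theorem step (hBMP : S_BMP) {r ρ : ℝ} (hr : 0 < r) (hρ : r ≤ ρ) : ∃ C : ℝ, 0 ≤ C ∧
    ∀ {i j : Fin 3}, (∀ n : E3, ‖n‖ = 1 → n i ^ 2 + n j ^ 2 = 1 - n 2 ^ 2) → j ≠ i →
    ∀ {K : Set E2} {c c' a a' u : ℝ},
    (∀ q ∈ K, 2 * ρ ≤ |toP q i - c| ∨ 2 * ρ ≤ |toP q j - c'|) → |a - c| ≤ ρ → |a' - c| ≤ ρ →
    |u - c'| ≤ ρ → ∀ {H : ℝ} {ν : Measure (E3 × E3)}, Bd ν → Fz K H ν →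
    ∫ z, bmp r (z.1 i - a') * bmp r (z.1 j - u) ∂ν ≤
      ∫ z, bmp r (z.1 i - a) * bmp r (z.1 j - u) ∂ν + C * (excN ν + |H| * ν.real univ) := by
  obtain ⟨b', B, L, h1, h2, h3, h4, h5⟩ := hBMP r hr
  have l0 : 0 ≤ L := (abs_nonneg _).trans (h3 0).1
  refine ⟨2 * (2 * L * L), by positivity, ?_⟩
  intro i j hij hne K c c' a a' u hK ha ha' hu H ν hb hz
  have k1 := (shift h2 a').sub (shift h2 a)
  have k2 := shift h1 u
  have cb := h1.cont
  have bd : ∀ s s' t : ℝ, |s| ≤ L → |s'| ≤ L → |t| ≤ L → |(s - s') * t| ≤ 2 * L * L :=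
    fun s s' t p1 p2 p3 => by
      rw [abs_mul]
      exact mul_le_mul ((abs_sub _ _).trans (by linarith)) p3 (abs_nonneg _) (by positivity)
  have := core hb hz (φ := fun p => (B (p i - a') - B (p i - a)) * bmp r (p j - u))
    (d := fun p => (bmp r (p i - a') - bmp r (p i - a)) * bmp r (p j - u))
    (e := fun p => (B (p i - a') - B (p i - a)) * b' (p j - u)) (C := 2 * L * L)
    ((k1.contDiff.comp (contDiff_coord i)).mul (k2.contDiff.comp (contDiff_coord j)))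
    (by fun_prop) hij hne (fun p v => by
      have := (((k1.hd (p i)).comp_hasFDerivAt p (hasFD_coord p i)).mul
        ((k2.hd (p j)).comp_hasFDerivAt p (hasFD_coord p j))).fderiv
      refine (DFunLike.congr_fun this v).trans ?_
      simp
      ring)
    (fun p => ⟨bd _ _ _ (h3 _).1 (h3 _).1 (h3 _).1, bd _ _ _ (h3 _).2.2 (h3 _).2.2 (h3 _).2.1,
      bd _ _ _ (h3 _).2.2 (h3 _).2.2 (h3 _).1⟩) (fun q hq => by
      obtain ⟨a1, a2⟩ := abs_le.1 ha
      obtain ⟨a3, a4⟩ := abs_le.1 ha'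
      obtain ⟨a5, a6⟩ := abs_le.1 hu
      rcases hK q hq with h | h
      · rcases le_abs.1 h with h | h
        · rw [h5 _ (by linarith : r ≤ toP q i - a'), h5 _ (by linarith : r ≤ toP q i - a)]
          simp
        · rw [h4 _ (by linarith), h4 _ (by linarith)]
          simp
      · have : r ^ 2 - (toP q j - u) ^ 2 ≤ 0 := by
          rcases le_abs.1 h with h | h <;> nlinarith
        simp [bmp, max_eq_left this])
  simp only [sub_mul] at this
  rw [integral_sub (hb.integrable (by fun_prop)) (hb.integrable (by fun_prop))] at this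
  linarith

end MoveA

theorem p_MOVE (hBMP : S_BMP) : S_MOVE := by
  intro K A ρ r y y' y'' hr hρ hK h1 h2 hL δ hδ
  obtain ⟨C, c0, hC⟩ := MoveA.step hBMP hr hρ
  obtain ⟨ε, e0, he⟩ := hL (δ / 2) (by positivity)
  have p0 : 0 < 4 * (C + 1) * (1 + |A|) := by positivity
  refine ⟨min ε (δ / (4 * (C + 1) * (1 + |A|))), by positivity, fun H ν hb hz hs => ?_⟩
  have k0 := he H ν hb hz ⟨hs.h.trans (min_le_left _ _), hs.e.trans (min_le_left _ _), hs.a⟩
  have n3 : ∀ n : E3, ‖n‖ = 1 → n 0 ^ 2 + n 1 ^ 2 = 1 - n 2 ^ 2 := fun n hn => by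
    have := norm_sq3 n
    rw [hn] at this
    linarith
  have k1 := hC (i := 0) (j := 1) n3 (by decide) (K := K) (c := y 0) (c' := y 1)
    (fun q hq => by simpa [toP] using hK q hq) (h1 0) (h2 0) (h1 1) hb hz
  have k2 := hC (i := 1) (j := 0) (fun n hn => by rw [add_comm, n3 n hn]) (by decide) (K := K)
    (c := y 1) (c' := y 0) (fun q hq => by simpa [toP] using (hK q hq).symm) (h1 1) (h2 1) (h2 0)
    hb hz
  simp only [mul_comm (bmp r (_ - y' 1)), mul_comm (bmp r (_ - y'' 1))] at k2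
  set t := δ / (4 * (C + 1) * (1 + |A|)) with ht
  have t0 : 0 < t := by positivity
  have t1 : t * (4 * (C + 1) * (1 + |A|)) = δ := div_mul_cancel₀ _ p0.ne'
  have k3 : excN ν + |H| * ν.real univ ≤ t * (1 + |A|) := by
    have := mul_le_mul (hs.h.trans (min_le_right _ _)) (hs.a.trans (le_abs_self A))
      measureReal_nonneg t0.le
    have := hs.e.trans (min_le_right _ _)
    linarith
  have k4 := mul_le_mul_of_nonneg_left k3 c0
  have k5 : 0 ≤ t * (1 + |A|) := by positivity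
  simp only [g2] at k0 ⊢
  nlinarith

end Pool.Agent.P.MP_a07190_gt.Wk

end

section

/-! Every point outside `K` has a square with little area over it. -/

open scoped Manifold ContDiff RealInnerProductSpace Topology
open Set MeasureTheory Filter

namespace Pool.Agent.P.MP_a07190_gt.Wk

namespace CloA

theorem bmp_nonneg (r t : ℝ) : 0 ≤ bmp r t := sq_nonneg _

theorem bmp_mono {r r' : ℝ} (h0 : 0 < r') (h : r' ≤ r) (t : ℝ) : bmp r' t ≤ bmp r t :=
  pow_le_pow_left₀ (le_max_left _ _) (max_le_max le_rfl (by nlinarith)) 2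

theorem cont (r : ℝ) (y : E2) : Continuous fun z : E3 × E3 => g2 r y z.1 := by
  unfold g2 bmp
  fun_prop

theorem lit_mono {K : Set E2} {A r r' : ℝ} {y : E2} (h0 : 0 < r') (h : r' ≤ r)
    (hL : Lit K A y r) : Lit K A y r' := fun δ hδ => by
  obtain ⟨ε, hε, h1⟩ := hL δ hδ
  refine ⟨ε, hε, fun H ν hb hf hs => le_trans ?_ (h1 H ν hb hf hs)⟩
  exact integral_mono (hb.integrable (cont _ _)) (hb.integrable (cont _ _)) fun z =>
    mul_le_mul (bmp_mono h0 h _) (bmp_mono h0 h _) (bmp_nonneg _ _) (bmp_nonneg _ _)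

theorem bmp_le (t : ℝ) : bmp 1 t ≤ 1 :=
  pow_le_one₀ (le_max_left _ _) (max_le zero_le_one (by nlinarith))

theorem bmp_zero {t : ℝ} (h : ¬|t| ≤ 1) : bmp 1 t = 0 := by
  have : 1 ^ 2 - t ^ 2 ≤ 0 := by nlinarith [sq_abs t, not_le.1 h]
  rw [bmp, max_eq_left this, zero_pow two_ne_zero]

theorem far (hSLAB : S_SLAB) {K : Set E2} (A : ℝ) {R : ℝ} (hR : ∀ q ∈ K, ‖q‖ ≤ R) :
    Lit K A (pt (R + 2, 0)) 1 := fun δ hδ => by
  obtain ⟨ε, hε, h1⟩ := hSLAB 1 δ A one_pos le_rfl hδ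
  refine ⟨ε, hε, fun H ν hb hf hs => le_trans ?_ (h1 K H ν hb hf hs 0 1 (by decide) (by decide)
    (R + 2) 0 fun q hq => ?_)⟩
  · have := hb.fin
    have hm : MeasurableSet {z : E3 × E3 | |z.1 0 - (R + 2)| ≤ 1 ∧ |z.1 1 - 0| ≤ 1} :=
      IsClosed.measurableSet (IsClosed.and (isClosed_le (by fun_prop) continuous_const)
        (isClosed_le (by fun_prop) continuous_const))
    rw [← integral_indicator_one hm]
    refine integral_mono (hb.integrable (cont _ _)) ((integrable_const 1).indicator hm) fun z => ?_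
    simp only [g2, pt_0, pt_1]
    by_cases h : z ∈ {z : E3 × E3 | |z.1 0 - (R + 2)| ≤ 1 ∧ |z.1 1 - 0| ≤ 1}
    · rw [indicator_of_mem h]
      exact mul_le_one₀ (bmp_le _) (bmp_nonneg _ _) (bmp_le _)
    · rw [indicator_of_notMem h]
      rcases not_and_or.1 h with h | h <;> simp only [bmp_zero h, zero_mul, mul_zero, le_refl]
  · have h2 : |q 0| ≤ R := (PiLp.norm_apply_le q 0).trans (hR q hq)
    rw [toP_0, abs_sub_comm]
    exact le_trans (by linarith [le_abs_self (q 0)]) (le_abs_self _)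

theorem sq {K : Set E2} (hK : IsClosed K) {y : E2} (hy : y ∉ K) :
    ∃ ρ : ℝ, 0 < ρ ∧ ∀ q ∈ K, 2 * ρ ≤ |q 0 - y 0| ∨ 2 * ρ ≤ |q 1 - y 1| := by
  obtain ⟨ε, hε, h⟩ := Metric.isOpen_iff.1 hK.isOpen_compl y hy
  refine ⟨ε / 4, by positivity, fun q hq => ?_⟩
  by_contra hc
  push Not at hc
  refine h (Metric.mem_ball.2 ?_) hq
  rw [EuclideanSpace.dist_eq, Fin.sum_univ_two, Real.sqrt_lt' hε, Real.dist_eq, Real.dist_eq]
  nlinarith [hc.1, hc.2, abs_nonneg (q 0 - y 0), abs_nonneg (q 1 - y 1)]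

end CloA

open CloA in
theorem p_CLO (hSLAB : S_SLAB) (hMOVE : S_MOVE) : S_CLO := by
  intro K A hK hc y hy
  obtain ⟨R, hR⟩ := hK.exists_bound_of_continuousOn continuousOn_id
  have h0 : pt (R + 2, 0) ∉ K := fun h => by
    have h2 : |pt (R + 2, 0) 0| ≤ R := (PiLp.norm_apply_le _ 0).trans (hR _ h)
    rw [pt_0] at h2
    linarith [le_abs_self (R + 2)]
  refine hc.induction₂' (fun a b => (∃ r : ℝ, 0 < r ∧ Lit K A a r) → ∃ r : ℝ, 0 < r ∧ Lit K A b r)
    (fun x hx => ?_) (fun _ _ _ _ _ _ h1 h2 h => h2 (h1 h)) h0 hy ⟨1, one_pos, far hSLAB A hR⟩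
  obtain ⟨ρ, hρ, h⟩ := sq hK.isClosed hx
  have key : ∀ a b : E2, (∀ i, |a i - x i| ≤ ρ) → (∀ i, |b i - x i| ≤ ρ) →
      (∃ r : ℝ, 0 < r ∧ Lit K A a r) → ∃ r : ℝ, 0 < r ∧ Lit K A b r := by
    rintro a b ha hb ⟨r, hr, hL⟩
    exact ⟨min r ρ, lt_min hr hρ, hMOVE K A ρ _ x a b (lt_min hr hρ) (min_le_right _ _) h ha hb
      (lit_mono (lt_min hr hρ) (min_le_left _ _) hL)⟩
  filter_upwards [mem_nhdsWithin_of_mem_nhds (Metric.closedBall_mem_nhds x hρ)] with z hz
  have h1 : ∀ i, |z i - x i| ≤ ρ := fun i => (PiLp.norm_apply_le (z - x) i).trans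
    (by rwa [← dist_eq_norm])
  have h2 : ∀ i, |x i - x i| ≤ ρ := fun i => by simpa using hρ.le
  exact ⟨key _ _ h2 h1, key _ _ h1 h2⟩

end Pool.Agent.P.MP_a07190_gt.Wk

end

section

open scoped Manifold ContDiff RealInnerProductSpace Topology
open Set MeasureTheory Filter

namespace Pool.Agent.P.MP_a07190_gt.Wk

namespace MonoA

theorem meas_ball (p : E3) (r : ℝ) : MeasurableSet {z : E3 × E3 | dist z.1 p ≤ r} :=
  (isClosed_le (by fun_prop) continuous_const).measurableSet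

theorem mono_le {Γ : Set E2} {H : ℝ} {ν : Measure (E3 × E3)} (hb : Bd ν) (hz : Fz Γ H ν)
    {χ χ' : ℝ → ℝ} (hχ : C1 χ χ') {K r σ : ℝ}
    (hσ : 0 < σ) (hr : 0 ≤ r) (k0 : ∀ t, 0 ≤ χ t) (k1 : ∀ t, χ t ≤ 1) (k2 : ∀ t, |χ' t| ≤ K)
    (k3 : ∀ t, t ≤ σ ^ 2 → χ t = 1) (k4 : ∀ t, r ^ 2 ≤ t → χ t = 0)
    (k5 : ∀ t, r ^ 2 < t → χ' t = 0) (hσr : σ ≤ r) (p : E3)
    (h0 : ∀ q ∈ Γ, r ^ 2 ≤ sq3 p (toP q)) :
    ν.real {z | dist z.1 p ≤ σ} * (1 / (2 * σ ^ 2))
      ≤ ν.real {z | dist z.1 p ≤ r} * (2 * K + H ^ 2 / 2) := by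
  have := hb.fin
  have hφ := contDiff_rad hχ hσ p
  have k := fun i => hz _ (hφ i) (e3 i) (fun m hm => by simp [rad, k4 _ (h0 m hm)])
  have hc := fun i => hb.integrable (continuous_fvd H (hφ i) (e3 i))
  have ks := integral_finsetSum (μ := ν) Finset.univ fun i _ => hc i
  simp only [k, Finset.sum_const_zero] at ks
  rw [← smul_eq_mul, ← smul_eq_mul (Measure.real _ _), ← integral_indicator_const _ (meas_ball p σ),
    ← integral_indicator_const _ (meas_ball p r),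
    ← zero_add (∫ _, indicator {z : E3 × E3 | dist z.1 p ≤ r} _ _ ∂_), ← ks,
    ← integral_add (integrable_finsetSum _ fun i _ => hc i)
      ((integrable_const _).indicator (meas_ball p r))]
  refine integral_mono_ae ((integrable_const _).indicator (meas_ball p σ))
    ((integrable_finsetSum _ fun i _ => hc i).add
      ((integrable_const _).indicator (meas_ball p r))) ?_
  filter_upwards [hb.unit] with z hu
  have u := unit3 hu
  set s := sq3 p z.1 with hs
  set t := (z.1 0 - p 0) * z.2 0 + (z.1 1 - p 1) * z.2 1 + (z.1 2 - p 2) * z.2 2 with ht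
  have e : ∑ i, fvd H (rad χ σ p i) (e3 i) z
      = (χ' s / (s + σ ^ 2) - χ s / (s + σ ^ 2) ^ 2) * (2 * (s - t ^ 2))
        + 2 * (χ s / (s + σ ^ 2)) + 2 * H * (χ s / (s + σ ^ 2)) * t := by
    simp only [fvd]
    simp only [fderiv_rad hχ hσ]
    simp only [Fin.sum_univ_three, rad, ← hs, inner3, e3_apply, Fin.isValue, Fin.reduceEq,
      ↓reduceIte]
    have : s = (z.1 0 - p 0) ^ 2 + (z.1 1 - p 1) ^ 2 + (z.1 2 - p 2) ^ 2 := hs
    linear_combination (-(χ s / (s + σ ^ 2))) * u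
      - 2 * (χ' s / (s + σ ^ 2) - χ s / (s + σ ^ 2) ^ 2) * this
  have hts : t ^ 2 ≤ s := by
    have : s = (z.1 0 - p 0) ^ 2 + (z.1 1 - p 1) ^ 2 + (z.1 2 - p 2) ^ 2 := hs
    rw [this, ← mul_one (_ + _ + _), ← u, ht]
    nlinarith [sq_nonneg ((z.1 0 - p 0) * z.2 1 - (z.1 1 - p 1) * z.2 0),
      sq_nonneg ((z.1 0 - p 0) * z.2 2 - (z.1 2 - p 2) * z.2 0),
      sq_nonneg ((z.1 1 - p 1) * z.2 2 - (z.1 2 - p 2) * z.2 1)]
  have hd : dist z.1 p ^ 2 = s := dist_sq3 _ _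
  have s0 : 0 ≤ s := sq3_nonneg _ _
  simp only [e]
  by_cases hm : z ∈ {z : E3 × E3 | dist z.1 p ≤ r}
  · rw [indicator_of_mem hm]
    refine le_trans ?_ (mono_pt hσ (k0 s) (k1 s) (k2 s) hts)
    by_cases hm' : z ∈ {z : E3 × E3 | dist z.1 p ≤ σ}
    · have hd' : dist z.1 p ≤ σ := hm'
      have hs' : s ≤ σ ^ 2 := by rw [← hd]; gcongr
      rw [indicator_of_mem hm', k3 s hs', div_le_div_iff₀ (by positivity) (by positivity)]
      nlinarith [mul_le_mul hs' hs' s0 (sq_nonneg σ), mul_le_mul_of_nonneg_right hs' (sq_nonneg σ)]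
    · rw [indicator_of_notMem hm']
      have := k0 s
      positivity
  · have hd' : r < dist z.1 p := not_le.1 hm
    have hs' : r ^ 2 < s := by rw [← hd]; gcongr
    rw [indicator_of_notMem hm,
      indicator_of_notMem fun hm' : z ∈ {z : E3 × E3 | dist z.1 p ≤ σ} =>
        hm (le_trans (show dist z.1 p ≤ σ from hm') hσr), k4 s hs'.le, k5 s hs']
    simp

end MonoA

theorem p_MONO : S_MONO := by
  intro r hr
  obtain ⟨S3, S3', S3'', K3, h3⟩ :=
    exists_step (show (r / 2) ^ 2 < r ^ 2 by gcongr; linarith)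
  have k3 : 0 ≤ K3 := (abs_nonneg _).trans (h3.b1 0)
  refine ⟨1 / 8 / (2 * K3 + 1 / 2), by positivity, fun K H ν hb hz hH p hp hd => ?_⟩
  obtain ⟨σ, σ0, σ1, hσ⟩ := hd (r / 2) (by linarith)
  have e1 := MonoA.mono_le hb hz (C1.one.sub h3.c1) (K := K3) (r := r) σ0 hr.le
    (fun t => sub_nonneg.2 (h3.le_one t)) (fun t => sub_le_self _ (h3.nonneg t))
    (fun t => by simpa using h3.b1 t)
    (fun t ht => by rw [h3.zero t (ht.trans (by gcongr)), sub_zero])
    (fun t ht => by rw [h3.one t ht, sub_self])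
    (fun t ht => by rw [h3.dz t (fun h => absurd h.2 (not_le.2 ht)), sub_self]) (by linarith) p
    (fun q hq => by
      have hd : dist (toP q) p ^ 2 = sq3 p (toP q) := dist_sq3 _ _
      rw [← hd]
      have := hp q hq
      gcongr)
  have e4 : σ ^ 2 / 4 * (1 / (2 * σ ^ 2)) = 1 / 8 := by field_simp; norm_num
  have e5 := mul_le_mul_of_nonneg_right hσ (show 0 ≤ 1 / (2 * σ ^ 2) by positivity)
  have k6 : H ^ 2 ≤ 1 := by rw [← sq_abs]; nlinarith [abs_nonneg H]
  rw [div_le_iff₀ (by positivity)]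
  have e6 : ν.real {z | dist z.1 p ≤ r} * (2 * K3 + H ^ 2 / 2)
      ≤ ν.real {z | dist z.1 p ≤ r} * (2 * K3 + 1 / 2) := by gcongr
  linarith

end Pool.Agent.P.MP_a07190_gt.Wk

end

section

/-! Step LOC: no point of positive density away from the boundary. -/

open scoped Manifold ContDiff RealInnerProductSpace Topology
open Set MeasureTheory Filter

namespace Pool.Agent.P.MP_a07190_gt.Wk

namespace LocA

theorem coord (x y : E3) (i : Fin 3) : |x i - y i| ≤ dist x y := PiLp.dist_apply_le x y i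

theorem sm_mono {ε ε' A H : ℝ} {ν : Measure (E3 × E3)} (h : Sm ε A H ν) (e : ε ≤ ε') :
    Sm ε' A H ν := ⟨h.h.trans e, h.e.trans e, h.a⟩

theorem ball_mono {ν : Measure (E3 × E3)} (h : Bd ν) (p : E3) {r r' : ℝ} (e : r ≤ r') :
    ν.real {z | dist z.1 p ≤ r} ≤ ν.real {z | dist z.1 p ≤ r'} := by
  have := h.fin
  exact measureReal_mono fun z (hz : dist z.1 p ≤ r) => hz.trans e

/-- there is little area in the balls of some fixed radius around the points of `S` -/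
def Sml (K : Set E2) (A : ℝ) (S : Set E3) : Prop :=
  ∃ r : ℝ, 0 < r ∧ ∀ δ : ℝ, 0 < δ → ∃ ε : ℝ, 0 < ε ∧ ∀ (H : ℝ) (ν : Measure (E3 × E3)), Bd ν →
    Fz K H ν → Sm ε A H ν → ∀ p ∈ S, ν.real {z | dist z.1 p ≤ r} ≤ δ

theorem bmp_ge {r t : ℝ} (h : |t| ≤ r / 2) : (3 * r ^ 2 / 4) ^ 2 ≤ bmp r t := by
  have := abs_le.1 h
  exact pow_le_pow_left₀ (by positivity) (le_max_of_le_right (by nlinarith)) 2

theorem sml_ball {K : Set E2} {A r : ℝ} {p : E3} (hr : 0 < r) (h : Lit K A (prj p) r) :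
    Sml K A (Metric.ball p (r / 4)) := by
  refine ⟨r / 4, by positivity, fun δ hδ => ?_⟩
  have k0 : 0 < (3 * r ^ 2 / 4) ^ 2 * (3 * r ^ 2 / 4) ^ 2 := by positivity
  obtain ⟨ε, e0, he⟩ := h _ (mul_pos k0 hδ)
  refine ⟨ε, e0, fun H ν b f s p' hp => ?_⟩
  have := b.fin
  have hi : Integrable (fun z : E3 × E3 => g2 r (prj p) z.1) ν :=
    b.integrable (by unfold g2 bmp; fun_prop)
  refine le_of_mul_le_mul_left (le_trans ?_ ((mul_meas_ge_le_integral_of_nonneg
    (.of_forall fun z => by unfold g2 bmp; positivity) hi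
    ((3 * r ^ 2 / 4) ^ 2 * (3 * r ^ 2 / 4) ^ 2)).trans (he H ν b f s))) k0
  refine mul_le_mul_of_nonneg_left (measureReal_mono fun z (hz : dist z.1 p' ≤ r / 4) => ?_) k0.le
  have d : dist z.1 p ≤ r / 2 := by linarith [dist_triangle z.1 p' p, Metric.mem_ball.1 hp]
  exact mul_le_mul (bmp_ge (by simpa using (coord _ _ 0).trans d))
    (bmp_ge (by simpa using (coord _ _ 1).trans d)) (by positivity) (by unfold bmp; positivity)

theorem sml_compact (hCLO : S_CLO) {K : Set E2} {A : ℝ} (hK : IsCompact K)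
    (hc : IsPreconnected Kᶜ) {C : Set E3} (hC : IsCompact C) (h : ∀ p ∈ C, prj p ∉ K) :
    Sml K A C := by
  refine hC.induction_on ⟨1, one_pos, fun _ _ => ⟨1, one_pos, fun _ _ _ _ _ _ h => h.elim⟩⟩ ?_ ?_ ?_
  · rintro s t st ⟨r, r0, h⟩
    exact ⟨r, r0, fun δ hδ => (h δ hδ).imp fun ε e =>
      ⟨e.1, fun H ν b f s p hp => e.2 H ν b f s p (st hp)⟩⟩
  · rintro s t ⟨r, r0, h⟩ ⟨r', r0', h'⟩
    refine ⟨min r r', lt_min r0 r0', fun δ hδ => ?_⟩
    obtain ⟨ε, e0, e⟩ := h δ hδ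
    obtain ⟨ε', e0', e'⟩ := h' δ hδ
    refine ⟨min ε ε', lt_min e0 e0', fun H ν b f s p hp => hp.elim (fun hp => ?_) fun hp => ?_⟩
    · exact (ball_mono b p (min_le_left _ _)).trans (e H ν b f (sm_mono s (min_le_left _ _)) p hp)
    · exact (ball_mono b p (min_le_right _ _)).trans
        (e' H ν b f (sm_mono s (min_le_right _ _)) p hp)
  · intro p hp
    obtain ⟨r, r0, hr⟩ := hCLO K A hK hc _ (h p hp)
    exact ⟨_, mem_nhdsWithin_of_mem_nhds (Metric.ball_mem_nhds p (by positivity)), sml_ball r0 hr⟩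

theorem dist_prj (p : E3) : dist (toP (prj p)) p = |p 2| := by
  simp [EuclideanSpace.dist_eq, Fin.sum_univ_three, Real.sqrt_sq_eq_abs]

theorem norm_le (p : E3) : ‖p‖ ≤ |p 0| + |p 1| + |p 2| := by
  rw [EuclideanSpace.norm_eq, Fin.sum_univ_three]
  refine Real.sqrt_le_iff.2 ⟨by positivity, ?_⟩
  simp only [Real.norm_eq_abs]
  nlinarith [mul_nonneg (abs_nonneg (p 0)) (abs_nonneg (p 1)),
    mul_nonneg (abs_nonneg (p 0)) (abs_nonneg (p 2)),
    mul_nonneg (abs_nonneg (p 1)) (abs_nonneg (p 2))]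

end LocA

open LocA in
theorem p_LOC (hSLAB : S_SLAB) (hCLO : S_CLO) (hMONO : S_MONO) : S_LOC := by
  intro K A O hK hc hO hKO
  obtain ⟨d, d0, hd⟩ := (hK.image (by unfold toP; fun_prop)).exists_thickening_subset_open hO hKO
  have far : ∀ p ∉ O, ∀ q ∈ K, d ≤ dist (toP q) p := fun p hp q hq => not_lt.1 fun h =>
    hp (hd (Metric.mem_thickening_iff.2 ⟨_, mem_image_of_mem _ hq, by rwa [dist_comm]⟩))
  obtain ⟨R, hR⟩ := hK.isBounded.exists_norm_le
  have hR' : ∀ q ∈ K, ∀ i, |q i| ≤ R := fun q hq i => (PiLp.norm_apply_le q i).trans (hR q hq)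
  obtain ⟨r0, r00, h0⟩ := sml_compact hCLO (A := A) hK hc
    (C := Metric.closedBall 0 (2 * R + 6) ∩ (Oᶜ ∩ {p | |p 2| ≤ d / 2}))
    ((isCompact_closedBall _ _).inter_right (hO.isClosed_compl.inter
      (isClosed_le (by fun_prop) continuous_const))) fun p hp h => by
      have h1 := far p hp.2.1 _ h
      have h2 : |p 2| ≤ d / 2 := hp.2.2
      rw [dist_prj] at h1
      linarith
  obtain ⟨r, r1, r2, r3, r4⟩ : ∃ r, 0 < r ∧ r ≤ 1 ∧ r ≤ d / 4 ∧ r ≤ r0 :=
    ⟨min 1 (min (d / 4) r0), by positivity, min_le_left _ _,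
      (min_le_right _ _).trans (min_le_left _ _), (min_le_right _ _).trans (min_le_right _ _)⟩
  obtain ⟨c, c0, hm⟩ := hMONO r r1
  obtain ⟨ε, e0, e⟩ := h0 (c / 2) (by positivity)
  obtain ⟨ε', e0', e'⟩ := hSLAB r (c / 2) A r1 r2 (by positivity)
  refine ⟨min 1 (min ε ε'), by positivity, fun H ν b f s p hp hD => ?_⟩
  have := b.fin
  have lo := hm K H ν b f (s.h.trans (min_le_left _ _)) p
    (fun q hq => by linarith [far p hp q hq]) hD
  have sl : ∀ i j : Fin 3, i ≠ j → j ≠ 2 → ¬∀ q ∈ K, 2 * r ≤ |toP q i - p i| := fun i j a a' h => by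
    have h1 := e' K H ν b f (sm_mono s ((min_le_right _ _).trans (min_le_right _ _))) i j a a'
      (p i) (p j) h
    have h2 : ν.real {z | dist z.1 p ≤ r} ≤ ν.real {z | |z.1 i - p i| ≤ r ∧ |z.1 j - p j| ≤ r} :=
      measureReal_mono fun z (hz : dist z.1 p ≤ r) =>
        ⟨(coord _ _ i).trans hz, (coord _ _ j).trans hz⟩
    linarith
  have a2 : |p 2| < 2 * r := not_le.1 fun h => sl 2 0 (by decide) (by decide) fun q _ => by
    simpa using h
  have a0 : |p 0| < R + 2 := not_le.1 fun h => sl 0 1 (by decide) (by decide) fun q hq => by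
    have := abs_sub_abs_le_abs_sub (p 0) (q 0)
    rw [toP_0, abs_sub_comm]
    linarith [hR' q hq 0]
  have a1 : |p 1| < R + 2 := not_le.1 fun h => sl 1 0 (by decide) (by decide) fun q hq => by
    have := abs_sub_abs_le_abs_sub (p 1) (q 1)
    rw [toP_1, abs_sub_comm]
    linarith [hR' q hq 1]
  have h1 := e H ν b f (sm_mono s ((min_le_right _ _).trans (min_le_left _ _))) p
    ⟨mem_closedBall_zero_iff.2 (by linarith [norm_le p]), hp, show |p 2| ≤ d / 2 by linarith⟩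
  linarith [ball_mono b p r4]

end Pool.Agent.P.MP_a07190_gt.Wk

end

section

/-! The complement of two compact convex sets in the plane is connected. -/

open scoped Manifold ContDiff RealInnerProductSpace Topology
open Set MeasureTheory Filter

namespace Pool.Agent.P.MP_a07190_gt.Wk

theorem p_CVX : S_CVX := by
  intro K1 K2 c1 k1 c2 k2 _
  obtain ⟨R, R0, hR⟩ := (k1.union k2).isBounded.subset_closedBall_lt 0 0
  let E : Set E2 := (fun z : E2 × ℝ => z.2 • z.1) '' (Metric.sphere 0 1 ×ˢ Ioi R)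
  have hE : IsPreconnected E :=
    ((isPreconnected_sphere (by rw [← Module.finrank_eq_rank]; simp) 0 1).prod
      isPreconnected_Ioi).image _ (by fun_prop)
  have mE : ∀ y, y ∈ E ↔ R < ‖y‖ := fun y => by
    constructor
    · rintro ⟨⟨v, t⟩, ⟨hv, ht⟩, rfl⟩
      rw [norm_smul, mem_sphere_zero_iff_norm.1 hv, mul_one]
      exact lt_of_lt_of_le ht (le_abs_self t)
    · intro h
      have h0 : ‖y‖ ≠ 0 := (R0.trans h).ne'
      exact ⟨(‖y‖⁻¹ • y, ‖y‖), ⟨by simp [norm_smul, h0], h⟩, smul_inv_smul₀ h0 y⟩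
  have sE : E ⊆ (K1 ∪ K2)ᶜ := fun y hy h =>
    absurd (mem_closedBall_zero_iff.1 (hR h)) (not_le.2 ((mE y).1 hy))
  refine isPreconnected_of_forall (EuclideanSpace.single 0 (R + 1)) fun p hp => ?_
  obtain ⟨l1, a1, h1, g1⟩ := geometric_hahn_banach_closed_point c1 k1.isClosed fun h => hp (.inl h)
  obtain ⟨l2, a2, h2, g2⟩ := geometric_hahn_banach_closed_point c2 k2.isClosed fun h => hp (.inr h)
  obtain ⟨u, u0, u1, u2⟩ : ∃ u : E2, u ≠ 0 ∧ l1 u = 0 ∧ 0 ≤ l2 u := by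
    obtain ⟨u, hu, u0⟩ := Submodule.exists_mem_ne_zero_of_ne_bot
      (LinearMap.ker_ne_bot_of_finrank_lt (f := (l1 : E2 →ₗ[ℝ] ℝ)) (by simp))
    have hu' : l1 u = 0 := hu
    rcases le_total 0 (l2 u) with h | h
    · exact ⟨u, u0, hu', h⟩
    · exact ⟨-u, neg_ne_zero.2 u0, by simp [hu'], by simpa using h⟩
  have n0 := norm_pos_iff.2 u0
  refine ⟨(fun t : ℝ => p + t • u) '' Ici 0 ∪ E, union_subset ?_ sE,
    .inr ((mE _).2 (by simpa using lt_of_lt_of_le (lt_add_one R) (le_abs_self _))),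
    .inl ⟨0, self_mem_Ici, by simp⟩,
    (isPreconnected_Ici.image _ (by fun_prop)).union (p + ((R + ‖p‖ + 1) / ‖u‖) • u)
      ⟨_, mem_Ici.2 (by positivity), rfl⟩ ((mE _).2 ?_) hE⟩
  · rintro _ ⟨t, ht, rfl⟩ (h | h)
    · have := h1 _ h
      simp only [map_add, map_smul, u1, smul_zero] at this
      linarith
    · have := h2 _ h
      simp only [map_add, map_smul, smul_eq_mul] at this
      linarith [mul_nonneg (mem_Ici.1 ht) u2]
  · have := norm_sub_le (p + ((R + ‖p‖ + 1) / ‖u‖) • u) p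
    rw [add_sub_cancel_left, norm_smul, Real.norm_of_nonneg (by positivity),
      div_mul_cancel₀ _ n0.ne'] at this
    linarith

end Pool.Agent.P.MP_a07190_gt.Wk

end

section

/-! Two convex curves that form the boundary of a surface do not touch. -/

open scoped Manifold ContDiff RealInnerProductSpace Topology
open Set MeasureTheory Filter

namespace Pool.Agent.P.MP_a07190_gt.Wk

namespace TchA

theorem loc {M : Type} [TopologicalSpace M] [ChartedSpace (EuclideanHalfSpace 2) M]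
    [IsManifold (𝓡∂ 2) ∞ M] [CompactSpace M] {f : M → E3} (hf : Continuous f) {C : Set E2}
    (hb : BijOn f (Bdy M) (toP '' C)) {p : E2} (hp : p ∈ C) :
    ∃ U ∈ 𝓝 p, ∃ g : E2 → ℝ, ContinuousOn g (C ∩ U) ∧ InjOn g (C ∩ U) := by
  obtain ⟨x₀, -, -⟩ := bij_surj hb hp
  have : Nonempty M := ⟨x₀⟩
  choose! k k1 k2 using fun q (hq : q ∈ C) => bij_surj hb hq
  have hk : ContinuousOn k C := continuousOn_iff_isClosed.2 fun t ht =>
    ⟨(fun m => prj (f m)) '' (Bdy M ∩ t),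
      ((((𝓡∂ 2).isClosed_boundary (n := ∞) (by simp)).inter ht).isCompact.image
        (cont_prj.comp hf)).isClosed, Set.ext fun q =>
      ⟨fun hq => ⟨⟨k q, ⟨k1 q hq.2, hq.1⟩, k2 q hq.2⟩, hq.2⟩, fun ⟨⟨m, hm, e⟩, hq⟩ =>
        ⟨by rw [mem_preimage, bij_inj hb (k1 q hq) hm.1 ((k2 q hq).trans e.symm)]; exact hm.2,
          hq⟩⟩⟩
  obtain ⟨U, hU, h1⟩ := mem_nhdsWithin_iff_exists_mem_nhds_inter.1
    (hk p hp (extChartAt_source_mem_nhds (I := 𝓡∂ 2) (k p)))
  have h2 : ∀ q ∈ C ∩ U, k q ∈ (ch (k p)).source := fun q hq => h1 ⟨hq.2, hq.1⟩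
  refine ⟨U, hU, fun q => ch (k p) (k q) 1,
    (show Continuous fun y : E2 => y 1 by fun_prop).comp_continuousOn
      ((continuousOn_extChartAt (k p)).comp (hk.mono inter_subset_left) h2), fun q hq r hr e => ?_⟩
  obtain ⟨v, hv, e1⟩ := exists_gam (h2 q hq) (k1 q hq.1)
  obtain ⟨w, hw, e2⟩ := exists_gam (h2 r hr) (k1 r hr.1)
  simp only [← e1, ← e2, gam] at e
  rw [(ch (k p)).right_inv hv, (ch (k p)).right_inv hw, pt_1, pt_1] at e
  rw [← k2 q hq.1, ← k2 r hr.1, ← e1, ← e2, show v = w from e]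

theorem arc {K : Set E2} (h : Convex ℝ K) (c : IsCompact K) (i : (interior K).Nonempty) :
    IsPreconnected (frontier K) ∧ ∀ p ∈ frontier K, ∃ a : ℝ → E2, Continuous a ∧ a 0 = p ∧
      (∀ t, a t ∈ frontier K) ∧ InjOn a (Ioo (-1) 1) := by
  obtain ⟨φ, -, -, h1⟩ :=
    exists_homeomorph_image_interior_closure_frontier_eq_unitBall h i c.isBounded
  have h2 : ∀ q, q ∈ frontier K ↔ φ q 0 ^ 2 + φ q 1 ^ 2 = 1 := fun q => by
    rw [← φ.injective.mem_set_image, h1, mem_sphere_zero_iff_norm, EuclideanSpace.norm_eq,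
      Real.sqrt_eq_one]
    simp
  refine ⟨φ.isPreconnected_image.1 ?_, fun p hp => ⟨fun t => φ.symm (pt
    (Real.cos t * φ p 0 - Real.sin t * φ p 1, Real.cos t * φ p 1 + Real.sin t * φ p 0)),
    by fun_prop, by simp [pt_eta], fun t => ?_, fun t ht s hs e => ?_⟩⟩
  · rw [h1]
    refine isPreconnected_sphere ?_ _ _
    rw [← Module.finrank_eq_rank]
    simp
  · rw [h2, φ.apply_symm_apply, pt_0, pt_1]
    linear_combination (Real.cos t ^ 2 + Real.sin t ^ 2) * (h2 p).1 hp + Real.cos_sq_add_sin_sq t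
  · have e1 := φ.symm.injective e
    have e2 := congrArg (fun y : E2 => y 0) e1
    have e3 := congrArg (fun y : E2 => y 1) e1
    simp only [pt_0, pt_1] at e2 e3
    have hπ := Real.pi_gt_three
    refine Real.injOn_sin ⟨by linarith [ht.1], by linarith [ht.2]⟩
      ⟨by linarith [hs.1], by linarith [hs.2]⟩ ?_
    linear_combination φ p 0 * e3 - φ p 1 * e2 - (Real.sin t - Real.sin s) * (h2 p).1 hp

theorem nb {C F U : Set E2} {p : E2} (hU : U ∈ 𝓝 p) {g : E2 → ℝ} (g1 : ContinuousOn g (C ∩ U))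
    (g2 : InjOn g (C ∩ U)) (hF : F ⊆ C) {a : ℝ → E2} (a1 : Continuous a) (a2 : a 0 = p)
    (a3 : ∀ t, a t ∈ F) (a4 : InjOn a (Ioo (-1) 1)) : F ∈ 𝓝[C] p := by
  obtain ⟨δ, hδ, h1⟩ := Metric.mem_nhds_iff.1 (inter_mem
    (a1.continuousAt (x := 0) (a2.symm ▸ hU)) (Ioo_mem_nhds neg_one_lt_zero one_pos))
  rw [Real.ball_eq_Ioo, zero_sub, zero_add] at h1
  have h2 : ∀ t ∈ Ioo (-δ) δ, a t ∈ C ∩ U := fun t ht => ⟨hF (a3 t), (h1 ht).1⟩
  have h3 : ContinuousOn (g ∘ a) (Ioo (-δ) δ) := g1.comp a1.continuousOn h2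
  have m0 : (0 : ℝ) ∈ Ioo (-δ) δ := ⟨by linarith, hδ⟩
  have m1 : -δ / 2 ∈ Ioo (-δ) δ := ⟨by linarith, by linarith⟩
  have m2 : δ / 2 ∈ Ioo (-δ) δ := ⟨by linarith, by linarith⟩
  have h4 : Icc (-δ / 2) (δ / 2) ⊆ Ioo (-δ) δ := Icc_subset_Ioo m1.1 m2.2
  have h5 : (g ∘ a) '' Icc (-δ / 2) (δ / 2) ∈ 𝓝 ((g ∘ a) 0) := by
    rcases h3.strictMonoOn_of_injOn_Ioo (by linarith) fun t ht s hs e =>
      a4 (h1 ht).2 (h1 hs).2 (g2 (h2 t ht) (h2 s hs) e) with h | h
    · exact mem_of_superset (Icc_mem_nhds (h m1 m0 (by linarith)) (h m0 m2 (by linarith)))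
        (intermediate_value_Icc (by linarith) (h3.mono h4))
    · exact mem_of_superset (Icc_mem_nhds (h m0 m2 (by linarith)) (h m1 m0 (by linarith)))
        (intermediate_value_Icc' (by linarith) (h3.mono h4))
  rw [Function.comp_apply, a2] at h5
  rw [← nhdsWithin_inter_of_mem' (mem_nhdsWithin_of_mem_nhds hU)]
  filter_upwards [g1 p (a2 ▸ h2 0 m0) h5, self_mem_nhdsWithin] with q ⟨t, ht, e⟩ hq
  exact g2 (h2 t (h4 ht)) hq e ▸ a3 t

end TchA

theorem p_TCH : S_TCH := by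
  intro M _ _ _ _ _ f hf K1 K2 h1 c1 i1 h2 c2 i2 hd hb
  refine disjoint_left.2 fun z z1 z2 => ?_
  have key : frontier K1 ∩ (frontier K2 ∩ closure (frontier K1 \ frontier K2)) = ∅ := by
    refine eq_empty_of_forall_notMem fun q ⟨_, q2, q3⟩ => ?_
    obtain ⟨U, hU, g, g1, g2⟩ := TchA.loc hf hb (Or.inr q2)
    obtain ⟨a, a1, a2, a3, a4⟩ := (TchA.arc h2 c2 i2).2 q q2
    obtain ⟨W, hW, h3⟩ := mem_nhdsWithin_iff_exists_mem_nhds_inter.1
      (TchA.nb hU g1 g2 subset_union_right a1 a2 a3 a4)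
    obtain ⟨r, r1, r2⟩ := mem_closure_iff_nhds.1 q3 W hW
    exact r2.2 (h3 ⟨r1, Or.inl r2.1⟩)
  have y1 := inter_sub_frontier h2 i2 hd z1 z2
  rcases isPreconnected_iff_subset_of_disjoint_closed.1 (TchA.arc h1 c1 i1).1 _ _
    isClosed_frontier isClosed_closure (fun q hq => (em (q ∈ frontier K2)).imp_right fun h =>
      subset_closure (mem_sdiff_of_mem hq h)) key with h | h
  · have h3 : K1 ⊆ K2 := by
      rw [← closure_convexHull_extremePoints c1 h1]
      exact closure_minimal (convexHull_min (fun q hq => c2.isClosed.frontier_subset (h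
        ⟨subset_closure hq.1, disjoint_right.1 (disjoint_interior_extremePoints K1) hq⟩)) h2)
        c2.isClosed
    obtain ⟨a, ha⟩ := i1
    exact disjoint_left.1 hd ha (interior_mono h3 ha)
  · exact (key.subset ⟨y1, inter_sub_frontier h1 i1 hd.symm z2 z1, h y1⟩).elim

end Pool.Agent.P.MP_a07190_gt.Wk

end
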