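import Pool.Agent.P.MP_a07190_gt.Wk.BA
import Pool.Agent.P.MP_a07190_gt.Wk.BB

open scoped Manifold ContDiff RealInnerProductSpace Topology
open Set MeasureTheory Filter

namespace Pool.Agent.P.MP_a07190_gt.Wk

theorem near (hHF : S_HF) (hREC : S_REC) (hDEG : S_DEG) (hGOOD : S_GOOD) (hNU : S_NU)
    (hSML : S_SML) (hLOC : S_LOC) {K Γ : Set E2} (hK : IsCompact K) (hc : IsPreconnected Kᶜ)
    (hΓ : Γ ⊆ K) (hne : Γ.Nonempty) {O : Set E3} (hO : IsOpen O) (hKO : toP '' K ⊆ O) :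
    SmallVol Γ fun S => S ⊆ O := by
  by_cases h0 : μH[1] Γ ≠ ⊤ ∧ ∃ i j x1 x2 y1 y2 y3 y4, Rect Γ i j x1 x2 y1 y2 y3 y4
  swap
  · exact ⟨1, one_pos, fun M _ _ _ _ _ _ _ f N H h hb _ =>
      absurd ⟨hHF M f h.c1 Γ hb, hREC M f h.c1 Γ hb hne⟩ h0⟩
  obtain ⟨hL, i, j, x1, x2, y1, y2, y3, y4, hr⟩ := h0
  obtain ⟨g, Kg, hg, hdeg⟩ := hDEG Γ i j x1 x2 y1 y2 y3 y4 hr hL
  obtain ⟨R, hR, hRK⟩ := hK.isBounded.subset_ball_lt 0 0
  obtain ⟨ε, hε, hloc⟩ := hLOC K (R * (2 * (μH[1] Γ).toReal) + 1) O hK hc hO hKO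
  obtain ⟨V0, hV0, hs⟩ := hSML R (2 * (μH[1] Γ).toReal) Kg ε hR.le (by positivity) hε
  refine ⟨V0, hV0, fun M _ _ _ _ _ _ _ f N H h hb hV => ?_⟩
  have hG := hGOOD M f N H h Γ hb hL
  obtain ⟨hB, hI, hD⟩ := hNU M f N H h
  have hv : volN (nu f N) = algVol f N := by
    rw [volN, algVol, (hI (fun z => ⟪z.1, z.2⟫) (by fun_prop)).2]
  have hS := hs Γ g H (nu f N) (fun q hq => (mem_ball_zero_iff.1 (hRK (hΓ hq))).le) hg hG
    (hdeg M f N H h hb) (by rwa [hv])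
  rintro _ ⟨m, rfl⟩
  by_cases hm : m ∈ Inn M
  · by_contra hn
    exact hloc H _ hB (hG.fz hΓ) hS _ hn (hD m hm)
  · exact hKO (image_mono hΓ (hb.mapsTo (not_not.1 (mt int_iff_not_bdy.2 hm))))

theorem cont_toP : Continuous toP := by unfold toP; fun_prop

theorem apart (hA : ∀ {K Γ : Set E2}, IsCompact K → IsPreconnected Kᶜ → Γ ⊆ K → Γ.Nonempty →
      ∀ {O : Set E3}, IsOpen O → toP '' K ⊆ O → SmallVol Γ fun S => S ⊆ O)
    {K1 K2 Γ : Set E2} (c1 : IsCompact K1) (c2 : IsCompact K2) (hd : Disjoint K1 K2)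
    (hc : IsPreconnected (K1 ∪ K2)ᶜ) (hΓ : Γ ⊆ K1 ∪ K2) (n1 : (Γ ∩ K1).Nonempty)
    (n2 : (Γ ∩ K2).Nonempty) : SmallVol Γ fun S => ¬IsPreconnected S := by
  have hinj : Function.Injective toP := fun p q e => by rw [← prj_toP p, e, prj_toP]
  obtain ⟨O1, O2, o1, o2, s1, s2, hO⟩ := SeparatedNhds.of_isCompact_isCompact
    (c1.image cont_toP) (c2.image cont_toP) ((disjoint_image_iff hinj).2 hd)
  obtain ⟨V0, hV0, h⟩ := hA (c1.union c2) hc hΓ (n1.mono inter_subset_left) (o1.union o2)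
    (by rw [image_union]; exact union_subset_union s1 s2)
  refine ⟨V0, hV0, fun M _ _ _ _ _ _ _ f N H hf hb hV hp => ?_⟩
  have key : ∀ {K : Set E2} {O : Set E3}, (Γ ∩ K).Nonempty → toP '' K ⊆ O →
      (range f ∩ O).Nonempty := fun ⟨q, hq⟩ hs => by
    obtain ⟨m, -, e⟩ := hb.surjOn ⟨q, hq.1, rfl⟩
    exact ⟨f m, mem_range_self m, hs ⟨q, hq.2, e.symm⟩⟩
  obtain ⟨z, hz⟩ := hp O1 O2 o1 o2 (h M f N H hf hb hV) (key n1 s1) (key n2 s2)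
  exact disjoint_left.1 hO hz.2.1 hz.2.2

theorem convex (hCVX : S_CVX) (hTCH : S_TCH)
    (hB : ∀ {K1 K2 Γ : Set E2}, IsCompact K1 → IsCompact K2 → Disjoint K1 K2 →
      IsPreconnected (K1 ∪ K2)ᶜ → Γ ⊆ K1 ∪ K2 → (Γ ∩ K1).Nonempty → (Γ ∩ K2).Nonempty →
      SmallVol Γ fun S => ¬IsPreconnected S)
    {K1 K2 : Set E2} (h1 : Convex ℝ K1) (c1 : IsCompact K1) (i1 : (interior K1).Nonempty)
    (h2 : Convex ℝ K2) (c2 : IsCompact K2) (i2 : (interior K2).Nonempty)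
    (hd : Disjoint (interior K1) (interior K2)) :
    SmallVol (frontier K1 ∪ frontier K2) fun S => ¬IsPreconnected S := by
  by_cases hdis : Disjoint K1 K2
  swap
  · exact ⟨1, one_pos, fun M _ _ _ _ _ _ _ f N H h hb _ =>
      absurd (hTCH M f h.c1.continuous K1 K2 h1 c1 i1 h2 c2 i2 hd hb) hdis⟩
  have f1 := c1.isClosed.frontier_subset
  have f2 := c2.isClosed.frontier_subset
  obtain ⟨p, hp⟩ := nonempty_frontier_iff.2 ⟨i1.mono interior_subset, c1.ne_univ⟩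
  obtain ⟨q, hq⟩ := nonempty_frontier_iff.2 ⟨i2.mono interior_subset, c2.ne_univ⟩
  exact hB c1 c2 hdis (hCVX K1 K2 h1 c1 h2 c2 hdis) (union_subset_union f1 f2)
    ⟨p, Or.inl hp, f1 hp⟩ ⟨q, Or.inr hq, f2 hq⟩

theorem t_INT : S_INT := p_INT p_NUL
theorem t_SCH : S_SCH := p_SCH p_GRN t_INT
theorem t_SB : S_SB := p_SB p_LIM t_SCH
theorem t_STK : S_STK := p_STK p_NUL p_SGN t_SCH t_SB p_TV
theorem t_NU : S_NU := p_NU p_NUL
theorem t_GOOD : S_GOOD := p_GOOD p_NUL p_CRL t_STK t_NU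
theorem t_DEG : S_DEG := p_DEG p_SGN t_SB t_STK p_CRL t_NU t_GOOD p_NUL
theorem t_SML : S_SML := p_SML p_EST
theorem t_LOC : S_LOC := p_LOC (p_SLAB p_BMP) (p_CLO (p_SLAB p_BMP) (p_MOVE p_BMP)) p_MONO

/-- Small volume surfaces stay near the filled region. -/
theorem near_all {K Γ : Set E2} (hK : IsCompact K) (hc : IsPreconnected Kᶜ)
    (hΓ : Γ ⊆ K) (hne : Γ.Nonempty) {O : Set E3} (hO : IsOpen O) (hKO : toP '' K ⊆ O) :
    SmallVol Γ fun S => S ⊆ O :=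
  near p_HF p_REC t_DEG t_GOOD t_NU t_SML t_LOC hK hc hΓ hne hO hKO

theorem apart_all {K1 K2 Γ : Set E2} (c1 : IsCompact K1) (c2 : IsCompact K2) (hd : Disjoint K1 K2)
    (hc : IsPreconnected (K1 ∪ K2)ᶜ) (hΓ : Γ ⊆ K1 ∪ K2) (n1 : (Γ ∩ K1).Nonempty)
    (n2 : (Γ ∩ K2).Nonempty) : SmallVol Γ fun S => ¬IsPreconnected S :=
  apart (fun a b c d _ e g => near_all a b c d e g) c1 c2 hd hc hΓ n1 n2

theorem convex_all {K1 K2 : Set E2} (h1 : Convex ℝ K1) (c1 : IsCompact K1)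
    (i1 : (interior K1).Nonempty) (h2 : Convex ℝ K2) (c2 : IsCompact K2)
    (i2 : (interior K2).Nonempty) (hd : Disjoint (interior K1) (interior K2)) :
    SmallVol (frontier K1 ∪ frontier K2) fun S => ¬IsPreconnected S :=
  convex p_CVX p_TCH apart_all h1 c1 i1 h2 c2 i2 hd

end Pool.Agent.P.MP_a07190_gt.Wk
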