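import Pool.Agent.P.MP_a07190_gt.Wk.Iface

section

/-!
Green's formula on the open half plane as a limit of line integrals.
-/

open scoped Manifold ContDiff RealInnerProductSpace Topology
open Set MeasureTheory Filter

namespace Pool.Agent.P.MP_a07190_gt.Wk

namespace GrnA

theorem meas (s : ℝ) : MeasurableSet {y : E2 | s ≤ y 0} :=
  (isClosed_le continuous_const (by fun_prop)).measurableSet

theorem meas0 : MeasurableSet {y : E2 | 0 < y 0} :=
  (isOpen_lt continuous_const (by fun_prop)).measurableSet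

theorem shift (D : E2 → ℝ) (s : ℝ) :
    ∫ y in {y : E2 | 0 ≤ y 0}, D (y + pt (s, 0)) = ∫ y, {y : E2 | s ≤ y 0}.indicator D y := by
  rw [← integral_indicator (meas 0),
    ← integral_add_right_eq_self ({y : E2 | s ≤ y 0}.indicator D) (pt (s, 0))]
  refine integral_congr_ae (Eventually.of_forall fun y => ?_)
  simp [indicator_apply]

theorem slice {P Q D : E2 → ℝ} {R : ℝ} (hR : 0 < R)
    (h : ∀ y : E2, 0 < y 0 → DifferentiableAt ℝ P y ∧ DifferentiableAt ℝ Q y ∧
      D y = fderiv ℝ Q y (ev 0) - fderiv ℝ P y (ev 1))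
    (hD : ContinuousOn D {y | 0 < y 0})
    (h0 : ∀ y : E2, 0 < y 0 → R ≤ ‖y‖ → P y = 0 ∧ Q y = 0 ∧ D y = 0) {s : ℝ} (hs : 0 < s) :
    -∫ v, Q (pt (s, v)) = ∫ y, {y : E2 | s ≤ y 0}.indicator D y := by
  have hp : ∀ y : E2, 0 ≤ y 0 → 0 < (y + pt (s, 0)) 0 := fun y hy => by
    simp only [PiLp.add_apply, pt_0]; linarith
  have hc : ∀ y : E2, ContinuousAt (fun y : E2 => y + pt (s, 0)) y := fun y => by fun_prop
  have key := green (fun y => P (y + pt (s, 0))) (fun y => Q (y + pt (s, 0)))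
    (fun y => D (y + pt (s, 0))) (fun y => fderiv ℝ P (y + pt (s, 0)))
    (fun y => fderiv ℝ Q (y + pt (s, 0))) (R := R + ‖pt (s, 0)‖) (by positivity)
    (fun y hy => ((h _ (hp y hy)).1.continuousAt.comp_of_eq (hc y) rfl).continuousWithinAt)
    (fun y hy => ((h _ (hp y hy)).2.1.continuousAt.comp_of_eq (hc y) rfl).continuousWithinAt)
    (hD.comp (by fun_prop) fun y hy => hp y hy)
    (fun y hy => (hasFDerivAt_comp_add_right _).2 (h _ (hp y hy.le)).1.hasFDerivAt)
    (fun y hy => (hasFDerivAt_comp_add_right _).2 (h _ (hp y hy.le)).2.1.hasFDerivAt)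
    (fun y hy => (h _ (hp y hy.le)).2.2)
    (fun y hy hn => h0 _ (hp y hy) (by linarith [norm_le_add_norm_add y (pt (s, 0))]))
  rw [← shift, key]
  simp only [← map_add, Prod.mk_add_mk, zero_add, add_zero]

end GrnA

open GrnA

theorem p_GRN : S_GRN := by
  intro P Q D R hR h hD hI h0
  have hI' := (integrable_indicator_iff meas0).2 hI
  have hsub : ∀ s : ℝ, 0 < s → {y : E2 | s ≤ y 0} ⊆ {y : E2 | 0 < y 0} :=
    fun s hs y hy => hs.trans_le hy
  rw [← integral_indicator meas0]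
  refine Tendsto.congr' (f₁ := fun s : ℝ => ∫ y, {y : E2 | s ≤ y 0}.indicator D y) ?_ ?_
  · filter_upwards [self_mem_nhdsWithin] with s hs using (slice hR h hD h0 hs).symm
  refine tendsto_integral_filter_of_dominated_convergence
    (fun y => ‖{y : E2 | 0 < y 0}.indicator D y‖) ?_ ?_ hI'.norm (Eventually.of_forall fun y => ?_)
  · filter_upwards [self_mem_nhdsWithin] with s hs
    exact ((integrable_indicator_iff (meas s)).2
      (hI.mono_set (hsub s hs))).aestronglyMeasurable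
  · filter_upwards [self_mem_nhdsWithin] with s hs
    exact Eventually.of_forall fun y => norm_indicator_le_of_subset (hsub s hs) _ _
  · refine tendsto_const_nhds.congr' ?_
    by_cases hy : 0 < y 0
    · filter_upwards [Ioo_mem_nhdsGT hy] with s hs
      rw [indicator_of_mem (show y ∈ {y : E2 | 0 < y 0} from hy),
        indicator_of_mem (show y ∈ {y : E2 | s ≤ y 0} from hs.2.le)]
    · filter_upwards [self_mem_nhdsWithin] with s hs
      rw [indicator_of_notMem (show y ∉ {y : E2 | 0 < y 0} from hy),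
        indicator_of_notMem (show y ∉ {y : E2 | s ≤ y 0} from fun h => hy (hsub s hs h))]

theorem p_LIM : S_LIM := by
  intro b R hb h0
  have hK : IsCompact (Metric.closedBall (0 : E2) R ∩ {y : E2 | 0 ≤ y 0}) :=
    (isCompact_closedBall (0 : E2) R).inter_right (isClosed_le continuous_const (by fun_prop))
  obtain ⟨C, hC⟩ := hK.exists_bound_of_continuousOn (hb.mono inter_subset_right)
  have hc : ∀ s : ℝ, 0 ≤ s → Continuous fun v => b (pt (s, v)) := fun s hs =>
    hb.comp_continuous (by fun_prop) fun v => by simpa using hs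
  have hI : Integrable ((Icc (-R) R).indicator fun _ : ℝ => |C|) :=
    (integrable_indicator_iff measurableSet_Icc).2 (integrableOn_const (by simp))
  have hB : ∀ s : ℝ, 0 ≤ s → ∀ v, ‖b (pt (s, v))‖ ≤ (Icc (-R) R).indicator (fun _ : ℝ => |C|) v := by
    intro s hs v
    have h1 : 0 ≤ pt (s, v) 0 := by simpa using hs
    by_cases h2 : R ≤ ‖pt (s, v)‖
    · rw [h0 _ h1 h2, norm_zero]
      exact indicator_nonneg (fun _ _ => abs_nonneg C) v
    · have h3 := abs_le_norm2 (pt (s, v)) 1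
      rw [pt_1] at h3
      rw [indicator_of_mem (show v ∈ Icc (-R) R from abs_le.1 (h3.trans (not_le.1 h2).le))]
      exact (hC _ ⟨by simpa using (not_le.1 h2).le, h1⟩).trans (le_abs_self C)
  refine ⟨fun s hs => hI.mono' (hc s hs).aestronglyMeasurable (Eventually.of_forall (hB s hs)),
    tendsto_integral_filter_of_dominated_convergence _ ?_ ?_ hI (Eventually.of_forall fun v => ?_)⟩
  · filter_upwards [self_mem_nhdsWithin] with s hs using (hc s (le_of_lt hs)).aestronglyMeasurable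
  · filter_upwards [self_mem_nhdsWithin] with s hs using Eventually.of_forall (hB s (le_of_lt hs))
  · have h1 : ContinuousOn (fun s : ℝ => b (pt (s, v))) (Ici 0) :=
      hb.comp (by fun_prop) fun s hs => by simpa using hs
    exact (h1 0 self_mem_Ici).tendsto.mono_left (nhdsWithin_mono _ Ioi_subset_Ici_self)

end Pool.Agent.P.MP_a07190_gt.Wk

end

section

/-! The boundary is null, and integrals in a chart. -/

open scoped Manifold ContDiff RealInnerProductSpace Topology
open Set MeasureTheory Filter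

namespace Pool.Agent.P.MP_a07190_gt.Wk

namespace IntA

theorem line_null : volume {y : E2 | y 0 = 0} = 0 := by
  refine Measure.addHaar_submodule volume
    (LinearMap.ker (EuclideanSpace.proj (𝕜 := ℝ) (0 : Fin 2) : E2 →L[ℝ] ℝ).toLinearMap) fun h => ?_
  have : ev 0 ∈ LinearMap.ker (EuclideanSpace.proj (𝕜 := ℝ) (0 : Fin 2) : E2 →L[ℝ] ℝ).toLinearMap :=
    h ▸ Submodule.mem_top
  simp [ev] at this

theorem tgt_ae {M : Type*} [TopologicalSpace M] [ChartedSpace (EuclideanHalfSpace 2) M] (x : M) :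
    (ch x).target =ᵐ[volume] Tp x := by
  filter_upwards [measure_eq_zero_iff_ae_notMem.1 line_null] with y hy
  exact propext ⟨fun h => ⟨h, lt_of_le_of_ne (tgt_nonneg h) (Ne.symm hy)⟩, fun h => h.1⟩

end IntA

theorem p_NUL : S_NUL := by
  intro M _ _ _ _ _ _ _ f hf
  refine isClosed_Bdy.isCompact.measure_zero_of_nhdsWithin fun x _ =>
    ⟨Bdy M ∩ (ch x).source, inter_mem_nhdsWithin _ (extChartAt_source_mem_nhds x), ?_⟩
  rw [area_apply hf x (isClosed_Bdy.measurableSet.inter (measurableSet_src x)) inter_subset_right]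
  exact setLIntegral_measure_zero _ _
    (measure_mono_null (fun y hy => (bdry_iff hy.2).1 hy.1.1) IntA.line_null)

theorem p_INT (hNUL : S_NUL) : S_INT := by
  intro M _ _ _ _ _ _ _ f hf x g hg h0 hi
  have a1 : ∀ᵐ m ∂(area f), m ∈ Inn M := by
    filter_upwards [measure_eq_zero_iff_ae_notMem.1 (hNUL M f hf)] with m hm
    exact int_iff_not_bdy.2 hm
  have a2 : AEStronglyMeasurable g (area f) := by
    rw [← Measure.restrict_eq_self_of_ae_mem a1]
    exact hg.aestronglyMeasurable isOpen_Inn.measurableSet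
  have a3 : ∀ᵐ m ∂(area f), m ∉ (ch x).source → g m = 0 := a1.mono fun m hm => h0 m hm
  have a4 : AEStronglyMeasurable g (chartArea f x) := area_restrict hf x ▸ a2.restrict
  have a5 : AEMeasurable (fun y => ENNReal.ofReal (jac (chartDif f x y)))
      (volume.restrict (ch x).target) :=
    ((continuousOn_jac hf x).aemeasurable (measurableSet_tgt x)).ennreal_ofReal
  have a6 : ∀ᵐ y ∂(volume.restrict (ch x).target), ENNReal.ofReal (jac (chartDif f x y)) < ⊤ :=
    Eventually.of_forall fun y => ENNReal.ofReal_lt_top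
  constructor
  · have : IntegrableOn g (ch x).source (area f) := by
      rw [IntegrableOn, area_restrict hf x]
      refine (integrable_map_measure a4 (aemeas_symm x _)).2 ?_
      rw [integrable_withDensity_iff_integrable_smul₀' a5 a6, Measure.restrict_congr_set
        (IntA.tgt_ae x)]
      exact hi.congr (Eventually.of_forall fun y => by simp [jac_nonneg])
    refine ((integrable_indicator_iff (measurableSet_src x)).2 this).congr (a3.mono fun m hm => ?_)
    by_cases k : m ∈ (ch x).source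
    · exact indicator_of_mem k g
    · rw [indicator_of_notMem k, hm k]
  · rw [← setIntegral_eq_integral_of_ae_compl_eq_zero a3, area_restrict hf x, chartArea,
      integral_map (aemeas_symm x _) a4, integral_withDensity_eq_integral_toReal_smul₀ a5 a6,
      Measure.restrict_congr_set (IntA.tgt_ae x)]
    exact integral_congr_ae (Eventually.of_forall fun y => by simp [jac_nonneg])

end Pool.Agent.P.MP_a07190_gt.Wk

end

section

open scoped Manifold ContDiff RealInnerProductSpace Topology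
open Set MeasureTheory Filter

namespace Pool.Agent.P.MP_a07190_gt.Wk

namespace SgnA

theorem const_sign {X : Type*} [TopologicalSpace X] {s : Set X} (hs : IsPreconnected s) {d : X → ℝ}
    (hc : ContinuousOn d s) (h0 : ∀ y ∈ s, d y ≠ 0) :
    ∃ ε : ℝ, |ε| = 1 ∧ ∀ y ∈ s, |d y| = ε * d y := by
  by_cases h : ∀ y ∈ s, 0 < d y
  · exact ⟨1, abs_one, fun y hy => by rw [abs_of_pos (h y hy), one_mul]⟩
  push Not at h
  obtain ⟨z, hz, hz0⟩ := h
  refine ⟨-1, by simp, fun y hy => ?_⟩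
  rw [neg_one_mul]
  refine abs_of_nonpos (not_lt.1 fun hp => ?_)
  obtain ⟨w, hw, e⟩ := hs.intermediate_value hz hy hc ⟨hz0, hp.le⟩
  exact h0 w hw e

end SgnA

theorem p_SGN : S_SGN := by
  intro M _ _ _ f N H h x
  obtain ⟨δ, hδ, hb⟩ := Metric.mem_nhdsWithin_iff.1 (tgt_mem (mem_extChartAt_target (I := 𝓡∂ 2) x))
  have hs : Metric.ball (ch x x) δ ∩ {y : E2 | 0 < y 0} ⊆ Tp x := fun y hy =>
    ⟨hb ⟨hy.1, by rw [range_I]; exact le_of_lt (a := (0 : ℝ)) hy.2⟩, hy.2⟩
  have hv : Convex ℝ (Metric.ball (ch x x) δ ∩ {y : E2 | 0 < y 0}) :=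
    (convex_ball _ _).inter (convex_halfSpace_gt
      (EuclideanSpace.proj (0 : Fin 2) : E2 →L[ℝ] ℝ).toLinearMap.isLinear 0)
  have c1 := (continuousOn_chartDif h.c1 x).mono fun y (hy : y ∈ Tp x) => hy.1
  have c2 : ContinuousOn (fun y => N ((ch x).symm y)) (Tp x) :=
    (contDiffOn_Tp1 h.normal_c1 x).continuousOn
  have hc : ContinuousOn (fun y => den (chartDif f x y) (N ((ch x).symm y))) (Tp x) := by
    have a0 := c1.clm_apply (continuousOn_const (c := ev 0))
    have a1 := c1.clm_apply (continuousOn_const (c := ev 1))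
    have k : Continuous fun z : E3 × E3 × E3 => det3 z.1 z.2.1 z.2.2 := by
      unfold det3
      fun_prop
    exact k.comp_continuousOn (a0.prodMk (a1.prodMk c2))
  obtain ⟨ε, hε, he⟩ := SgnA.const_sign hv.isPreconnected (hc.mono hs) fun y hy =>
    den_ne_zero (h.inj_ch (hs hy)) (h.unit _ (symm_mem (hs hy))) (h.perp_ch (hs hy))
  refine ⟨(ch x).source ∩ ch x ⁻¹' Metric.ball (ch x x) δ, ε,
    ⟨mem_extChartAt_source x, Metric.mem_ball_self hδ⟩,
    (continuousOn_extChartAt x).isOpen_inter_preimage (isOpen_extChartAt_source x)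
      Metric.isOpen_ball, inter_subset_left, hε, fun y hy hm => ?_⟩
  have h2 : ch x ((ch x).symm y) ∈ Metric.ball (ch x x) δ := hm.2
  rw [(ch x).right_inv hy.1] at h2
  rw [← abs_den (h.unit _ (symm_mem hy)) (h.perp_ch hy)]
  exact he y ⟨h2, hy.2⟩

end Pool.Agent.P.MP_a07190_gt.Wk

end

section

open scoped Manifold ContDiff RealInnerProductSpace Topology
open Set MeasureTheory Filter

namespace Pool.Agent.P.MP_a07190_gt.Wk

namespace CrlA

variable {M : Type*} [TopologicalSpace M] [ChartedSpace (EuclideanHalfSpace 2) M]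
  [IsManifold (𝓡∂ 2) ∞ M] {f N : M → E3} {H : ℝ} {φ : E3 → ℝ} {m : M}

theorem perp_dN (h : IsCMCw f N H) (hm : m ∈ Inn M) (v : E2) : ⟪N m, dif N m v⟫ = 0 := by
  have h1 := hasFD_int h.normal_c1 hm
  have h3 : (fun _ => (1 : ℝ)) =ᶠ[𝓝 (ch m m)]
      fun t => ⟪(N ∘ (ch m).symm) t, (N ∘ (ch m).symm) t⟫ := by
    filter_upwards [(isOpen_Tp m).mem_nhds (mem_Tp (mem_extChartAt_source m) hm)] with t ht
    rw [real_inner_self_eq_norm_sq, Function.comp_apply, h.unit _ (symm_mem ht), one_pow]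
  have h4 := ((h1.inner ℝ h1).congr_of_eventuallyEq h3).unique (hasFDerivAt_const _ _)
  have h5 := congrArg (fun L : E2 →L[ℝ] ℝ => L v) h4
  simp only [ContinuousLinearMap.comp_apply, ContinuousLinearMap.prod_apply, fderivInnerCLM_apply,
    Function.comp_apply, extChartAt_to_inv, zero_apply] at h5
  rw [real_inner_comm (N m)] at h5
  linarith

theorem hasFD_phi (h : IsCMCw f N H) (hφ : ContDiff ℝ 1 φ) (hm : m ∈ Inn M) :
    HasFDerivAt (fun y => φ (f ((ch m).symm y))) ((fderiv ℝ φ (f m)).comp (dif f m)) (ch m m) := by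
  have h2 : HasFDerivAt φ (fderiv ℝ φ (f m)) ((f ∘ (ch m).symm) (ch m m)) := by
    rw [Function.comp_apply, extChartAt_to_inv]
    exact (hφ.differentiable one_ne_zero _).hasFDerivAt
  exact h2.comp _ (hasFD_int (ContMDiff.contMDiffOn h.c1) hm)

theorem norm_cross (v : E3) {n : E3} (hn : ‖n‖ = 1) : ‖crossR v n‖ ≤ ‖v‖ := by
  refine (sq_le_sq₀ (norm_nonneg _) (norm_nonneg _)).1 ?_
  rw [norm_sq3, ← mul_one (‖v‖ ^ 2), norm_sq3, ← unit3 hn, crossR_0, crossR_1, crossR_2]
  nlinarith [sq_nonneg (v 0 * n 0 + v 1 * n 1 + v 2 * n 2)]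

omit [IsManifold (𝓡∂ 2) ∞ M] in
theorem fld [CompactSpace M] (h : IsCMCw f N H) (hφ : ContDiff ℝ 1 φ) {W : M → E3} {v : E3}
    {F : E3 × E3 → ℝ} (hF : Continuous F) (hW : ContMDiffOn (𝓡∂ 2) 𝓘(ℝ, E3) 1 W (Inn M))
    (h1 : ∀ m ∈ Inn M, curlM f N W m = F (f m, N m) ∧ ‖W m‖ ≤ |φ (f m)| * ‖v‖) : Fld f N W := by
  have hc := (isCompact_range (ContMDiff.continuous h.c1)).prod (isCompact_closedBall (0 : E3) 1)
  have hp := hφ.continuous
  obtain ⟨C, hC⟩ := hc.exists_bound_of_continuousOn (f := fun z => |φ z.1| * ‖v‖ + |F z|)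
    (by fun_prop)
  refine ⟨hW, C, fun m hm => ?_⟩
  have h2 := (le_abs_self _).trans
    (hC (f m, N m) ⟨mem_range_self m, by simpa using (h.unit m hm).le⟩)
  have h3 := h1 m hm
  rw [h3.1]
  dsimp only at h2
  constructor <;> linarith [h3.2, abs_nonneg (F (f m, N m)), norm_nonneg (W m)]

end CrlA

theorem p_CRL : S_CRL := by
  intro M _ _ _ _ f N H h φ hφ v
  have s0 : ContMDiffOn (𝓡∂ 2) 𝓘(ℝ, ℝ) 1 (fun m => φ (f m)) (Inn M) :=
    (hφ.contMDiff.comp h.c1).contMDiffOn
  have s1 : ContMDiffOn (𝓡∂ 2) 𝓘(ℝ, E3) 1 (fun m => φ (f m) • crossR v (N m)) (Inn M) :=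
    s0.smul ((crossR v).contDiff.contMDiff.comp_contMDiffOn h.normal_c1)
  have s2 : ContMDiffOn (𝓡∂ 2) 𝓘(ℝ, E3) 1 (fun m => φ (f m) • v) (Inn M) :=
    s0.smul contMDiffOn_const
  have k1 : ∀ m ∈ Inn M, curlM f N (fun m => φ (f m) • crossR v (N m)) m = fvd H φ v (f m, N m) ∧
      ‖φ (f m) • crossR v (N m)‖ ≤ |φ (f m)| * ‖v‖ := fun m hm => by
    refine ⟨alg_fv _ (h.immersion m hm) (h.unit m hm) (h.perp m hm) (CrlA.perp_dN h hm)
      (h.cmc m hm) fun u => ?_, ?_⟩
    · have h1 := (crossR v).hasFDerivAt.comp _ (hasFD_int h.normal_c1 hm)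
      rw [(hasFD_int s1 hm).unique ((CrlA.hasFD_phi h hφ hm).smul h1)]
      simp only [Function.comp_apply, extChartAt_to_inv]
      simp [add_comm]
    · rw [norm_smul, Real.norm_eq_abs]
      exact mul_le_mul_of_nonneg_left (CrlA.norm_cross v (h.unit m hm)) (abs_nonneg _)
  have k2 : ∀ m ∈ Inn M, curlM f N (fun m => φ (f m) • v) m = std φ v (f m, N m) := fun m hm => by
    refine alg_st _ (h.immersion m hm) (h.unit m hm) (h.perp m hm) fun u => ?_
    rw [(hasFD_int s2 hm).unique ((CrlA.hasFD_phi h hφ hm).smul_const v)]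
    simp
  exact ⟨⟨CrlA.fld h hφ (continuous_fvd H hφ v) s1 k1, k1⟩, CrlA.fld h hφ (continuous_std hφ v) s2
    fun m hm => ⟨k2 m hm, (norm_smul _ _).le⟩, k2⟩

end Pool.Agent.P.MP_a07190_gt.Wk

end

section

/-! Stokes formula in one chart, with weak boundary regularity. -/

open scoped Manifold ContDiff RealInnerProductSpace Topology
open Set MeasureTheory Filter

namespace Pool.Agent.P.MP_a07190_gt.Wk

namespace SchA

variable {M : Type*} [TopologicalSpace M] [ChartedSpace (EuclideanHalfSpace 2) M]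
  [IsManifold (𝓡∂ 2) ∞ M] {f N W w : M → E3} {H : ℝ} {ρ : M → ℝ} {x : M} {y : E2}

theorem deriv_Tp (h : IsCMCw f N H) (hw : ContMDiffOn (𝓡∂ 2) 𝓘(ℝ, E3) 1 w (Inn M))
    (hy : y ∈ Tp x) : ∃ S : E2 →L[ℝ] E2 →L[ℝ] E3, (∀ u v, S u v = S v u) ∧ ∀ a : E2,
      ∃ L : E2 →L[ℝ] ℝ, HasFDerivAt ((ch x).target.indicator
        fun z => ⟪w ((ch x).symm z), chartDif f x z a⟫) L y ∧
        ∀ u, L u = ⟪w ((ch x).symm y), S u a⟫ + ⟪chartDif w x y u, chartDif f x y a⟫ := by
  have hT := (isOpen_Tp x).mem_nhds hy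
  have hF : ContDiffAt ℝ 2 (f ∘ (ch x).symm) y := (contDiffOn_Tp2 h.c2 x).contDiffAt hT
  have hsym := hF.isSymmSndFDerivAt (by simp)
  have hF' : DifferentiableAt ℝ (fderiv ℝ (f ∘ (ch x).symm)) y :=
    (hF.fderiv_right (m := 1) le_rfl).differentiableAt one_ne_zero
  have hev : ∀ᶠ z in 𝓝 y, chartDif f x z = fderiv ℝ (f ∘ (ch x).symm) z := by
    filter_upwards [hT] with z hz
    exact fderivWithin_of_mem_nhds (range_mem_nhds hz.2)
  refine ⟨fderiv ℝ (fderiv ℝ (f ∘ (ch x).symm)) y, fun u v => hsym.eq u v, fun a => ?_⟩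
  have h1 := (hasFD_Tp' hw hy).inner ℝ (hF'.hasFDerivAt.clm_apply (hasFDerivAt_const a y))
  refine ⟨_, h1.congr_of_eventuallyEq ?_, fun u => ?_⟩
  · filter_upwards [hT, hev] with z hz hz'
    rw [indicator_of_mem hz.1, hz']; rfl
  · simp [hev.self_of_nhds]

theorem cont_num (h : IsCMCw f N H) (hw : ContMDiffOn (𝓡∂ 2) 𝓘(ℝ, E3) 1 w (Inn M)) (x : M) :
    ContinuousOn (fun y => num (chartDif w x y) (chartDif f x y)) (Tp x) := by
  have h1 : ContinuousOn (chartDif f x) (Tp x) :=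
    (continuousOn_chartDif h.c1 x).mono fun _ hy => hy.1
  have h2 := continuousOn_chartDif_Tp hw x
  unfold num
  exact ((h2.clm_apply continuousOn_const).inner (h1.clm_apply continuousOn_const)).sub
    ((h2.clm_apply continuousOn_const).inner (h1.clm_apply continuousOn_const))

theorem cont_den (h : IsCMCw f N H) (x : M) :
    ContinuousOn (fun y => den (chartDif f x y) (N ((ch x).symm y))) (Tp x) := by
  have h1 : ContinuousOn (chartDif f x) (Tp x) :=
    (continuousOn_chartDif h.c1 x).mono fun _ hy => hy.1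
  have h2 := (contDiffOn_Tp1 h.normal_c1 x).continuousOn
  have h3 : Continuous fun z : E3 × E3 × E3 => det3 z.1 z.2.1 z.2.2 := by
    unfold det3; fun_prop
  exact h3.comp_continuousOn ((h1.clm_apply continuousOn_const).prodMk
    ((h1.clm_apply continuousOn_const).prodMk h2))

theorem den_ne (h : IsCMCw f N H) (hy : y ∈ Tp x) :
    den (chartDif f x y) (N ((ch x).symm y)) ≠ 0 :=
  den_ne_zero (h.inj_ch hy) (h.unit _ (symm_mem hy)) (h.perp_ch hy)

theorem cont_curl (h : IsCMCw f N H) (hw : ContMDiffOn (𝓡∂ 2) 𝓘(ℝ, E3) 1 w (Inn M)) :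
    ContinuousOn (curlM f N w) (Inn M) :=
  continuousOn_of_Tp fun x => ((cont_num h hw x).div (cont_den h x) fun _ hy => den_ne h hy).congr
    fun _ hy => curlM_Tp h.c1 hw hy

/-- derivative of the cut-off in the chart -/
noncomputable def dr (ρ : M → ℝ) (x : M) (y : E2) : E2 →L[ℝ] ℝ :=
  fderivWithin ℝ (ρ ∘ (ch x).symm) (ch x).target y

/-- the continuous majorant -/
noncomputable def maj (f : M → E3) (ρ : M → ℝ) (x : M) (y : E2) : ℝ :=
  |ρ ((ch x).symm y)| * jac (chartDif f x y) + |dr ρ x y (ev 0)| * ‖chartDif f x y (ev 1)‖ +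
    |dr ρ x y (ev 1)| * ‖chartDif f x y (ev 0)‖

theorem cont_maj (h : IsCMCw f N H) (hρ : ContMDiff (𝓡∂ 2) 𝓘(ℝ, ℝ) 1 ρ) (x : M) :
    ContinuousOn (maj f ρ x) (ch x).target := by
  have h1 := continuousOn_chartDif h.c1 x
  have h2 : ContinuousOn (dr ρ x) (ch x).target :=
    (contDiffOn_ch1 hρ x).continuousOn_fderivWithin (uniqueDiffOn_extChartAt_target x) le_rfl
  exact (((contDiffOn_ch1 hρ x).continuousOn.abs.mul (continuousOn_jac h.c1 x)).add
    ((h2.clm_apply continuousOn_const).abs.mul (h1.clm_apply continuousOn_const).norm)).add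
    ((h2.clm_apply continuousOn_const).abs.mul (h1.clm_apply continuousOn_const).norm)

theorem num_le (h : IsCMCw f N H) (hW : ContMDiffOn (𝓡∂ 2) 𝓘(ℝ, E3) 1 W (Inn M))
    (hρ : ContMDiff (𝓡∂ 2) 𝓘(ℝ, ℝ) 1 ρ) {C : ℝ}
    (hC : ∀ m ∈ Inn M, ‖W m‖ ≤ C ∧ |curlM f N W m| ≤ C) (hy : y ∈ Tp x) :
    |num (chartDif (fun m => ρ m • W m) x y) (chartDif f x y)| ≤ C * maj f ρ x y := by
  have h1 : HasFDerivAt (ρ ∘ (ch x).symm) (dr ρ x y) y :=
    ((contDiffOn_ch1 hρ x).differentiableOn one_ne_zero y hy.1).hasFDerivWithinAt.hasFDerivAt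
      (tgt_mem_nhds hy.1 hy.2)
  have h2 := (hasFD_Tp' (hρ.contMDiffOn.smul hW) hy).unique (h1.smul (hasFD_Tp' hW hy))
  obtain ⟨c1, c2⟩ := hC _ (symm_mem hy)
  have h3 : |num (chartDif W x y) (chartDif f x y)| ≤ C * jac (chartDif f x y) := by
    rw [curlM_Tp h.c1 hW hy, abs_div, div_le_iff₀ (abs_pos.2 (den_ne h hy)),
      abs_den (h.unit _ (symm_mem hy)) (h.perp_ch hy)] at c2
    exact c2
  have h4 : ∀ a : E2, |⟪W ((ch x).symm y), chartDif f x y a⟫| ≤ C * ‖chartDif f x y a‖ := fun a =>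
    (abs_real_inner_le_norm _ _).trans (mul_le_mul_of_nonneg_right c1 (norm_nonneg _))
  have e : num (chartDif (fun m => ρ m • W m) x y) (chartDif f x y) =
      ρ ((ch x).symm y) * num (chartDif W x y) (chartDif f x y) +
        dr ρ x y (ev 0) * ⟪W ((ch x).symm y), chartDif f x y (ev 1)⟫ -
        dr ρ x y (ev 1) * ⟪W ((ch x).symm y), chartDif f x y (ev 0)⟫ := by
    rw [show chartDif (fun m => ρ m • W m) x y = _ from h2]
    simp only [num, add_apply, smul_apply, ContinuousLinearMap.smulRight_apply, inner_add_left,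
      real_inner_smul_left, Function.comp_apply]
    ring
  rw [e]
  refine (abs_sub _ _).trans ((add_le_add_left (abs_add_le _ _) _).trans ?_)
  rw [abs_mul, abs_mul, abs_mul, maj]
  have a1 := mul_le_mul_of_nonneg_left h3 (abs_nonneg (ρ ((ch x).symm y)))
  have a2 := mul_le_mul_of_nonneg_left (h4 (ev 1)) (abs_nonneg (dr ρ x y (ev 0)))
  have a3 := mul_le_mul_of_nonneg_left (h4 (ev 0)) (abs_nonneg (dr ρ x y (ev 1)))
  linarith

end SchA

open SchA in
theorem p_SCH (hGRN : S_GRN) (hINT : S_INT) : S_SCH := by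
  intro M _ _ _ _ _ _ _ f N H h x U ε hS W ρ hW hρ hs
  obtain ⟨C, hC⟩ := hW.bdd
  have hb := fun y (hy : y ∈ Tp x) => num_le h hW.c1 hρ hC hy
  have hw : ContMDiffOn (𝓡∂ 2) 𝓘(ℝ, E3) 1 (fun m => ρ m • W m) (Inn M) :=
    hρ.contMDiffOn.smul hW.c1
  have hsw : tsupport (fun m => ρ m • W m) ⊆ tsupport ρ := tsupport_smul_subset_left _ _
  have hQ : Qf f W ρ x = (ch x).target.indicator
      fun z => ⟪(fun m => ρ m • W m) ((ch x).symm z), chartDif f x z (ev 1)⟫ := by
    funext z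
    simp only [Qf, real_inner_smul_left]
  rw [hQ]
  generalize (fun m => ρ m • W m) = w at hb hw hsw ⊢
  have hsS : tsupport ρ ⊆ (ch x).source := hs.trans hS.sub
  have hKc : IsCompact (ch x '' tsupport ρ) :=
    (isClosed_tsupport ρ).isCompact.image_of_continuousOn ((continuousOn_extChartAt x).mono hsS)
  have hKT : ch x '' tsupport ρ ⊆ (ch x).target := by
    rintro _ ⟨m, hm, rfl⟩; exact (ch x).map_source (hsS hm)
  have hout : ∀ y ∈ (ch x).target, y ∉ ch x '' tsupport ρ → (ch x).symm y ∉ tsupport ρ :=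
    fun y hy hK hm => hK ⟨_, hm, (ch x).right_inv hy⟩
  have hW0 : ∀ y ∈ (ch x).target, y ∉ ch x '' tsupport ρ → w ((ch x).symm y) = 0 :=
    fun y hy hK => image_eq_zero_of_notMem_tsupport fun hm => hout y hy hK (hsw hm)
  have hD0 : ∀ y ∈ Tp x, (ch x).symm y ∉ tsupport ρ →
      num (chartDif w x y) (chartDif f x y) = 0 := fun y hy hK => by
    rw [chartDif_Tp hw hy, dif_eq_zero fun hm => hK (hsw hm)]; simp [num]
  obtain ⟨R, hR, hRK⟩ := hKc.isBounded.subset_ball_lt 0 0
  have hTm : MeasurableSet (Tp x) := (isOpen_Tp x).measurableSet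
  have hint : IntegrableOn (fun y => num (chartDif w x y) (chartDif f x y)) (Tp x) := by
    have h1 : Integrable ((ch x '' tsupport ρ).indicator fun y => C * maj f ρ x y) :=
      (integrable_indicator_iff hKc.measurableSet).2
        ((((cont_maj h hρ x).mono hKT).integrableOn_compact hKc).const_mul C)
    refine h1.integrableOn.mono' ((cont_num h hw x).aestronglyMeasurable hTm)
      ((ae_restrict_iff' hTm).2 (Eventually.of_forall fun y hy => ?_))
    by_cases hK : y ∈ ch x '' tsupport ρ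
    · rw [indicator_of_mem hK]; exact hb y hy
    · rw [indicator_of_notMem hK, hD0 y hy (hout y hy.1 hK), norm_zero]
  have hzero : ∀ a : E2, ∀ y ∉ (ch x).target, HasFDerivAt ((ch x).target.indicator
      fun z => ⟪w ((ch x).symm z), chartDif f x z a⟫) (0 : E2 →L[ℝ] ℝ) y := fun a y hy => by
    refine (hasFDerivAt_const (0 : ℝ) y).congr_of_eventuallyEq ?_
    filter_upwards [hKc.isClosed.isOpen_compl.mem_nhds (fun hk => hy (hKT hk))] with z hz
    by_cases hz' : z ∈ (ch x).target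
    · rw [indicator_of_mem hz', hW0 z hz' hz, inner_zero_left]
    · exact indicator_of_notMem hz' _
  have hDK : ∀ y ∉ ch x '' tsupport ρ,
      (Tp x).indicator (fun y => num (chartDif w x y) (chartDif f x y)) y = 0 := fun y hK => by
    by_cases hy : y ∈ Tp x
    · rw [indicator_of_mem hy, hD0 y hy (hout y hy.1 hK)]
    · exact indicator_of_notMem hy _
  have key := hGRN ((ch x).target.indicator fun z => ⟪w ((ch x).symm z), chartDif f x z (ev 0)⟫)
    ((ch x).target.indicator fun z => ⟪w ((ch x).symm z), chartDif f x z (ev 1)⟫)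
    ((Tp x).indicator fun y => num (chartDif w x y) (chartDif f x y)) R hR
    (fun y h0 => by
      by_cases hy : y ∈ (ch x).target
      · obtain ⟨S, hsym, hS⟩ := deriv_Tp h hw (x := x) ⟨hy, h0⟩
        obtain ⟨L0, hL0, e0⟩ := hS (ev 0)
        obtain ⟨L1, hL1, e1⟩ := hS (ev 1)
        refine ⟨hL0.differentiableAt, hL1.differentiableAt, ?_⟩
        rw [hL0.fderiv, hL1.fderiv, e0, e1, indicator_of_mem (show y ∈ Tp x from ⟨hy, h0⟩),
          hsym (ev 0) (ev 1), num]
        ring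
      · refine ⟨(hzero _ y hy).differentiableAt, (hzero _ y hy).differentiableAt, ?_⟩
        rw [(hzero _ y hy).fderiv, (hzero _ y hy).fderiv, hDK y fun hk => hy (hKT hk)]; simp)
    (fun y h0 => by
      refine ContinuousAt.continuousWithinAt ?_
      by_cases hy : y ∈ (ch x).target
      · have hT := (isOpen_Tp x).mem_nhds (show y ∈ Tp x from ⟨hy, h0⟩)
        refine ((cont_num h hw x).continuousAt hT).congr ?_
        filter_upwards [hT] with z hz
        rw [indicator_of_mem hz]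
      · refine (continuousAt_const (y := (0 : ℝ))).congr ?_
        filter_upwards [hKc.isClosed.isOpen_compl.mem_nhds (fun hk => hy (hKT hk))] with z hz
          using (hDK z hz).symm)
    ((integrable_indicator_iff hTm).2 hint).integrableOn
    (fun y _ hy => by
      have hK : y ∉ ch x '' tsupport ρ := fun hk => by
        have := hRK hk
        simp only [mem_ball_zero_iff] at this
        linarith
      by_cases hy' : y ∈ (ch x).target
      · simp only [indicator_of_mem hy', hW0 y hy' hK, inner_zero_left, hDK y hK, and_self]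
      · simp only [indicator_of_notMem hy', hDK y hK, and_self])
  have hi : {y : E2 | 0 < y 0} ∩ Tp x = Tp x := inter_eq_right.2 fun y hy => hy.2
  rw [setIntegral_indicator hTm, hi] at key
  have he : ∀ y ∈ Tp x, ε * num (chartDif w x y) (chartDif f x y) =
      jac (chartDif f x y) * curlM f N w ((ch x).symm y) := fun y hy => by
    rw [curlM_Tp h.c1 hw hy]
    by_cases hm : (ch x).symm y ∈ tsupport ρ
    · rw [hS.eq y hy (hs hm)]
      have := den_ne h hy
      field_simp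
    · rw [hD0 y hy hm]; simp
  obtain ⟨i1, i2⟩ := hINT M f h.c1 x (curlM f N w) (cont_curl h hw)
    (fun m _ hm => by simp [curlM, dif_eq_zero (fun hm' => hm (hsS (hsw hm'))), num])
    (IntegrableOn.congr_fun (hint.const_mul ε) he hTm)
  refine ⟨i1, ?_⟩
  rw [i2, ← setIntegral_congr_fun hTm he, integral_const_mul]
  simpa only [neg_mul, mul_neg] using key.const_mul ε

end Pool.Agent.P.MP_a07190_gt.Wk

end

section

/-!
The Stokes formula in one chart: the boundary term.
-/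

open scoped Manifold ContDiff RealInnerProductSpace Topology
open Set MeasureTheory Filter

namespace Pool.Agent.P.MP_a07190_gt.Wk

namespace SbA

variable {M : Type*} [TopologicalSpace M] [ChartedSpace (EuclideanHalfSpace 2) M]

theorem lim [CompactSpace M] (hLIM : S_LIM) {x : M} {ρ : M → ℝ} (hρ : Continuous ρ)
    (hs : tsupport ρ ⊆ (ch x).source) {h : E2 → ℝ} (hc : ContinuousOn h (ch x).target) :
    (∀ s : ℝ, 0 ≤ s → Integrable fun v =>
      (ch x).target.indicator (fun y => ρ ((ch x).symm y) * h y) (pt (s, v))) ∧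
    Tendsto (fun s : ℝ => ∫ v,
      (ch x).target.indicator (fun y => ρ ((ch x).symm y) * h y) (pt (s, v))) (𝓝[>] 0)
      (𝓝 (∫ v, (ch x).target.indicator (fun y => ρ ((ch x).symm y) * h y) (pt (0, v)))) := by
  have hKc : IsCompact (ch x '' tsupport ρ) :=
    (isClosed_tsupport ρ).isCompact.image_of_continuousOn ((continuousOn_extChartAt x).mono hs)
  have hKT : ch x '' tsupport ρ ⊆ (ch x).target := by
    rintro _ ⟨m, hm, rfl⟩; exact (ch x).map_source (hs hm)
  have h0 : ∀ y ∈ (ch x).target, y ∉ ch x '' tsupport ρ → ρ ((ch x).symm y) * h y = 0 :=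
    fun y hy hK => by
      rw [image_eq_zero_of_notMem_tsupport (fun hm => hK ⟨_, hm, (ch x).right_inv hy⟩), zero_mul]
  obtain ⟨R, -, hRK⟩ := hKc.isBounded.subset_ball_lt 0 0
  refine hLIM _ R (continuousOn_ind hKc.isClosed hKT
    ((hρ.comp_continuousOn (continuousOn_extChartAt_symm x)).mul hc) h0) fun y _ hy => ?_
  have hK : y ∉ ch x '' tsupport ρ := fun hk => by
    have := hRK hk
    simp only [mem_ball_zero_iff] at this
    linarith
  by_cases hy' : y ∈ (ch x).target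
  · rw [indicator_of_mem hy', h0 y hy' hK]
  · exact indicator_of_notMem hy' _

end SbA

theorem p_SB (hLIM : S_LIM) (hSCH : S_SCH) : S_SB := by
  intro M _ _ _ _ _ _ _ f N H h x U ε hU W ρ hW hρ hs
  obtain ⟨-, hT⟩ := hSCH M f N H h x U ε hU W ρ hW hρ hs
  have hsS : tsupport ρ ⊆ (ch x).source := hs.trans hU.sub
  have hD : ContinuousOn (fun y => chartDif f x y (ev 1)) (ch x).target :=
    (continuousOn_chartDif h.c1 x).clm_apply continuousOn_const
  refine ⟨fun a ha ha0 hWa hρ0 => ?_, fun hWc => ?_⟩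
  · obtain ⟨hi, hl⟩ := SbA.lim hLIM hρ.continuous hsS
      (h := fun y => a ((ch x).symm y) * ‖chartDif f x y (ev 1)‖)
      ((ha.comp_continuousOn (continuousOn_extChartAt_symm x)).mul hD.norm)
    have hle := le_of_tendsto_of_tendsto hT.norm hl (by
      filter_upwards [self_mem_nhdsWithin] with s (hs0 : 0 < s)
      rw [norm_mul, norm_neg, Real.norm_eq_abs ε, hU.abs, one_mul]
      refine norm_integral_le_of_norm_le (hi s hs0.le) (Eventually.of_forall fun v => ?_)
      by_cases hv : pt (s, v) ∈ (ch x).target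
      · rw [Qf, indicator_of_mem hv, indicator_of_mem hv, norm_mul, Real.norm_of_nonneg (hρ0 _)]
        refine mul_le_mul_of_nonneg_left ((norm_inner_le_norm _ _).trans ?_) (hρ0 _)
        exact mul_le_mul_of_nonneg_right (hWa _ ((int_iff hv).2 (by simpa using hs0)))
          (norm_nonneg _)
      · rw [Qf, indicator_of_notMem hv, indicator_of_notMem hv, norm_zero])
    rw [← ofReal_norm]
    refine (ENNReal.ofReal_le_ofReal hle).trans (le_of_eq ?_)
    rw [ofReal_integral_eq_lintegral_ofReal (hi 0 le_rfl) (Eventually.of_forall fun v =>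
      indicator_nonneg (fun y _ => mul_nonneg (hρ0 _) (mul_nonneg (ha0 _) (norm_nonneg _))) _),
      ← lintegral_indicator (isOpen_Vb x).measurableSet]
    refine lintegral_congr fun v => ?_
    by_cases hv : v ∈ Vb x
    · rw [indicator_of_mem hv, indicator_of_mem (s := (ch x).target) hv, mul_assoc]; rfl
    · rw [indicator_of_notMem hv, indicator_of_notMem (s := (ch x).target) hv, ENNReal.ofReal_zero]
  · obtain ⟨-, hl⟩ := SbA.lim hLIM hρ.continuous hsS
      (h := fun y => ⟪W ((ch x).symm y), chartDif f x y (ev 1)⟫)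
      ((hWc.comp_continuousOn (continuousOn_extChartAt_symm x)).inner hD)
    rw [tendsto_nhds_unique hT (hl.const_mul (-ε))]
    congr 2
    funext v
    simp only [bd, real_inner_smul_left]

end Pool.Agent.P.MP_a07190_gt.Wk

end

section

/-! The total variation of the boundary curves is bounded by the length of the boundary. -/

open scoped Manifold ContDiff RealInnerProductSpace Topology
open Set MeasureTheory Filter

namespace Pool.Agent.P.MP_a07190_gt.Wk

namespace TvA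

theorem vol_le (k : Fin 2) (S : Set E2) : volume ((fun q : E2 => q k) '' S) ≤ μH[1] S := by
  have h : LipschitzWith 1 fun q : E2 => q k :=
    LipschitzWith.of_dist_le_mul fun p q => by simpa using PiLp.dist_apply_le p q k
  have := h.hausdorffMeasure_image_le zero_le_one S
  rwa [hausdorffMeasure_real, ENNReal.coe_one, ENNReal.one_rpow, one_mul] at this

theorem step1 {γ : ℝ → E2} {V : Set ℝ} (hV : IsOpen V) (hc : ContinuousOn γ V) (hi : InjOn γ V)
    {k : Fin 2} {d : ℝ → ℝ} (hd : ∀ v ∈ V, HasDerivAt (fun v => γ v k) (d v) v)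
    (hdc : ContinuousOn d V) {B : Set ℝ} (hB : MeasurableSet B) (hBV : B ⊆ V) :
    ∫⁻ v in B, ENNReal.ofReal |d v| ≤ μH[1] (γ '' B) := by
  let O := V ∩ d ⁻¹' {0}ᶜ
  have hO : IsOpen O := hdc.isOpen_inter_preimage hV isOpen_compl_singleton
  have hex : ∀ v : ℝ, ∃ η : ℝ, Metric.ball v η ⊆ O ∧ (v ∈ O → 0 < η) := fun v => by
    by_cases hv : v ∈ O
    · obtain ⟨η, h1, h2⟩ := Metric.isOpen_iff.1 hO v hv
      exact ⟨η, h2, fun _ => h1⟩
    · exact ⟨0, by simp, fun h => absurd h hv⟩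
  choose η hη1 hη2 using hex
  obtain ⟨t, ht1, ht2, ht3⟩ := TopologicalSpace.countable_cover_nhdsWithin (s := O)
    (f := fun v => Metric.ball v (η v))
    fun v hv => nhdsWithin_le_nhds (Metric.ball_mem_nhds v (hη2 v hv))
  obtain ⟨u, hu⟩ := (ht2.insert 0).exists_eq_range (insert_nonempty _ _)
  let I : ℕ → Set ℝ := fun n => Metric.ball (u n) (η (u n))
  have hinj : ∀ n, InjOn (fun v => γ v k) (I n) := fun n => by
    have key : ∀ v ∈ I n, ∀ w ∈ I n, v < w → γ v k ≠ γ w k := fun v hv w hw hvw e => by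
      have hsub : Icc v w ⊆ O := ((convex_ball _ _).ordConnected.out hv hw).trans (hη1 _)
      obtain ⟨s, hs, e'⟩ := exists_hasDerivAt_eq_zero (f := fun v => γ v k) hvw
        (fun s hs => (hd s (hsub hs).1).continuousAt.continuousWithinAt) e
        (fun s hs => hd s (hsub (Ioo_subset_Icc_self hs)).1)
      exact (hsub (Ioo_subset_Icc_self hs)).2 e'
    intro v hv w hw e
    rcases lt_trichotomy v w with h | h | h
    exacts [absurd e (key v hv w hw h), h, absurd e.symm (key w hw v hv h)]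
  let P : ℕ → Set ℝ := fun n => B ∩ disjointed I n
  have hPm : ∀ n, MeasurableSet (P n) := fun n =>
    hB.inter (MeasurableSet.disjointed (fun _ => Metric.isOpen_ball.measurableSet) n)
  have hPV : ∀ n, P n ⊆ V := fun n => inter_subset_left.trans hBV
  have hPd : Pairwise (Function.onFun Disjoint P) := fun m n h =>
    (disjoint_disjointed I h).mono inter_subset_right inter_subset_right
  have hU : ⋃ n, P n = B ∩ O := by
    rw [← inter_iUnion, iUnion_disjointed]
    congr 1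
    refine (iUnion_subset fun n => hη1 _).antisymm fun v hv => ?_
    obtain ⟨w, hw, hvw⟩ := mem_iUnion₂.1 (ht3 hv)
    obtain ⟨n, rfl⟩ : w ∈ range u := hu ▸ mem_insert_of_mem _ hw
    exact mem_iUnion.2 ⟨n, hvw⟩
  have h0 : ∫⁻ v in B \ O, ENNReal.ofReal |d v| = 0 := by
    rw [setLIntegral_congr_fun (hB.diff hO.measurableSet) (g := fun _ => 0) fun v hv => by
      have : d v = 0 := by
        by_contra h
        exact hv.2 ⟨hBV hv.1, h⟩
      simp [this]]
    simp
  rw [← lintegral_inter_add_sdiff _ B hO.measurableSet, h0, add_zero, ← hU,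
    lintegral_iUnion hPm hPd]
  calc _ ≤ ∑' n, μH[1] (γ '' P n) := ENNReal.tsum_le_tsum fun n => by
        have := lintegral_image_eq_lintegral_abs_deriv_mul (hPm n)
          (fun v hv => (hd v (hPV n hv)).hasDerivWithinAt)
          ((hinj n).mono (inter_subset_right.trans (disjointed_subset I n))) fun _ => 1
        simp only [mul_one, lintegral_const, one_mul, Measure.restrict_apply_univ] at this
        rw [← this, ← image_image (fun q : E2 => q k) γ]
        exact vol_le k _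
    _ = μH[1] (⋃ n, γ '' P n) := (measure_iUnion
        (fun m n h => (hPd h).image hi (hPV m) (hPV n))
        fun n => (hPm n).image_of_continuousOn_injOn (hc.mono (hPV n)) (hi.mono (hPV n))).symm
    _ ≤ _ := measure_mono (iUnion_subset fun n => image_mono inter_subset_left)

theorem step2 {γ : ℝ → E2} {V : Set ℝ} (hV : IsOpen V) (hc : ContinuousOn γ V) {Γ : Set E2}
    (hm : MapsTo γ V Γ) {w : ℝ → ENNReal} (hw : ContinuousOn w V) {ν : Measure E2}
    (h : ∀ B, MeasurableSet B → B ⊆ V → ∫⁻ v in B, w v ≤ ν (γ '' B)) {r : E2 → ENNReal}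
    (hr : AEMeasurable r (ν.restrict Γ)) : ∫⁻ v in V, w v * r (γ v) ≤ ∫⁻ q in Γ, r q ∂ν := by
  classical
  have hVm := hV.measurableSet
  have hγ : Measurable (V.piecewise γ 0) :=
    hc.measurable_piecewise continuousOn_const hVm
  have hle : Measure.map (V.piecewise γ 0) ((volume.restrict V).withDensity w) ≤ ν.restrict Γ := by
    refine Measure.le_iff.2 fun s hs => ?_
    rw [Measure.map_apply hγ hs, withDensity_apply _ (hγ hs), Measure.restrict_restrict (hγ hs),
      Measure.restrict_apply hs]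
    refine (h _ ((hγ hs).inter hVm) inter_subset_right).trans (measure_mono ?_)
    rintro _ ⟨v, ⟨h1, h2⟩, rfl⟩
    exact ⟨by rwa [mem_preimage, piecewise_eq_of_mem _ _ _ h2] at h1, hm h2⟩
  have hr' := hr.mono_measure hle
  refine le_trans (le_of_eq ?_) (lintegral_mono' hle le_rfl)
  rw [lintegral_map' hr' hγ.aemeasurable,
    lintegral_withDensity_eq_lintegral_mul₀' (g := fun a => r (V.piecewise γ 0 a))
      (hw.aemeasurable hVm) (hr'.comp_measurable hγ)]
  exact setLIntegral_congr_fun hVm fun v hv => by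
    simp only [Pi.mul_apply, piecewise_eq_of_mem _ _ _ hv]

theorem norm_le (τ : E3) (h : τ 2 = 0) : ‖τ‖ ≤ |τ 0| + |τ 1| := by
  rw [EuclideanSpace.norm_eq, Fin.sum_univ_three, h]
  refine Real.sqrt_le_iff.2 ⟨by positivity, ?_⟩
  simp only [Real.norm_eq_abs, abs_zero]
  nlinarith [abs_nonneg (τ 0), abs_nonneg (τ 1)]

end TvA

open TvA in
theorem p_TV : S_TV := by
  intro M _ _ _ _ _ f hf Γ hb ι _ c ρ hρ h0 h1
  rcases isEmpty_or_nonempty M with hM | hM
  · have : IsEmpty ι := Function.isEmpty c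
    simp
  let φ : M → E2 := fun m => prj (f m)
  have hφ : Continuous φ := cont_prj.comp hf.continuous
  have hφi : InjOn φ (Bdy M) := fun m hm m' hm' e => bij_inj hb hm hm' e
  have hΓ : Γ = φ '' Bdy M := by
    ext p
    exact ⟨fun hp => bij_surj hb hp, fun ⟨m, hm, e⟩ => e ▸ bij_mem hb hm⟩
  have hΓm : MeasurableSet Γ := hΓ ▸ (isClosed_Bdy.isCompact.image hφ).measurableSet
  let g : E2 → M := Function.invFunOn φ (Bdy M)
  have hg : ∀ m ∈ Bdy M, g (φ m) = m := hφi.leftInvOn_invFunOn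
  have hgc : ContinuousOn g Γ := continuousOn_iff_isClosed.2 fun t ht =>
    ⟨φ '' (t ∩ Bdy M), ((ht.inter isClosed_Bdy).isCompact.image hφ).isClosed, by
      rw [hΓ]
      ext p
      constructor
      · rintro ⟨h, m, hm, rfl⟩
        exact ⟨⟨m, ⟨by rwa [mem_preimage, hg m hm] at h, hm⟩, rfl⟩, m, hm, rfl⟩
      · rintro ⟨⟨m, hm, rfl⟩, h⟩
        exact ⟨by rw [mem_preimage, hg m hm.2]; exact hm.1, h⟩⟩
  let r : ι → E2 → ENNReal := fun i q => ENNReal.ofReal (ρ i (g q))
  have hr : ∀ i (ν : Measure E2), AEMeasurable (r i) (ν.restrict Γ) := fun i ν =>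
    ((ENNReal.continuous_ofReal.comp (hρ i)).comp_continuousOn hgc).aemeasurable hΓm
  have key : ∀ i, ∫⁻ v in Vb (c i), ENNReal.ofReal (ρ i (gam (c i) v) * ‖tau f (c i) v‖)
      ≤ ∫⁻ q in Γ, r i q ∂((2 : ENNReal) • μH[1]) := fun i => by
    have hc : ContinuousOn (fun v => φ (gam (c i) v)) (Vb (c i)) :=
      hφ.comp_continuousOn (continuousOn_gam _)
    have hi : InjOn (fun v => φ (gam (c i) v)) (Vb (c i)) := fun v hv w hw e =>
      injOn_gam _ hv hw (hφi (gam_mem hv) (gam_mem hw) e)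
    have hτ := continuousOn_tau hf (c i)
    have hτk : ∀ k, ContinuousOn (fun v => tau f (c i) v k) (Vb (c i)) := fun k =>
      (show Continuous fun u : E3 => u k by fun_prop).comp_continuousOn hτ
    refine le_trans (le_of_eq ?_) (step2 (isOpen_Vb _) hc (fun v hv => bij_mem hb (gam_mem hv))
      (w := fun v => ENNReal.ofReal ‖tau f (c i) v‖)
      (ENNReal.continuous_ofReal.comp_continuousOn hτ.norm) (fun B hB hBV => ?_) (hr i _))
    · refine setLIntegral_congr_fun (isOpen_Vb _).measurableSet fun v hv => ?_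
      simp only [r]
      rw [hg _ (gam_mem hv), mul_comm, ENNReal.ofReal_mul (norm_nonneg _)]
    · have e0 := step1 (isOpen_Vb _) hc hi (k := 0)
        (fun v hv => by simpa only [φ, prj_0] using hasDerivAt_gam' hf hv 0) (hτk 0) hB hBV
      have e1 := step1 (isOpen_Vb _) hc hi (k := 1)
        (fun v hv => by simpa only [φ, prj_1] using hasDerivAt_gam' hf hv 1) (hτk 1) hB hBV
      rw [Measure.smul_apply, smul_eq_mul, two_mul]
      refine le_trans ?_ (add_le_add e0 e1)
      rw [← lintegral_add_left' (f := fun v => ENNReal.ofReal |tau f (c i) v 0|)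
        ((ENNReal.continuous_ofReal.comp_continuousOn ((hτk 0).abs.mono hBV)).aemeasurable hB)]
      refine setLIntegral_mono' hB fun v hv => ?_
      rw [← ENNReal.ofReal_add (abs_nonneg _) (abs_nonneg _)]
      exact ENNReal.ofReal_le_ofReal
        (norm_le _ (tau_2 hf (fun m hm => bij_z hb hm) (hBV hv)))
  refine (Finset.sum_le_sum fun i _ => key i).trans (le_of_eq ?_)
  rw [← lintegral_finsetSum' _ fun i _ => hr i _]
  have : ∀ q, ∑ i, r i q = 1 := fun q => by
    simp only [r]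
    rw [← ENNReal.ofReal_sum_of_nonneg (fun i _ => h0 i _), h1, ENNReal.ofReal_one]
  simp [this]

end Pool.Agent.P.MP_a07190_gt.Wk

end

section

/-!
The global Stokes bound from the bounds in the charts.
-/

open scoped Manifold ContDiff RealInnerProductSpace Topology
open Set MeasureTheory Filter

namespace Pool.Agent.P.MP_a07190_gt.Wk

theorem p_STK (hNUL : S_NUL) (hSGN : S_SGN) (hSCH : S_SCH) (hSB : S_SB) (hTV : S_TV) : S_STK := by
  intro M _ _ _ _ _ _ _ f N H h Γ hΓ hfin W η a c hW hη hη0 ha ha0 hWa hc hb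
  choose U ε hUx hU using hSGN M f N H h
  obtain ⟨t, ht⟩ := isCompact_univ.elim_finite_subcover U (fun x => (hU x).op)
    (fun x _ => mem_iUnion.2 ⟨x, hUx x⟩)
  obtain ⟨ρ, hρ⟩ := SmoothPartitionOfUnity.exists_isSubordinate (𝓡∂ 2) isClosed_univ
    (fun i : t => U i) (fun i => (hU i).op) (fun x hx => by
      obtain ⟨i, hi, hx⟩ := mem_iUnion₂.1 (ht hx)
      exact mem_iUnion.2 ⟨⟨i, hi⟩, hx⟩)
  have h1 : ∀ m, ∑ i, ρ i m = 1 := fun m => by
    rw [← finsum_eq_sum_of_fintype]; exact ρ.sum_eq_one (mem_univ m)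
  have hr : ∀ i, ContMDiff (𝓡∂ 2) 𝓘(ℝ, ℝ) 1 (fun m => ρ i m * η m) := fun i =>
    ((ρ i).contMDiff.of_le (by simp)).smul hη
  have hs : ∀ i, tsupport (fun m => ρ i m * η m) ⊆ U i := fun i =>
    (tsupport_mul_subset_left).trans (hρ i)
  have hae : (curlM f N fun m => η m • W m)
      =ᵐ[area f] fun m => ∑ i, curlM f N (fun m => (ρ i m * η m) • W m) m := by
    have h0 : ∀ᵐ m ∂(area f), m ∉ Bdy M := measure_eq_zero_iff_ae_notMem.1 (hNUL M f h.c1)
    filter_upwards [h0] with m hm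
    exact curlM_sum_int (W := fun m => η m • W m) (Wi := fun i m => (ρ i m * η m) • W m)
      (hη.contMDiffOn.smul hW.c1) (fun i => (hr i).contMDiffOn.smul hW.c1)
      (fun m => by rw [← Finset.sum_smul, ← Finset.sum_mul, h1, one_mul]) (int_iff_not_bdy.2 hm)
  have hI : ∀ i : t, Integrable (curlM f N fun m => (ρ i m * η m) • W m) (area f) := fun i =>
    (hSCH M f N H h i (U i) (ε i) (hU i) W _ hW (hr i) (hs i)).1
  refine ⟨(integrable_finsetSum _ fun i _ => hI i).congr hae.symm, ?_⟩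
  rw [integral_congr_ae hae, integral_finsetSum _ fun i _ => hI i]
  have key : ∀ i : t, ‖∫ m, curlM f N (fun m => (ρ i m * η m) • W m) m ∂(area f)‖ₑ
      ≤ ENNReal.ofReal c * ∫⁻ v in Vb (i : M),
        ENNReal.ofReal (ρ i (gam (i : M) v) * ‖tau f (i : M) v‖) := by
    intro i
    refine ((hSB M f N H h i (U i) (ε i) (hU i) W _ hW (hr i) (hs i)).1 a ha ha0 hWa
      fun m => mul_nonneg (ρ.nonneg i m) (hη0 m)).trans ?_
    rw [← lintegral_const_mul' _ _ ENNReal.ofReal_ne_top]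
    refine setLIntegral_mono' (isOpen_Vb _).measurableSet fun v hv => ?_
    rw [← ENNReal.ofReal_mul hc]
    refine ENNReal.ofReal_le_ofReal ?_
    have h2 := mul_le_mul_of_nonneg_left (hb _ (gam_mem hv))
      (mul_nonneg (ρ.nonneg i (gam (i : M) v)) (norm_nonneg (tau f (i : M) v)))
    exact (le_of_eq (by ring)).trans (h2.trans (le_of_eq (by ring)))
  have k2 := (enorm_sum_le Finset.univ _).trans (Finset.sum_le_sum fun i _ => key i)
  rw [← Finset.mul_sum] at k2
  have k3 := k2.trans (mul_le_mul_right (hTV M f h.c1 Γ hΓ t (fun i => (i : M))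
    (fun i m => ρ i m) (fun i => (ρ i).contMDiff.continuous) ρ.nonneg h1) _)
  have e : (2 : ENNReal) * μH[1] Γ = ENNReal.ofReal (2 * (μH[1] Γ).toReal) := by
    rw [ENNReal.ofReal_mul (by norm_num), ENNReal.ofReal_toReal hfin, ENNReal.ofReal_ofNat]
  rwa [Real.enorm_eq_ofReal_abs, e, ← ENNReal.ofReal_mul hc,
    ENNReal.ofReal_le_ofReal_iff (by positivity)] at k3

end Pool.Agent.P.MP_a07190_gt.Wk

end

section

open scoped Manifold ContDiff RealInnerProductSpace Topology
open Set MeasureTheory Filter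

namespace Pool.Agent.P.MP_a07190_gt.Wk

namespace NuA

variable {M : Type*} [TopologicalSpace M] [ChartedSpace (EuclideanHalfSpace 2) M]
  {f N : M → E3} {H : ℝ} [IsManifold (𝓡∂ 2) ∞ M]
  [MeasurableSpace M] [BorelSpace M] [CompactSpace M] [T2Space M]

theorem density (h : IsCMCw f N H) {x : M} (hx : x ∈ Inn M) {σ1 : ℝ} (hσ : 0 < σ1) :
    ∃ σ, 0 < σ ∧ σ ≤ σ1 ∧ σ ^ 2 / 4 ≤ (area f).real (f ⁻¹' Metric.closedBall (f x) σ) := by
  have h1 : ContMDiff (𝓡∂ 2) 𝓘(ℝ, E3) 1 f := h.c1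
  have := finite_area h1
  have hp : ch x x ∈ Tp x := mem_Tp (mem_extChartAt_source x) hx
  have hy := hp.1
  have h0 : 0 < ch x x 0 := hp.2
  have hT := tgt_mem_nhds hy h0
  obtain ⟨B, hB, hdet⟩ := exists_gs (h.inj_ch hp)
  set L := chartDif f x (ch x x) with hL
  have hJ : 0 < jac L := jac_pos (h.inj_ch hp)
  have hA : HasFDerivAt (fun u => ch x x + B u) B 0 := B.hasFDerivAt.const_add _
  have hA0 : Tendsto (fun u => ch x x + B u) (𝓝 0) (𝓝 (ch x x)) := by
    simpa using hA.continuousAt.tendsto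
  have hF : HasFDerivAt (f ∘ (ch x).symm) L (ch x x + B 0) := by
    rw [map_zero, add_zero]
    exact (hasFD_ch h1 hy).hasFDerivAt (range_mem_nhds h0)
  have hG := (hF.comp 0 hA).isLittleO.bound one_pos
  have hJc : ∀ᶠ y in 𝓝 (ch x x), jac L / 2 < jac (chartDif f x y) :=
    ((continuousOn_jac h1 x).continuousAt hT).eventually (lt_mem_nhds (by linarith))
  obtain ⟨δ, hδ, hball⟩ := Metric.nhds_basis_closedBall.eventually_iff.1
    (hG.and ((hA0.eventually hJc).and (hA0.eventually hT)))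
  set ρ := min δ (σ1 / 2)
  have hρ : 0 < ρ := lt_min hδ (by linarith)
  refine ⟨2 * ρ, by linarith, by linarith [min_le_right δ (σ1 / 2)], ?_⟩
  set S := (fun z => ch x x + z) '' (B '' Metric.closedBall 0 ρ) with hS
  have hSm : MeasurableSet S :=
    (((isCompact_closedBall _ _).image B.continuous).image (by fun_prop)).measurableSet
  have hmem : ∀ y ∈ S, ∃ u ∈ Metric.closedBall (0 : E2) δ, ‖u‖ ≤ ρ ∧ y = ch x x + B u := by
    rintro _ ⟨_, ⟨u, hu, rfl⟩, rfl⟩
    exact ⟨u, Metric.closedBall_subset_closedBall (min_le_left _ _) hu, by simpa using hu, rfl⟩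
  have hsub : S ⊆ (ch x).symm ⁻¹' (f ⁻¹' Metric.closedBall (f x) (2 * ρ)) ∩ (ch x).target := by
    intro y hy
    obtain ⟨u, hu, hu', rfl⟩ := hmem y hy
    refine ⟨?_, (hball hu).2.2⟩
    have h1 := (hball hu).1
    simp only [Function.comp_apply, map_zero, add_zero, extChartAt_to_inv, sub_zero,
      ContinuousLinearMap.comp_apply, one_mul] at h1
    rw [mem_preimage, mem_preimage, mem_closedBall_iff_norm]
    have h2 := norm_add_le (f ((ch x).symm (ch x x + B u)) - f x - L (B u)) (L (B u))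
    rw [sub_add_cancel, hB] at h2
    linarith
  have k : ENNReal.ofReal ((2 * ρ) ^ 2 / 4) ≤ area f (f ⁻¹' Metric.closedBall (f x) (2 * ρ)) := by
    refine le_trans ?_ (Measure.le_iff'.1 (le_iSup (chartArea f) x) _)
    rw [chartArea_apply x (Metric.isClosed_closedBall.preimage h1.continuous).measurableSet]
    refine le_trans ?_ (lintegral_mono_set hsub)
    refine le_trans ?_ (setLIntegral_mono' (f := fun _ => ENNReal.ofReal (jac L / 2)) hSm
      fun y hy => by
        obtain ⟨u, hu, -, rfl⟩ := hmem y hy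
        exact ENNReal.ofReal_le_ofReal (hball hu).2.1.le)
    rw [setLIntegral_const, hS, image_add_left, measure_preimage_add,
      Measure.addHaar_image_continuousLinearMap, EuclideanSpace.volume_closedBall_fin_two,
      ← ENNReal.ofReal_pow hρ.le, ← ENNReal.ofReal_mul (by positivity),
      ← ENNReal.ofReal_mul (by positivity), ← ENNReal.ofReal_mul (by positivity)]
    refine ENNReal.ofReal_le_ofReal ?_
    have e : (B : E2 →ₗ[ℝ] E2).det = det2 B := det2_eq B
    rw [e]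
    have : jac L / 2 * (|det2 B| * (ρ ^ 2 * Real.pi)) = ρ ^ 2 * Real.pi / 2 := by
      linear_combination (ρ ^ 2 * Real.pi / 2) * hdet
    rw [this]
    nlinarith [Real.two_le_pi, sq_nonneg ρ]
  exact (ENNReal.ofReal_le_iff_le_toReal (measure_ne_top _ _)).1 k

omit [MeasurableSpace M] [BorelSpace M] [CompactSpace M] [T2Space M] [IsManifold (𝓡∂ 2) ∞ M] in
theorem compl_eq : (Inn M)ᶜ = Bdy M := by
  ext m
  rw [mem_compl_iff, int_iff_not_bdy, not_not]

omit [BorelSpace M] [CompactSpace M] [T2Space M] [IsManifold (𝓡∂ 2) ∞ M] in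
theorem ae_inn (h0 : area f (Bdy M) = 0) : ∀ᵐ m ∂(area f), m ∈ Inn M := by
  rw [← compl_eq] at h0
  exact h0

omit [CompactSpace M] [T2Space M] in
theorem aemeas (h : IsCMCw f N H) (h0 : area f (Bdy M) = 0) :
    AEMeasurable (fun m => (f m, N m)) (area f) := by
  have h1 : ContMDiff (𝓡∂ 2) 𝓘(ℝ, E3) 1 f := h.c1
  refine h1.continuous.measurable.aemeasurable.prodMk ?_
  have h2 : AEMeasurable N ((area f).restrict (Inn M)) :=
    h.normal_c1.continuousOn.aemeasurable isOpen_Inn.measurableSet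
  rwa [Measure.restrict_eq_self_of_ae_mem (ae_inn h0)] at h2

theorem bd (h : IsCMCw f N H) (h0 : area f (Bdy M) = 0) : Bd (nu f N) := by
  have h1 : ContMDiff (𝓡∂ 2) 𝓘(ℝ, E3) 1 f := h.c1
  have := finite_area h1
  obtain ⟨R, hR⟩ := isCompact_univ.exists_bound_of_continuousOn h1.continuous.continuousOn
  refine ⟨by unfold nu; infer_instance, ⟨R, ?_⟩, ?_⟩
  · refine (ae_map_iff (aemeas h h0) ?_).2 (Eventually.of_forall fun m => hR m (mem_univ m))
    exact (isClosed_le (by fun_prop) continuous_const).measurableSet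
  · refine (ae_map_iff (aemeas h h0) ?_).2 ((ae_inn h0).mono fun m hm => h.unit m hm)
    exact (isClosed_eq (by fun_prop) continuous_const).measurableSet

end NuA

theorem p_NU (hNUL : S_NUL) : S_NU := by
  intro M _ _ _ _ _ _ _ f N H h
  have h0 := hNUL M f h.c1
  have hm := NuA.aemeas h h0
  have hb := NuA.bd h h0
  refine ⟨hb, fun F hF => ⟨?_, ?_⟩, fun m hx σ1 hσ => ?_⟩
  · exact (integrable_map_measure hF.aestronglyMeasurable hm).1 (hb.integrable hF)
  · exact integral_map hm hF.aestronglyMeasurable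
  · obtain ⟨σ, h1, h2, h3⟩ := NuA.density h hx hσ
    refine ⟨σ, h1, h2, h3.trans (le_of_eq ?_)⟩
    have hs : MeasurableSet {z : E3 × E3 | dist z.1 (f m) ≤ σ} :=
      (isClosed_le (by fun_prop) continuous_const).measurableSet
    rw [Measure.real, Measure.real, nu, Measure.map_apply_of_aemeasurable hm hs]
    rfl

end Pool.Agent.P.MP_a07190_gt.Wk

end

section

/-! First variation and Stokes formula for the image measure. -/

open scoped Manifold ContDiff RealInnerProductSpace Topology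
open Set MeasureTheory Filter

namespace Pool.Agent.P.MP_a07190_gt.Wk

theorem p_GOOD (hNUL : S_NUL) (hCRL : S_CRL) (hSTK : S_STK) (hNU : S_NU) : S_GOOD := by
  intro M _ _ _ _ _ _ _ f N H h Γ hb hL
  obtain ⟨bd, hi, -⟩ := hNU M f N H h
  have hf : ContMDiff (𝓡∂ 2) 𝓘(ℝ, E3) 1 f := h.c1
  have key : ∀ (φ : E3 → ℝ), ContDiff ℝ 1 φ → ∀ (v : E3) (c : ℝ), 0 ≤ c →
      (∀ q ∈ Γ, |φ (toP q)| ≤ c) → ∀ (W : M → E3) (F : E3 × E3 → ℝ), Continuous F → Fld f N W →
      (∀ m ∈ Inn M, curlM f N W m = F (f m, N m) ∧ ‖W m‖ ≤ |φ (f m)| * ‖v‖) →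
      |∫ z, F z ∂(nu f N)| ≤ c * ‖v‖ * (2 * (μH[1] Γ).toReal) := by
    intro φ hφ v c hc hq W F hF hW hm
    have a := (hSTK M f N H h Γ hb hL W (fun _ => 1) (fun m => |φ (f m)| * ‖v‖) (c * ‖v‖) hW
      contMDiff_const (fun _ => zero_le_one)
      ((hφ.continuous.comp hf.continuous).abs.mul continuous_const) (fun _ => by positivity)
      (fun m hm' => (hm m hm').2) (by positivity) fun m hm' => by
        obtain ⟨q, hq', e⟩ := hb.mapsTo hm'
        rw [one_mul, ← e]
        exact mul_le_mul_of_nonneg_right (hq q hq') (norm_nonneg v)).2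
    simp only [one_smul] at a
    rw [(hi F hF).2]
    refine le_of_eq_of_le (congrArg _ (integral_congr_ae ?_)) a
    filter_upwards [measure_eq_zero_iff_ae_notMem.1 (hNUL M f hf)] with m hm'
    exact (hm m (int_iff_not_bdy.2 hm')).1.symm
  refine ⟨bd, fun φ hφ v c hc hq => ?_, fun φ hφ v hq => ?_⟩
  · obtain ⟨⟨h1, h2⟩, -⟩ := hCRL M f N H h φ hφ v
    exact key φ hφ v c hc hq _ _ (continuous_fvd H hφ v) h1 h2
  · obtain ⟨-, h1, h2⟩ := hCRL M f N H h φ hφ v
    simpa using key φ hφ v 0 le_rfl (fun q hq' => by simp [hq q hq']) _ _ (continuous_std hφ v) h1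
      fun m hm => ⟨h2 m hm, (norm_smul _ _).le⟩

end Pool.Agent.P.MP_a07190_gt.Wk

end

section

open scoped Manifold ContDiff RealInnerProductSpace Topology
open Set MeasureTheory Filter

namespace Pool.Agent.P.MP_a07190_gt.Wk

namespace RecA

variable {M : Type*} [TopologicalSpace M] [ChartedSpace (EuclideanHalfSpace 2) M]
  [IsManifold (𝓡∂ 2) ∞ M] {f : M → E3} {Γ : Set E2}

theorem arc {x : M} {v0 η : ℝ} (hv0 : v0 ∈ Vb x) (hη : 0 < η) :
    gam x '' Metric.ball v0 η ∈ 𝓝[Bdy M] gam x v0 := by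
  have hO : IsOpen ((ch x).source ∩ ch x ⁻¹' {y : E2 | dist (y 1) v0 < η}) :=
    (continuousOn_extChartAt x).isOpen_inter_preimage
      (isOpen_extChartAt_source x) (isOpen_lt (by fun_prop) continuous_const)
  have hgam : ∀ v ∈ Vb x, ch x (gam x v) 1 = v := fun v hv => by
    rw [gam, (ch x).right_inv hv, pt_1]
  refine mem_nhdsWithin.2 ⟨_, hO, ⟨(ch x).map_target hv0, ?_⟩, fun m hm => ?_⟩
  · simp only [mem_preimage, mem_ofPred_eq, hgam v0 hv0, dist_self, hη]
  · obtain ⟨v, hv, rfl⟩ := exists_gam hm.1.1 hm.2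
    have := hm.1.2
    rw [mem_preimage, mem_ofPred_eq, hgam v hv] at this
    exact ⟨v, this, rfl⟩

omit [IsManifold (𝓡∂ 2) ∞ M] in
theorem gam_eq (hb : BijOn f (Bdy M) (toP '' Γ)) : Γ = (fun m => prj (f m)) '' Bdy M :=
  Subset.antisymm (fun _ hp => bij_surj hb hp) (by rintro _ ⟨m, hm, rfl⟩; exact bij_mem hb hm)

theorem exists_tau (hf : ContMDiff (𝓡∂ 2) 𝓘(ℝ, E3) 1 f) (hb : InjOn f (Bdy M)) {x : M} {v1 : ℝ}
    (hv : v1 ∈ Vb x) : ∃ v0 ∈ Vb x, tau f x v0 ≠ 0 := by
  by_contra! h0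
  obtain ⟨η, hη, hs⟩ := Metric.isOpen_iff.1 (isOpen_Vb x) v1 hv
  have h1 : v1 + η / 2 ∈ Metric.ball v1 η := by
    rw [Metric.mem_ball, dist_self_add_left, Real.norm_eq_abs, abs_of_pos (half_pos hη)]
    exact half_lt_self hη
  have := (convex_ball v1 η).norm_image_sub_le_of_norm_hasDerivWithin_le (C := 0)
    (fun v hv => (hasDerivAt_gam hf (hs hv)).hasDerivWithinAt) (fun v hv => by simp [h0 v (hs hv)])
    (Metric.mem_ball_self hη) h1
  rw [zero_mul, norm_le_zero_iff, sub_eq_zero] at this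
  have := injOn_gam x (hs h1) hv (hb (gam_mem (hs h1)) (gam_mem hv) this)
  linarith

theorem loc_inj [CompactSpace M] (hf : ContMDiff (𝓡∂ 2) 𝓘(ℝ, E3) 1 f)
    (hb : BijOn f (Bdy M) (toP '' Γ)) (hne : Γ.Nonempty) :
    ∃ p ∈ Γ, ∃ δ > 0, ∃ i : Fin 2, InjOn (fun q : E2 => q i) (Γ ∩ Metric.ball p δ) := by
  obtain ⟨x, hx, -⟩ := bij_surj hb hne.some_mem
  obtain ⟨v1, hv1, -⟩ := exists_gam (mem_extChartAt_source x) hx
  obtain ⟨v0, hv0, hτ⟩ := exists_tau hf hb.injOn hv1
  obtain ⟨i, k, hik, hk⟩ : ∃ (i : Fin 2) (k : Fin 3), (∀ q, prj q i = q k) ∧ tau f x v0 k ≠ 0 := by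
    by_cases h0 : tau f x v0 0 = 0
    · refine ⟨1, 1, prj_1, fun h1 => hτ ?_⟩
      have h2 := tau_2 hf (fun m hm => bij_z hb hm) hv0
      ext j; fin_cases j; exacts [h0, h1, h2]
    · exact ⟨0, 0, prj_0, h0⟩
  have hc : ContinuousAt (fun v => tau f x v k) v0 :=
    (show Continuous fun u : E3 => u k by fun_prop).continuousAt.comp
      ((continuousOn_tau hf x).continuousAt ((isOpen_Vb x).mem_nhds hv0))
  obtain ⟨η, hη, hs⟩ := Metric.nhds_basis_ball.eventually_iff.1
    ((hc.eventually_ne hk).and ((isOpen_Vb x).mem_nhds hv0))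
  have hinj : ∀ v ∈ Metric.ball v0 η, ∀ w ∈ Metric.ball v0 η, v < w →
      f (gam x v) k ≠ f (gam x w) k := fun v hv w hw hvw e => by
    have hsub : Icc v w ⊆ Metric.ball v0 η := (convex_ball v0 η).ordConnected.out hv hw
    obtain ⟨t, ht, e'⟩ := exists_hasDerivAt_eq_zero (f := fun v => f (gam x v) k) hvw
      (fun t ht => (hasDerivAt_gam' hf (hs (hsub ht)).2 k).continuousAt.continuousWithinAt)
      e (fun t ht => hasDerivAt_gam' hf (hs (hsub (Ioo_subset_Icc_self ht))).2 k)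
    exact (hs (hsub (Ioo_subset_Icc_self ht))).1 e'
  obtain ⟨O, hO, hxO, hsub⟩ := mem_nhdsWithin.1 (arc hv0 hη)
  have hK : IsCompact ((fun m => prj (f m)) '' (Bdy M \ O)) :=
    (isClosed_Bdy.sdiff hO).isCompact.image (cont_prj.comp hf.continuous)
  have hpK : prj (f (gam x v0)) ∉ (fun m => prj (f m)) '' (Bdy M \ O) := by
    rintro ⟨m, hm, e⟩
    exact hm.2 (bij_inj hb hm.1 (gam_mem hv0) e ▸ hxO)
  obtain ⟨δ, hδ, hball⟩ := Metric.isOpen_iff.1 hK.isClosed.isOpen_compl _ hpK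
  have key : ∀ q ∈ Γ ∩ Metric.ball (prj (f (gam x v0))) δ,
      ∃ v ∈ Metric.ball v0 η, prj (f (gam x v)) = q := by
    intro q hq
    obtain ⟨m, hm, e⟩ := bij_surj hb hq.1
    obtain ⟨v, hv, rfl⟩ := hsub ⟨by_contra fun hn => hball hq.2 ⟨m, ⟨hm, hn⟩, e⟩, hm⟩
    exact ⟨v, hv, e⟩
  refine ⟨_, bij_mem hb (gam_mem hv0), δ, hδ, i, fun q hq q' hq' e => ?_⟩
  obtain ⟨v, hv, rfl⟩ := key q hq
  obtain ⟨w, hw, rfl⟩ := key q' hq'
  simp only [hik] at e
  rcases lt_trichotomy v w with h3 | h3 | h3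
  · exact absurd e (hinj v hv w hw h3)
  · rw [h3]
  · exact absurd e.symm (hinj w hw v hv h3)

theorem other (i : Fin 2) : ∃ j, i ≠ j ∧ ∀ (p q : E2) (η : ℝ), 0 < η → |q i - p i| ≤ η →
    |q j - p j| ≤ η → q ∈ Metric.ball p (2 * η) := by
  have key : ∀ (p q : E2) (η : ℝ), 0 < η → |q 0 - p 0| ≤ η → |q 1 - p 1| ≤ η →
      q ∈ Metric.ball p (2 * η) := fun p q η hη h0 h1 => by
    rw [Metric.mem_ball, EuclideanSpace.dist_eq, Real.sqrt_lt' (by positivity), Fin.sum_univ_two,
      Real.dist_eq, Real.dist_eq]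
    nlinarith [abs_nonneg (q 0 - p 0), abs_nonneg (q 1 - p 1)]
  fin_cases i
  · exact ⟨1, by decide, key⟩
  · exact ⟨0, by decide, fun p q η hη h0 h1 => key p q η hη h1 h0⟩

end RecA

open RecA

theorem p_HF : S_HF := by
  intro M _ _ _ _ _ f hf Γ hb
  rw [gam_eq hb]
  refine ne_of_lt (isClosed_Bdy.isCompact.induction_on
    (p := fun t => μH[1] ((fun m => prj (f m)) '' t) < ⊤) (by simp)
    (fun s t hst ht => (measure_mono (image_mono hst)).trans_lt ht)
    (fun s t hs ht => by rw [image_union]; exact measure_union_lt_top hs ht) fun x hx => ?_)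
  obtain ⟨v0, hv0, e⟩ := exists_gam (mem_extChartAt_source x) hx
  obtain ⟨η, hη, hs⟩ := Metric.nhds_basis_closedBall.mem_iff.1 ((isOpen_Vb x).mem_nhds hv0)
  obtain ⟨C, hC⟩ := (isCompact_closedBall v0 η).exists_bound_of_continuousOn
    (cont_prj.comp_continuousOn ((continuousOn_tau hf x).mono hs))
  have hl : LipschitzOnWith C.toNNReal (fun v => prj (f (gam x v))) (Metric.ball v0 η) :=
    (convex_ball v0 η).lipschitzOnWith_of_nnnorm_hasDerivWithin_le
      (f' := fun v => prj (tau f x v))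
      (fun v hv => (pt.hasFDerivAt.comp_hasDerivAt v
        ((hasDerivAt_gam' hf (hs (Metric.ball_subset_closedBall hv)) 0).prodMk
          (hasDerivAt_gam' hf (hs (Metric.ball_subset_closedBall hv)) 1))).hasDerivWithinAt)
      fun v hv => (hC v (Metric.ball_subset_closedBall hv)).trans (Real.le_coe_toNNReal C)
  refine ⟨_, e ▸ arc hv0 hη, ?_⟩
  rw [image_image]
  refine (hl.hausdorffMeasure_image_le zero_le_one).trans_lt (ENNReal.mul_lt_top (by simp) ?_)
  rw [hausdorffMeasure_real]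
  exact measure_ball_lt_top

theorem p_REC : S_REC := by
  intro M _ _ _ _ _ f hf Γ hb hne
  obtain ⟨p, hp, δ, hδ, i, hi⟩ := loc_inj hf hb hne
  obtain ⟨j, hij, hj⟩ := other i
  obtain ⟨η, rfl⟩ : ∃ η, δ = 2 * η := ⟨δ / 2, by ring⟩
  have hη : 0 < η := by linarith
  have hΓ : IsCompact Γ := by
    rw [gam_eq hb]
    exact isClosed_Bdy.isCompact.image (cont_prj.comp hf.continuous)
  have hc : IsClosed {q : E2 | |q i - p i| ≤ η ∧ η / 2 ≤ |q j - p j| ∧ |q j - p j| ≤ η} := by
    refine IsClosed.and (isClosed_le ?_ ?_) (IsClosed.and (isClosed_le ?_ ?_) (isClosed_le ?_ ?_)) <;>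
      fun_prop
  obtain ⟨a, ha, hK⟩ := (hΓ.inter_right hc).exists_forall_le'
    (f := fun q => |q i - p i|) (a := 0) (by fun_prop) fun q hq => by
      refine abs_pos.2 (sub_ne_zero.2 fun e => ?_)
      have := hq.2.2.1
      rw [hi ⟨hq.1, hj p q η hη hq.2.1 hq.2.2.2⟩ ⟨hp, Metric.mem_ball_self hδ⟩ e] at this
      simp only [sub_self, abs_zero] at this
      linarith
  obtain ⟨w, hw, hwa, hwη⟩ : ∃ w, 0 < w ∧ w < a ∧ w ≤ η :=
    ⟨min (a / 2) η, by positivity, (min_le_left _ _).trans_lt (half_lt_self ha), min_le_right _ _⟩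
  refine ⟨i, j, p i - w, p i + w, p j - η, p j - η / 2, p j + η / 2, p j + η, hij, by linarith,
    by linarith, by linarith, by linarith, fun q hq h1 h2 => ?_, hi.mono fun q hq => mem_inter hq.1
      (hj p q η hη (abs_le.2 ⟨by linarith [hq.2.1.1], by linarith [hq.2.1.2]⟩)
        (abs_le.2 ⟨by linarith [hq.2.2.1], by linarith [hq.2.2.2]⟩)),
    p, hp, ⟨by linarith, by linarith⟩, by linarith, by linarith⟩
  have h3 : |q i - p i| ≤ w := abs_le.2 ⟨by linarith [h1.1], by linarith [h1.2]⟩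
  have h4 : |q j - p j| < η / 2 := lt_of_not_ge fun h => by
    have := hK q ⟨hq, h3.trans hwη, h, abs_le.2 ⟨by linarith [h2.1], by linarith [h2.2]⟩⟩
    linarith
  exact ⟨by linarith [(abs_lt.1 h4).1], by linarith [(abs_lt.1 h4).2]⟩

end Pool.Agent.P.MP_a07190_gt.Wk

end

section

open scoped Manifold ContDiff RealInnerProductSpace Topology
open Set MeasureTheory Filter

namespace Pool.Agent.P.MP_a07190_gt.Wk

namespace DegA

/-- a product of functions of two of the coordinates -/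
def pr2 (g h : ℝ → ℝ) (k l : Fin 3) (p : E3) : ℝ := g (p k) * h (p l)

theorem contDiff_pr2 {g g' h h' : ℝ → ℝ} (hg : C1 g g') (hh : C1 h h') (k l : Fin 3) :
    ContDiff ℝ 1 (pr2 g h k l) :=
  (hg.contDiff.comp (contDiff_coord k)).mul (hh.contDiff.comp (contDiff_coord l))

theorem fderiv_pr2 {g g' h h' : ℝ → ℝ} (hg : C1 g g') (hh : C1 h h') (k l : Fin 3) (p u : E3) :
    fderiv ℝ (pr2 g h k l) p u = g' (p k) * h (p l) * u k + g (p k) * h' (p l) * u l := by
  have := (((hg.hd (p k)).comp_hasFDerivAt p (hasFD_coord p k)).mul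
    ((hh.hd (p l)).comp_hasFDerivAt p (hasFD_coord p l))).fderiv
  have e : pr2 g h k l = (g ∘ fun q : E3 => q k) * (h ∘ fun q : E3 => q l) := rfl
  rw [e, this]
  simp
  ring

/-- a bump equal to one on `(y2, y3)` and to zero off `[y1, y4]` -/
structure Bump (y1 y2 y3 y4 : ℝ) (B B' B'' : ℝ → ℝ) (K : ℝ) : Prop where
  c1 : C1 B B'
  c2 : C1 B' B''
  zero : ∀ t, t ∉ Icc y1 y4 → B t = 0
  one : ∀ t ∈ Ioo y2 y3, B t = 1
  dz : ∀ t, (t ∈ Icc y1 y4 → t ∈ Ioo y2 y3) → B' t = 0
  b1 : ∀ t, |B' t| ≤ K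
  b2 : ∀ t, |B'' t| ≤ K

theorem exists_bump {y1 y2 y3 y4 : ℝ} (h12 : y1 < y2) (h23 : y2 < y3) (h34 : y3 < y4) :
    ∃ B B' B'' K, Bump y1 y2 y3 y4 B B' B'' K := by
  obtain ⟨P, P', P'', K1, hP⟩ := exists_step h12
  obtain ⟨Q, Q', Q'', K2, hQ⟩ := exists_step h34
  refine ⟨_, _, _, K1 + K2, hP.c1.sub hQ.c1, hP.c2.sub hQ.c2, fun t ht => ?_, fun t ht => ?_,
    fun t ht => ?_, fun t => (abs_sub _ _).trans (add_le_add (hP.b1 t) (hQ.b1 t)),
    fun t => (abs_sub _ _).trans (add_le_add (hP.b2 t) (hQ.b2 t))⟩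
  · rcases not_and_or.1 ht with h | h
    · have := not_le.1 h
      simp only [hP.zero t this.le, hQ.zero t (by linarith), sub_self]
    · have := not_le.1 h
      simp only [hP.one t (by linarith), hQ.one t this.le, sub_self]
  · simp only [hP.one t ht.1.le, hQ.zero t ht.2.le, sub_zero]
  · simp only [hP.dz t fun h => (ht ⟨h.1, by linarith [h.2]⟩).1.not_ge h.2,
      hQ.dz t fun h => (ht ⟨by linarith [h.1], h.2⟩).2.not_ge h.1, sub_self]

theorem toP_cs (q : E2) (i : Fin 2) : toP q i.castSucc = q i := by fin_cases i <;> rfl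

theorem prj_cs (p : E3) (i : Fin 2) : prj p i = p i.castSucc := by fin_cases i <;> simp

theorem e3_cs (i : Fin 2) : e3 2 i.castSucc = 0 := by fin_cases i <;> simp

theorem cross_cs {i j : Fin 2} (h : i ≠ j) : ∃ s : ℝ, s * s = 1 ∧ ∀ n : E3,
    crossR n (e3 i.castSucc) i.castSucc = 0 ∧ crossR n (e3 i.castSucc) j.castSucc = s * n 2 ∧
    crossR n (e3 j.castSucc) j.castSucc = 0 ∧ crossR n (e3 j.castSucc) i.castSucc = -s * n 2 := by
  fin_cases i <;> fin_cases j
  · exact absurd rfl h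
  · exact ⟨-1, by norm_num, fun n => by simp⟩
  · exact ⟨1, by norm_num, fun n => by simp⟩
  · exact absurd rfl h

variable {Γ : Set E2} {i j : Fin 2} {x1 x2 y1 y2 y3 y4 K K' : ℝ} {A A' A'' B B' B'' : ℝ → ℝ}

theorem dg (hR : Rect Γ i j x1 x2 y1 y2 y3 y4) (hA : Step x1 x2 A A' A'' K)
    (hB : Bump y1 y2 y3 y4 B B' B'' K') :
    Dg Γ (pr2 A' B' i.castSucc j.castSucc) (K * K' + K * K') := by
  have k0 : 0 ≤ K := (abs_nonneg _).trans (hA.b1 0)
  have k1 : 0 ≤ K' := (abs_nonneg _).trans (hB.b1 0)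
  refine ⟨contDiff_pr2 hA.c2 hB.c2 _ _, fun p => ContinuousLinearMap.opNorm_le_bound _
    (by positivity) fun u => ?_, fun p => ?_, fun q hq => ?_⟩
  · have hu : ∀ k, |u k| ≤ ‖u‖ := fun k => PiLp.norm_apply_le u k
    rw [fderiv_pr2 hA.c2 hB.c2, Real.norm_eq_abs, add_mul]
    refine (abs_add_le _ _).trans (add_le_add ?_ ?_)
    · rw [abs_mul, abs_mul]
      exact mul_le_mul (mul_le_mul (hA.b2 _) (hB.b1 _) (abs_nonneg _) k0) (hu _) (abs_nonneg _)
        (by positivity)
    · rw [abs_mul, abs_mul]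
      exact mul_le_mul (mul_le_mul (hA.b1 _) (hB.b2 _) (abs_nonneg _) k0) (hu _) (abs_nonneg _)
        (by positivity)
  · rw [fderiv_pr2 hA.c2 hB.c2, e3_cs, e3_cs, mul_zero, mul_zero, add_zero]
  · rw [pr2, toP_cs, toP_cs]
    by_cases h1 : q i ∈ Icc x1 x2
    · rw [hB.dz _ (hR.band q hq h1), mul_zero]
    · rw [hA.dz _ h1, zero_mul]

theorem deg (hSGN : S_SGN) (hSB : S_SB) (hSTK : S_STK) (hCRL : S_CRL) (hNU : S_NU)
    (hGOOD : S_GOOD) (hNUL : S_NUL) (hR : Rect Γ i j x1 x2 y1 y2 y3 y4) (hΓ : μH[1] Γ ≠ ⊤)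
    (hA : Step x1 x2 A A' A'' K) (hB : Bump y1 y2 y3 y4 B B' B'' K')
    (M : Type) [TopologicalSpace M] [ChartedSpace (EuclideanHalfSpace 2) M]
    [IsManifold (𝓡∂ 2) ∞ M] [MeasurableSpace M] [BorelSpace M] [CompactSpace M] [T2Space M]
    (f N : M → E3) (H : ℝ) (h : IsCMCw f N H) (hb : BijOn f (Bdy M) (toP '' Γ)) :
    |∫ z, pr2 A' B' i.castSucc j.castSucc z.1 * z.2 2 ∂(nu f N)| = 1 := by
  have hf1 : ContMDiff (𝓡∂ 2) 𝓘(ℝ, E3) 1 f := h.c1
  have hf := hf1.continuous
  obtain ⟨s, hs, hcr⟩ := cross_cs hR.ne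
  have d1 : ∀ m ∈ Bdy M, f m i.castSucc ∈ Icc x1 x2 → f m j.castSucc ∈ Icc y1 y4 →
      f m j.castSucc ∈ Ioo y2 y3 := fun m hm => by
    simpa only [prj_cs] using hR.band _ (bij_mem hb hm)
  have hsq : Ioo y2 y3 ⊆ Icc y1 y4 := Ioo_subset_Icc_self.trans (Icc_subset_Icc hR.h12.le hR.h34.le)
  have d2 : InjOn (fun m => f m i.castSucc)
      (Bdy M ∩ {m | f m i.castSucc ∈ Ioo x1 x2 ∧ f m j.castSucc ∈ Ioo y2 y3}) :=
    fun m hm m' hm' e => bij_inj hb hm.1 hm'.1 (hR.inj
      ⟨bij_mem hb hm.1, by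
        simpa only [mem_ofPred_eq, prj_cs] using ⟨Ioo_subset_Icc_self hm.2.1, hsq hm.2.2⟩⟩
      ⟨bij_mem hb hm'.1, by
        simpa only [mem_ofPred_eq, prj_cs] using ⟨Ioo_subset_Icc_self hm'.2.1, hsq hm'.2.2⟩⟩
      (by simpa only [prj_cs] using e))
  obtain ⟨x, hx, hxT⟩ : ∃ m ∈ Bdy M, f m i.castSucc ∈ Ioo x1 x2 ∧ f m j.castSucc ∈ Ioo y2 y3 := by
    obtain ⟨q0, hq0, hq1⟩ := hR.ex
    obtain ⟨x, hx, e⟩ := bij_surj hb hq0
    exact ⟨x, hx, by rwa [← prj_cs, ← prj_cs, e]⟩
  have hz : ∀ {S S' S'' : ℝ → ℝ} {a b K1 : ℝ}, Step a b S S' S'' K1 → x1 < a → b < x2 →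
      ∀ q ∈ Γ, pr2 (fun t => A t - S t) B' i.castSucc j.castSucc (toP q) = 0 := by
    intro S S' S'' a b K1 hS hlo hhi q hq
    rw [pr2, toP_cs, toP_cs]
    by_cases h1 : q i ∈ Icc x1 x2
    · rw [hB.dz _ (hR.band q hq h1), mul_zero]
    · rcases not_and_or.1 h1 with h2 | h2
      · rw [hA.zero _ (not_le.1 h2).le, hS.zero _ ((not_le.1 h2).le.trans hlo.le), sub_self,
          zero_mul]
      · rw [hA.one _ (not_le.1 h2).le, hS.one _ (hhi.le.trans (not_le.1 h2).le), sub_self,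
          zero_mul]
  generalize i.castSucc = k at *
  generalize j.castSucc = l at *
  obtain ⟨U, ε, hUx, hU⟩ := hSGN M f N H h x
  obtain ⟨v0, hv0, hg0⟩ := exists_gam (mem_extChartAt_source x) hx
  have hTo : IsOpen {m | f m k ∈ Ioo x1 x2 ∧ f m l ∈ Ioo y2 y3} :=
    (isOpen_Ioo.preimage (f := fun m => f m k) (by fun_prop)).inter
      (isOpen_Ioo.preimage (f := fun m => f m l) (by fun_prop))
  have hO := (continuousOn_gam x).isOpen_inter_preimage (isOpen_Vb x) (hU.op.inter hTo)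
  obtain ⟨p, q, hpq, hsub⟩ : ∃ p q, p < q ∧
      Icc p q ⊆ Vb x ∩ gam x ⁻¹' (U ∩ {m | f m k ∈ Ioo x1 x2 ∧ f m l ∈ Ioo y2 y3}) := by
    obtain ⟨δ, hδ, hs⟩ := Metric.nhds_basis_closedBall.mem_iff.1
      (hO.mem_nhds ⟨hv0, by rw [mem_preimage, hg0]; exact ⟨hUx, hxT⟩⟩)
    exact ⟨v0 - δ, v0 + δ, by linarith, by rwa [← Real.closedBall_eq_Icc]⟩
  have hgc : ContinuousOn (gam x) (Icc p q) := (continuousOn_gam x).mono fun v hv => (hsub hv).1
  have hKc : IsCompact (gam x '' Icc p q) := isCompact_Icc.image_of_continuousOn hgc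
  obtain ⟨η, η0, η1, η2⟩ := exists_contMDiffMap_zero_one_nhds_of_isClosed (𝓡∂ 2) (n := 1)
    hU.op.isClosed_compl hKc.isClosed (by
      rw [disjoint_compl_left_iff_subset]; rintro _ ⟨v, hv, rfl⟩; exact (hsub hv).2.1)
  set X : ℝ → ℝ := fun v => f (gam x v) k with hX
  have hXc : ContinuousOn X (Icc p q) :=
    (show Continuous fun m => f m k by fun_prop).comp_continuousOn hgc
  have hp : p ∈ Icc p q := left_mem_Icc.2 hpq.le
  have hq : q ∈ Icc p q := right_mem_Icc.2 hpq.le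
  have hne : X p ≠ X q := fun e => hpq.ne (injOn_gam x (hsub hp).1 (hsub hq).1
    (d2 ⟨gam_mem (hsub hp).1, (hsub hp).2.2⟩ ⟨gam_mem (hsub hq).1, (hsub hq).2.2⟩ e))
  obtain ⟨S, S', S'', K1, hS⟩ := exists_step (min_lt_max.2 hne)
  have hlo : x1 < min (X p) (X q) := lt_min (hsub hp).2.2.1.1 (hsub hq).2.2.1.1
  have hhi : max (X p) (X q) < x2 := max_lt (hsub hp).2.2.1.2 (hsub hq).2.2.1.2
  have hφ := contDiff_pr2 hS.c2 hB.c1 k l
  have hψ := contDiff_pr2 (hA.c1.sub hS.c1) hB.c2 k l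
  obtain ⟨hFld, hcurl⟩ := (hCRL M f N H h _ hφ (e3 k)).2
  have hW : ContMDiff (𝓡∂ 2) 𝓘(ℝ, E3) 1 fun m => pr2 S' B k l (f m) • e3 k :=
    (hφ.contMDiff.comp hf1).smul contMDiff_const
  set W : M → E3 := fun m => pr2 S' B k l (f m) • e3 k with hWd
  have hin : ∀ m ∈ Bdy M, m ∉ gam x '' Icc p q → W m = 0 := by
    intro m hm hn
    by_contra hw
    have h1 : S' (f m k) ≠ 0 := fun e => hw (by simp [hWd, pr2, e])
    have h2 : B (f m l) ≠ 0 := fun e => hw (by simp [hWd, pr2, e])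
    have h3 : f m k ∈ Icc (min (X p) (X q)) (max (X p) (X q)) := by
      by_contra h3; exact h1 (hS.dz _ h3)
    have h4 : f m k ∈ Ioo x1 x2 := ⟨hlo.trans_le h3.1, h3.2.trans_lt hhi⟩
    have h5 : f m l ∈ Ioo y2 y3 := d1 m hm (Ioo_subset_Icc_self h4) (by
      by_contra h5; exact h2 (hB.zero _ h5))
    have h6 := intermediate_value_uIcc (a := p) (b := q) (f := X) (by rwa [uIcc_of_le hpq.le])
    obtain ⟨v, hv, e⟩ := h6 h3
    rw [uIcc_of_le hpq.le] at hv
    exact hn ⟨v, hv, d2 ⟨gam_mem (hsub hv).1, (hsub hv).2.2⟩ ⟨hm, h4, h5⟩ e⟩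
  have hη2 : ContMDiff (𝓡∂ 2) 𝓘(ℝ, ℝ) 1 fun m => 1 - η m := contMDiff_const.sub η.contMDiff
  have hW1 : ContMDiff (𝓡∂ 2) 𝓘(ℝ, E3) 1 fun m => η m • W m := η.contMDiff.smul hW
  have hW2 : ContMDiff (𝓡∂ 2) 𝓘(ℝ, E3) 1 fun m => (1 - η m) • W m := hη2.smul hW
  have hsum : ∀ m, curlM f N (fun m => η m • W m) m
      = curlM f N W m - curlM f N (fun m => (1 - η m) • W m) m := fun m => by
    have := curlM_sum (f := f) (N := N) (Wi := ![fun m => η m • W m, fun m => (1 - η m) • W m]) hW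
      (fun i => by fin_cases i; exacts [hW1, hW2]) (fun m => by simp [← add_smul]) m
    rw [eq_sub_iff_add_eq]
    simpa using this.symm
  obtain ⟨i2, z2⟩ := hSTK M f N H h Γ hb hΓ W (fun m => 1 - η m) (fun m => ‖W m‖) 0 hFld hη2
    (fun m => sub_nonneg.2 (η2 m).2) hW.continuous.norm (fun m => norm_nonneg _)
    (fun m _ => le_rfl) le_rfl (fun m hm => by
      by_cases hk : m ∈ gam x '' Icc p q
      · rw [η1.self_of_nhdsSet m hk, sub_self, zero_mul]
      · rw [hin m hm hk, norm_zero, mul_zero])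
  rw [zero_mul, abs_nonpos_iff] at z2
  have z1 := (hSB M f N H h x U ε hU W η hFld η.contMDiff fun m hm => by
    by_contra hU
    exact notMem_tsupport_iff_eventuallyEq.2 (η0.filter_mono (nhds_le_nhdsSet hU)) hm).2
    hW.continuous
  have z3 : ∫ v, bd f (fun m => η m • W m) x v = S (X q) - S (X p) := by
    rw [← setIntegral_eq_integral_of_forall_compl_eq_zero (s := Icc p q) (fun v hv => by
      by_cases hv' : v ∈ Vb x
      · rw [bd_of_mem hv', hin _ (gam_mem hv') (fun ⟨w, hw, e⟩ =>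
          hv (injOn_gam x (hsub hw).1 hv' e ▸ hw))]
        simp
      · exact bd_of_notMem hv'), integral_Icc_eq_integral_Ioc,
      ← intervalIntegral.integral_of_le hpq.le,
      ← intervalIntegral.integral_eq_sub_of_hasDerivAt (f := fun v => S (X v))
        (f' := fun v => S' (X v) * tau f x v k)]
    · refine intervalIntegral.integral_congr fun v hv => ?_
      rw [uIcc_of_le hpq.le] at hv
      simp only
      rw [bd_of_mem (hsub hv).1, η1.self_of_nhdsSet _ ⟨v, hv, rfl⟩]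
      simp [hWd, pr2, inner_smul_left, e3, EuclideanSpace.inner_single_left,
        hB.one _ (hsub hv).2.2.2, hX]
    · intro v hv
      rw [uIcc_of_le hpq.le] at hv
      exact (hS.c1.hd _).comp v (hasDerivAt_gam' hf1 (hsub hv).1 k)
    · refine ContinuousOn.intervalIntegrable ?_
      rw [uIcc_of_le hpq.le]
      exact (hS.c1.hc.comp_continuousOn hXc).mul
        ((show Continuous fun u : E3 => u k by fun_prop).comp_continuousOn
          ((continuousOn_tau hf1 x).mono fun v hv => (hsub hv).1))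
  have z4 : |S (X q) - S (X p)| = 1 := by
    rcases le_total (X p) (X q) with e | e
    · rw [hS.one (X q) (max_le e le_rfl), hS.zero (X p) (le_min le_rfl e)]; simp
    · rw [hS.one (X p) (max_le le_rfl e), hS.zero (X q) (le_min e le_rfl)]; simp
  obtain ⟨hbd, hnu, -⟩ := hNU M f N H h
  obtain ⟨i0, z0⟩ := hnu _ (continuous_std hφ (e3 k))
  have hae : curlM f N W =ᵐ[area f] fun m => std (pr2 S' B k l) (e3 k) (f m, N m) := by
    filter_upwards [measure_eq_zero_iff_ae_notMem.1 (hNUL M f hf1)] with m hm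
    exact hcurl m (int_iff_not_bdy.2 hm)
  have z5 : |∫ z, std (pr2 S' B k l) (e3 k) z ∂(nu f N)| = 1 := by
    simp only [hsum] at z1
    rw [integral_sub (i0.congr hae.symm) i2, z2, sub_zero, integral_congr_ae hae, ← z0] at z1
    rw [z1, z3, abs_mul, abs_neg, hU.abs, z4, one_mul]
  have z6 := (hGOOD M f N H h Γ hb hΓ).st _ hψ (e3 l) (hz hS hlo hhi)
  have z7 : ∀ z : E3 × E3, pr2 A' B' k l z.1 * z.2 2 = s * std (pr2 S' B k l) (e3 k) z
      - s * std (pr2 (fun t => A t - S t) B' k l) (e3 l) z := fun z => by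
    obtain ⟨c1, c2, c3, c4⟩ := hcr z.2
    rw [std, std, fderiv_pr2 hS.c2 hB.c1, fderiv_pr2 (hA.c1.sub hS.c1) hB.c2, c1, c2, c3, c4, pr2]
    linear_combination (-(A' (z.1 k) * B' (z.1 l) * z.2 2)) * hs
  simp only [z7]
  rw [integral_sub ((hbd.integrable (continuous_std hφ _)).const_mul s)
    ((hbd.integrable (continuous_std hψ _)).const_mul s), integral_const_mul, integral_const_mul,
    z6, mul_zero, sub_zero, abs_mul, z5, mul_one]
  rcases mul_self_eq_one_iff.1 hs with e | e <;> simp [e]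

end DegA

theorem p_DEG (hSGN : S_SGN) (hSB : S_SB) (hSTK : S_STK) (hCRL : S_CRL) (hNU : S_NU)
    (hGOOD : S_GOOD) (hNUL : S_NUL) : S_DEG := by
  intro Γ i j x1 x2 y1 y2 y3 y4 hR hΓ
  obtain ⟨A, A', A'', K, hA⟩ := exists_step hR.hx
  obtain ⟨B, B', B'', K', hB⟩ := DegA.exists_bump hR.h12 hR.h23 hR.h34
  exact ⟨_, _, DegA.dg hR hA hB, fun M _ _ _ _ _ _ _ f N H h hb =>
    DegA.deg hSGN hSB hSTK hCRL hNU hGOOD hNUL hR hΓ hA hB M f N H h hb⟩

end Pool.Agent.P.MP_a07190_gt.Wk

end
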