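import Pool.Agent.P.MP_a07190_gt.Defs

open scoped Manifold ContDiff RealInnerProductSpace
open Set MeasureTheory

namespace Pool.Agent.P.MP_a07190_gt.Wk

/-- `f` is `C¹` on the surface with boundary `M` (its differential may degenerate at boundary
points); on the interior of `M` it is a `C²` immersion with `C¹` unit normal `N` and constant mean
curvature `H`. Nothing is asked of `N` on the boundary. -/
structure IsCMCw {M : Type*} [TopologicalSpace M] [ChartedSpace (EuclideanHalfSpace 2) M]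
    (f N : M → E3) (H : ℝ) : Prop where
  c1 : IsCn 1 f
  c2 : ContMDiffOn (𝓡∂ 2) 𝓘(ℝ, E3) 2 f ((𝓡∂ 2).interior M)
  immersion : ∀ m ∈ (𝓡∂ 2).interior M, Function.Injective (dif f m)
  normal_c1 : ContMDiffOn (𝓡∂ 2) 𝓘(ℝ, E3) 1 N ((𝓡∂ 2).interior M)
  unit : ∀ m ∈ (𝓡∂ 2).interior M, ‖N m‖ = 1
  perp : ∀ m ∈ (𝓡∂ 2).interior M, ∀ v, ⟪N m, dif f m v⟫ = 0
  cmc : ∀ m ∈ (𝓡∂ 2).interior M, meanCurv f N m = H

/-- There is `V₀ > 0` such that the image of every compact surface of constant mean curvature with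
boundary the planar set `Γ` and algebraic volume less than `V₀` has the property `P`. -/
def SmallVol (Γ : Set E2) (P : Set E3 → Prop) : Prop :=
  ∃ V₀ : ℝ, 0 < V₀ ∧ ∀ (M : Type) [TopologicalSpace M] [ChartedSpace (EuclideanHalfSpace 2) M]
    [IsManifold (𝓡∂ 2) ∞ M] [MeasurableSpace M] [BorelSpace M] [CompactSpace M] [T2Space M]
    (f N : M → E3) (H : ℝ), IsCMCw f N H → BijOn f ((𝓡∂ 2).boundary M) (toP '' Γ) →
    algVol f N < V₀ → P (range f)

end Pool.Agent.P.MP_a07190_gt.Wk
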