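import Pool.Agent.P.MP_a07190_gt.Rot
import Pool.Agent.P.MP_a07190_gt.Wk.Defs

/-!
Small volume surfaces of constant mean curvature with weak boundary regularity and arbitrary planar
boundary: the steps of the proof.
-/

open scoped Manifold ContDiff RealInnerProductSpace Topology
open Set MeasureTheory Filter

namespace Pool.Agent.P.MP_a07190_gt.Wk

/-! ### Calculus at interior points -/

section chart

variable {M : Type*} [TopologicalSpace M] [ChartedSpace (EuclideanHalfSpace 2) M]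

/-- the interior of the surface -/
abbrev Inn (M : Type*) [TopologicalSpace M] [ChartedSpace (EuclideanHalfSpace 2) M] : Set M :=
  (𝓡∂ 2).interior M

/-- the boundary of the surface -/
abbrev Bdy (M : Type*) [TopologicalSpace M] [ChartedSpace (EuclideanHalfSpace 2) M] : Set M :=
  (𝓡∂ 2).boundary M

/-- the part of the target of the chart at `x` that corresponds to interior points -/
def Tp (x : M) : Set E2 := {y | y ∈ (ch x).target ∧ 0 < y 0}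

theorem isOpen_Tp (x : M) : IsOpen (Tp x) := by
  rw [isOpen_iff_mem_nhds]
  intro y hy
  have h : IsOpen {z : E2 | 0 < z 0} := isOpen_lt continuous_const (by fun_prop)
  filter_upwards [tgt_mem_nhds hy.1 hy.2, h.mem_nhds hy.2] with z h1 h2 using ⟨h1, h2⟩

theorem int_iff_not_bdy {m : M} : m ∈ Inn M ↔ m ∉ Bdy M := by
  rw [Inn, ← (𝓡∂ 2).compl_boundary]; rfl

variable [IsManifold (𝓡∂ 2) ∞ M]

theorem isOpen_Inn : IsOpen (Inn M) := (𝓡∂ 2).isOpen_interior (n := ∞) (by simp)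

theorem isClosed_Bdy : IsClosed (Bdy M) := (𝓡∂ 2).isClosed_boundary (n := ∞) (by simp)

theorem int_iff {x : M} {y : E2} (hy : y ∈ (ch x).target) : (ch x).symm y ∈ Inn M ↔ 0 < y 0 := by
  rw [int_iff_not_bdy, bdry_iff hy]
  exact ⟨fun h => lt_of_le_of_ne (tgt_nonneg hy) (Ne.symm h), fun h => h.ne'⟩

theorem symm_mem {x : M} {y : E2} (hy : y ∈ Tp x) : (ch x).symm y ∈ Inn M := (int_iff hy.1).2 hy.2

theorem mem_Tp {x m : M} (hm : m ∈ (ch x).source) (hi : m ∈ Inn M) : ch x m ∈ Tp x :=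
  ⟨(ch x).map_source hm, (int_iff ((ch x).map_source hm)).1 (by rwa [(ch x).left_inv hm])⟩

theorem mdiffAt {F : Type*} [NormedAddCommGroup F] [NormedSpace ℝ F] {g : M → F}
    (hg : ContMDiffOn (𝓡∂ 2) 𝓘(ℝ, F) 1 g (Inn M)) {m : M} (hm : m ∈ Inn M) :
    MDifferentiableAt (𝓡∂ 2) 𝓘(ℝ, F) g m :=
  (hg.contMDiffAt (isOpen_Inn.mem_nhds hm)).mdifferentiableAt one_ne_zero

theorem contDiffOn_Tp1 {F : Type*} [NormedAddCommGroup F] [NormedSpace ℝ F] {g : M → F}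
    (hg : ContMDiffOn (𝓡∂ 2) 𝓘(ℝ, F) 1 g (Inn M)) (x : M) :
    ContDiffOn ℝ 1 (g ∘ (ch x).symm) (Tp x) :=
  (hg.comp ((contMDiffOn_extChartAt_symm x).mono fun _ hy => hy.1)
    fun _ hy => symm_mem hy).contDiffOn

theorem contDiffOn_Tp2 {F : Type*} [NormedAddCommGroup F] [NormedSpace ℝ F] {g : M → F}
    (hg : ContMDiffOn (𝓡∂ 2) 𝓘(ℝ, F) 2 g (Inn M)) (x : M) :
    ContDiffOn ℝ 2 (g ∘ (ch x).symm) (Tp x) :=
  (hg.comp ((contMDiffOn_extChartAt_symm x).mono fun _ hy => hy.1)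
    fun _ hy => symm_mem hy).contDiffOn

theorem hasFD_Tp {g : M → E3} (hg : ContMDiffOn (𝓡∂ 2) 𝓘(ℝ, E3) 1 g (Inn M)) {x : M} {y : E2}
    (hy : y ∈ Tp x) :
    HasFDerivAt (g ∘ (ch x).symm) ((dif g ((ch x).symm y)).comp (chA x y)) y :=
  (hasFD_chain hy.1 (mdiffAt hg (symm_mem hy))).hasFDerivAt (range_mem_nhds hy.2)

theorem chartDif_Tp {g : M → E3} (hg : ContMDiffOn (𝓡∂ 2) 𝓘(ℝ, E3) 1 g (Inn M)) {x : M} {y : E2}
    (hy : y ∈ Tp x) : chartDif g x y = (dif g ((ch x).symm y)).comp (chA x y) :=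
  (hasFD_Tp hg hy).hasFDerivWithinAt.fderivWithin (uniq hy.1)

theorem hasFD_Tp' {g : M → E3} (hg : ContMDiffOn (𝓡∂ 2) 𝓘(ℝ, E3) 1 g (Inn M)) {x : M} {y : E2}
    (hy : y ∈ Tp x) : HasFDerivAt (g ∘ (ch x).symm) (chartDif g x y) y := by
  rw [chartDif_Tp hg hy]; exact hasFD_Tp hg hy

theorem hasFD_int {g : M → E3} (hg : ContMDiffOn (𝓡∂ 2) 𝓘(ℝ, E3) 1 g (Inn M)) {m : M}
    (hm : m ∈ Inn M) : HasFDerivAt (g ∘ (ch m).symm) (dif g m) (ch m m) := by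
  have e : dif g m = chartDif g m (ch m m) := by
    rw [dif, (mdiffAt hg hm).mfderiv]
    simp [chartDif, writtenInExtChartAt]
  rw [e]
  exact hasFD_Tp' hg (mem_Tp (mem_extChartAt_source m) hm)

theorem curlM_Tp {f N W : M → E3} (hf : ContMDiff (𝓡∂ 2) 𝓘(ℝ, E3) 1 f)
    (hW : ContMDiffOn (𝓡∂ 2) 𝓘(ℝ, E3) 1 W (Inn M)) {x : M} {y : E2} (hy : y ∈ Tp x) :
    curlM f N W ((ch x).symm y)
      = num (chartDif W x y) (chartDif f x y) / den (chartDif f x y) (N ((ch x).symm y)) := by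
  rw [chartDif_eq hf hy.1, chartDif_Tp hW hy, num_comp, den_comp,
    mul_div_mul_left _ _ (det2_ne_zero (chA_inv hy.1)), curlM]

theorem curlM_sum_int {f N W : M → E3} {ι : Type*} [Fintype ι] {Wi : ι → M → E3}
    (hW : ContMDiffOn (𝓡∂ 2) 𝓘(ℝ, E3) 1 W (Inn M))
    (hWi : ∀ i, ContMDiffOn (𝓡∂ 2) 𝓘(ℝ, E3) 1 (Wi i) (Inn M))
    (h : ∀ m, W m = ∑ i, Wi i m) {m : M} (hm : m ∈ Inn M) :
    curlM f N W m = ∑ i, curlM f N (Wi i) m := by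
  have h1 : dif W m = ∑ i, dif (Wi i) m := by
    refine (hasFD_int hW hm).unique ?_
    have := HasFDerivAt.fun_sum (u := Finset.univ) fun i _ => hasFD_int (hWi i) hm
    have e : W ∘ (ch m).symm = fun y => ∑ i, (Wi i ∘ (ch m).symm) y := funext fun y => h _
    rw [e]; exact this
  simp only [curlM, h1, num, sum_apply, sum_inner, ← Finset.sum_sub_distrib,
    Finset.sum_div]

theorem continuousOn_of_Tp {g : M → ℝ}
    (h : ∀ x : M, ContinuousOn (fun y => g ((ch x).symm y)) (Tp x)) : ContinuousOn g (Inn M) := by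
  intro x hx
  have h1 : ContinuousOn g ((ch x).source ∩ Inn M) :=
    ((h x).comp ((continuousOn_extChartAt x).mono inter_subset_left)
      (fun m hm => mem_Tp hm.1 hm.2)).congr
      fun m hm => by simp only [Function.comp_apply, (ch x).left_inv hm.1]
  exact (h1.continuousAt (inter_mem (extChartAt_source_mem_nhds x)
    (isOpen_Inn.mem_nhds hx))).continuousWithinAt

theorem continuousOn_chartDif_Tp {g : M → E3} (hg : ContMDiffOn (𝓡∂ 2) 𝓘(ℝ, E3) 1 g (Inn M))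
    (x : M) : ContinuousOn (chartDif g x) (Tp x) :=
  ((contDiffOn_Tp1 hg x).continuousOn_fderiv_of_isOpen (isOpen_Tp x) le_rfl).congr
    fun _ hy => (hasFD_Tp' hg hy).fderiv.symm

variable {f N : M → E3} {H : ℝ}

theorem IsCMCw.perp_ch (h : IsCMCw f N H) {x : M} {y : E2} (hy : y ∈ Tp x) (v : E2) :
    ⟪N ((ch x).symm y), chartDif f x y v⟫ = 0 := by
  rw [chartDif_eq h.c1 hy.1]; exact h.perp _ (symm_mem hy) _

theorem IsCMCw.inj_ch (h : IsCMCw f N H) {x : M} {y : E2} (hy : y ∈ Tp x) :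
    Function.Injective (chartDif f x y) := by
  rw [chartDif_eq h.c1 hy.1]
  exact (h.immersion _ (symm_mem hy)).comp (chA_inv hy.1).injective

/-- the boundary integrand on the line `y 0 = s` of the chart at `x` -/
noncomputable def Qf (f W : M → E3) (ρ : M → ℝ) (x : M) (y : E2) : ℝ :=
  (ch x).target.indicator
    (fun y => ρ ((ch x).symm y) * ⟪W ((ch x).symm y), chartDif f x y (ev 1)⟫) y

/-- a bounded field on the interior with bounded curl -/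
structure Fld (f N W : M → E3) : Prop where
  c1 : ContMDiffOn (𝓡∂ 2) 𝓘(ℝ, E3) 1 W (Inn M)
  bdd : ∃ C : ℝ, ∀ m ∈ Inn M, ‖W m‖ ≤ C ∧ |curlM f N W m| ≤ C

/-- an open set inside the chart at `x` on which the orientation sign is `ε` -/
structure Sgn (f N : M → E3) (x : M) (U : Set M) (ε : ℝ) : Prop where
  op : IsOpen U
  sub : U ⊆ (ch x).source
  abs : |ε| = 1
  eq : ∀ y ∈ Tp x, (ch x).symm y ∈ U →
    jac (chartDif f x y) = ε * den (chartDif f x y) (N ((ch x).symm y))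

/-- the image of the area measure under position and normal -/
noncomputable def nu [MeasurableSpace M] (f N : M → E3) : Measure (E3 × E3) :=
  Measure.map (fun m => (f m, N m)) (area f)

end chart

/-! ### Measures on positions and normals -/

/-- density of the first variation for the field `φ v` -/
noncomputable def fvd (H : ℝ) (φ : E3 → ℝ) (v : E3) (z : E3 × E3) : ℝ :=
  fderiv ℝ φ z.1 v - fderiv ℝ φ z.1 z.2 * ⟪v, z.2⟫ + 2 * H * φ z.1 * ⟪v, z.2⟫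

/-- density of the exterior derivative of the form `φ v · dp` -/
noncomputable def std (φ : E3 → ℝ) (v : E3) (z : E3 × E3) : ℝ := fderiv ℝ φ z.1 (crossR z.2 v)

structure Bd (ν : Measure (E3 × E3)) : Prop where
  fin : IsFiniteMeasure ν
  bdd : ∃ R : ℝ, ∀ᵐ z ∂ν, ‖z.1‖ ≤ R
  unit : ∀ᵐ z ∂ν, ‖z.2‖ = 1

theorem Bd.integrable {ν : Measure (E3 × E3)} (h : Bd ν) {F : E3 × E3 → ℝ} (hF : Continuous F) :
    Integrable F ν := by
  have := h.fin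
  obtain ⟨R, hR⟩ := h.bdd
  obtain ⟨C, hC⟩ := ((isCompact_closedBall (0 : E3) R).prod
    (isCompact_closedBall (0 : E3) 1)).exists_bound_of_continuousOn hF.continuousOn
  refine Integrable.of_bound hF.aestronglyMeasurable C ?_
  filter_upwards [hR, h.unit] with z h1 h2
  exact hC z ⟨by simpa using h1, by simpa using h2.le⟩

theorem continuous_fvd (H : ℝ) {φ : E3 → ℝ} (hφ : ContDiff ℝ 1 φ) (v : E3) :
    Continuous (fvd H φ v) := by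
  have h1 : Continuous fun z : E3 × E3 => fderiv ℝ φ z.1 :=
    (hφ.continuous_fderiv one_ne_zero).comp continuous_fst
  have h2 := hφ.continuous
  exact ((h1.clm_apply continuous_const).sub ((h1.clm_apply continuous_snd).mul
    (by fun_prop))).add (by fun_prop)

theorem continuous_std {φ : E3 → ℝ} (hφ : ContDiff ℝ 1 φ) (v : E3) : Continuous (std φ v) := by
  have h1 : Continuous fun z : E3 × E3 => fderiv ℝ φ z.1 :=
    (hφ.continuous_fderiv one_ne_zero).comp continuous_fst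
  have e : std φ v = fun z => z.2 1 * (v 0 * fderiv ℝ φ z.1 (e3 2) - v 2 * fderiv ℝ φ z.1 (e3 0))
      + z.2 2 * (v 1 * fderiv ℝ φ z.1 (e3 0) - v 0 * fderiv ℝ φ z.1 (e3 1))
      + z.2 0 * (v 2 * fderiv ℝ φ z.1 (e3 1) - v 1 * fderiv ℝ φ z.1 (e3 2)) := by
    funext z
    rw [std, map_decomp3]
    simp only [crossR_0, crossR_1, crossR_2]
    ring
  have h2 := fun i => h1.clm_apply (continuous_const (y := e3 i))
  rw [e]
  have := h2 0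
  have := h2 1
  have := h2 2
  fun_prop

/-- first variation and Stokes formula, with boundary on `Γ` of length at most `L` -/
structure Good (Γ : Set E2) (L H : ℝ) (ν : Measure (E3 × E3)) : Prop where
  bd : Bd ν
  fv : ∀ φ : E3 → ℝ, ContDiff ℝ 1 φ → ∀ (v : E3) (c : ℝ), 0 ≤ c → (∀ q ∈ Γ, |φ (toP q)| ≤ c) →
    |∫ z, fvd H φ v z ∂ν| ≤ c * ‖v‖ * L
  st : ∀ φ : E3 → ℝ, ContDiff ℝ 1 φ → ∀ v : E3, (∀ q ∈ Γ, φ (toP q) = 0) →
    ∫ z, std φ v z ∂ν = 0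

/-- the first variation vanishes away from `K` -/
def Fz (K : Set E2) (H : ℝ) (ν : Measure (E3 × E3)) : Prop :=
  ∀ φ : E3 → ℝ, ContDiff ℝ 1 φ → ∀ v : E3, (∀ q ∈ K, φ (toP q) = 0) → ∫ z, fvd H φ v z ∂ν = 0

theorem Good.fz {Γ K : Set E2} {L H : ℝ} {ν : Measure (E3 × E3)} (h : Good Γ L H ν)
    (hK : Γ ⊆ K) : Fz K H ν := fun φ hφ v h0 => by
  simpa using h.fv φ hφ v 0 le_rfl fun q hq => by simp [h0 q (hK hq)]

noncomputable def volN (ν : Measure (E3 × E3)) : ℝ := 1 / 3 * |∫ z, ⟪z.1, z.2⟫ ∂ν|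

noncomputable def excN (ν : Measure (E3 × E3)) : ℝ := ∫ z, (1 - z.2 2 ^ 2) ∂ν

/-- small mean curvature, small tilt excess, bounded area -/
structure Sm (ε A H : ℝ) (ν : Measure (E3 × E3)) : Prop where
  h : |H| ≤ ε
  e : excN ν ≤ ε
  a : ν.real univ ≤ A

/-- a lower density bound at `p` -/
def Dens (ν : Measure (E3 × E3)) (p : E3) : Prop :=
  ∀ σ1 : ℝ, 0 < σ1 → ∃ σ : ℝ, 0 < σ ∧ σ ≤ σ1 ∧ σ ^ 2 / 4 ≤ ν.real {z | dist z.1 p ≤ σ}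

/-- a test function of the two horizontal variables that vanishes on `Γ` -/
structure Dg (Γ : Set E2) (g : E3 → ℝ) (K : ℝ) : Prop where
  c1 : ContDiff ℝ 1 g
  bdd : ∀ p, ‖fderiv ℝ g p‖ ≤ K
  vert : ∀ p, fderiv ℝ g p (e3 2) = 0
  zero : ∀ q ∈ Γ, g (toP q) = 0

/-- a rectangle crossed by `Γ` as a graph over the `i`-th axis, inside the band `(y2, y3)` -/
structure Rect (Γ : Set E2) (i j : Fin 2) (x1 x2 y1 y2 y3 y4 : ℝ) : Prop where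
  ne : i ≠ j
  hx : x1 < x2
  h12 : y1 < y2
  h23 : y2 < y3
  h34 : y3 < y4
  band : ∀ q ∈ Γ, q i ∈ Icc x1 x2 → q j ∈ Icc y1 y4 → q j ∈ Ioo y2 y3
  inj : InjOn (fun q : E2 => q i) (Γ ∩ {q | q i ∈ Icc x1 x2 ∧ q j ∈ Icc y1 y4})
  ex : ∃ q ∈ Γ, q i ∈ Ioo x1 x2 ∧ q j ∈ Ioo y2 y3

/-- a bump of radius `r` -/
noncomputable def bmp (r t : ℝ) : ℝ := max 0 (r ^ 2 - t ^ 2) ^ 2

/-- a bump on the vertical cylinder over the square of centre `y` and half side `r` -/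
noncomputable def g2 (r : ℝ) (y : E2) (p : E3) : ℝ := bmp r (p 0 - y 0) * bmp r (p 1 - y 1)

/-- there is little area over the square of centre `y` and half side `r` -/
def Lit (K : Set E2) (A : ℝ) (y : E2) (r : ℝ) : Prop :=
  ∀ δ : ℝ, 0 < δ → ∃ ε : ℝ, 0 < ε ∧ ∀ (H : ℝ) (ν : Measure (E3 × E3)), Bd ν → Fz K H ν →
    Sm ε A H ν → ∫ z, g2 r y z.1 ∂ν ≤ δ

/-! ### Statements: the plane -/

def S_GRN : Prop := ∀ (P Q D : E2 → ℝ) (R : ℝ), 0 < R →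
  (∀ y : E2, 0 < y 0 → DifferentiableAt ℝ P y ∧ DifferentiableAt ℝ Q y ∧
    D y = fderiv ℝ Q y (ev 0) - fderiv ℝ P y (ev 1)) →
  ContinuousOn D {y | 0 < y 0} → IntegrableOn D {y | 0 < y 0} →
  (∀ y : E2, 0 < y 0 → R ≤ ‖y‖ → P y = 0 ∧ Q y = 0 ∧ D y = 0) →
  Tendsto (fun s : ℝ => -∫ v, Q (pt (s, v))) (𝓝[>] 0) (𝓝 (∫ y in {y : E2 | 0 < y 0}, D y))

def S_LIM : Prop := ∀ (b : E2 → ℝ) (R : ℝ), ContinuousOn b {y | 0 ≤ y 0} →
  (∀ y : E2, 0 ≤ y 0 → R ≤ ‖y‖ → b y = 0) →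
  (∀ s : ℝ, 0 ≤ s → Integrable fun v => b (pt (s, v))) ∧
    Tendsto (fun s : ℝ => ∫ v, b (pt (s, v))) (𝓝[>] 0) (𝓝 (∫ v, b (pt (0, v))))

def S_CVX : Prop := ∀ K1 K2 : Set E2, Convex ℝ K1 → IsCompact K1 → Convex ℝ K2 → IsCompact K2 →
  Disjoint K1 K2 → IsPreconnected (K1 ∪ K2)ᶜ

/-! ### Statements: the surface -/

def S_NUL : Prop := ∀ (M : Type) [TopologicalSpace M] [ChartedSpace (EuclideanHalfSpace 2) M]
  [IsManifold (𝓡∂ 2) ∞ M] [MeasurableSpace M] [BorelSpace M] [CompactSpace M] [T2Space M]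
  (f : M → E3), ContMDiff (𝓡∂ 2) 𝓘(ℝ, E3) 1 f → area f (Bdy M) = 0

def S_INT : Prop := ∀ (M : Type) [TopologicalSpace M] [ChartedSpace (EuclideanHalfSpace 2) M]
  [IsManifold (𝓡∂ 2) ∞ M] [MeasurableSpace M] [BorelSpace M] [CompactSpace M] [T2Space M]
  (f : M → E3), ContMDiff (𝓡∂ 2) 𝓘(ℝ, E3) 1 f → ∀ (x : M) (g : M → ℝ),
  ContinuousOn g (Inn M) → (∀ m ∈ Inn M, m ∉ (ch x).source → g m = 0) →
  IntegrableOn (fun y => jac (chartDif f x y) * g ((ch x).symm y)) (Tp x) →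
  Integrable g (area f) ∧
    ∫ m, g m ∂(area f) = ∫ y in Tp x, jac (chartDif f x y) * g ((ch x).symm y)

def S_SGN : Prop := ∀ (M : Type) [TopologicalSpace M] [ChartedSpace (EuclideanHalfSpace 2) M]
  [IsManifold (𝓡∂ 2) ∞ M] (f N : M → E3) (H : ℝ), IsCMCw f N H → ∀ x : M,
  ∃ (U : Set M) (ε : ℝ), x ∈ U ∧ Sgn f N x U ε

def S_CRL : Prop := ∀ (M : Type) [TopologicalSpace M] [ChartedSpace (EuclideanHalfSpace 2) M]
  [IsManifold (𝓡∂ 2) ∞ M] [CompactSpace M] (f N : M → E3) (H : ℝ), IsCMCw f N H →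
  ∀ φ : E3 → ℝ, ContDiff ℝ 1 φ → ∀ v : E3,
  (Fld f N (fun m => φ (f m) • crossR v (N m)) ∧ ∀ m ∈ Inn M,
    curlM f N (fun m => φ (f m) • crossR v (N m)) m = fvd H φ v (f m, N m) ∧
      ‖φ (f m) • crossR v (N m)‖ ≤ |φ (f m)| * ‖v‖) ∧
  (Fld f N (fun m => φ (f m) • v) ∧ ∀ m ∈ Inn M,
    curlM f N (fun m => φ (f m) • v) m = std φ v (f m, N m))

def S_SCH : Prop := ∀ (M : Type) [TopologicalSpace M] [ChartedSpace (EuclideanHalfSpace 2) M]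
  [IsManifold (𝓡∂ 2) ∞ M] [MeasurableSpace M] [BorelSpace M] [CompactSpace M] [T2Space M]
  (f N : M → E3) (H : ℝ), IsCMCw f N H → ∀ (x : M) (U : Set M) (ε : ℝ), Sgn f N x U ε →
  ∀ (W : M → E3) (ρ : M → ℝ), Fld f N W → ContMDiff (𝓡∂ 2) 𝓘(ℝ, ℝ) 1 ρ → tsupport ρ ⊆ U →
  Integrable (curlM f N fun m => ρ m • W m) (area f) ∧
    Tendsto (fun s : ℝ => -ε * ∫ v, Qf f W ρ x (pt (s, v))) (𝓝[>] 0)
      (𝓝 (∫ m, curlM f N (fun m => ρ m • W m) m ∂(area f)))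

def S_SB : Prop := ∀ (M : Type) [TopologicalSpace M] [ChartedSpace (EuclideanHalfSpace 2) M]
  [IsManifold (𝓡∂ 2) ∞ M] [MeasurableSpace M] [BorelSpace M] [CompactSpace M] [T2Space M]
  (f N : M → E3) (H : ℝ), IsCMCw f N H → ∀ (x : M) (U : Set M) (ε : ℝ), Sgn f N x U ε →
  ∀ (W : M → E3) (ρ : M → ℝ), Fld f N W → ContMDiff (𝓡∂ 2) 𝓘(ℝ, ℝ) 1 ρ → tsupport ρ ⊆ U →
  (∀ a : M → ℝ, Continuous a → (∀ m, 0 ≤ a m) → (∀ m ∈ Inn M, ‖W m‖ ≤ a m) → (∀ m, 0 ≤ ρ m) →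
    ‖∫ m, curlM f N (fun m => ρ m • W m) m ∂(area f)‖ₑ
      ≤ ∫⁻ v in Vb x, ENNReal.ofReal (ρ (gam x v) * a (gam x v) * ‖tau f x v‖)) ∧
  (Continuous W → ∫ m, curlM f N (fun m => ρ m • W m) m ∂(area f)
      = -ε * ∫ v, bd f (fun m => ρ m • W m) x v)

def S_TV : Prop := ∀ (M : Type) [TopologicalSpace M] [ChartedSpace (EuclideanHalfSpace 2) M]
  [IsManifold (𝓡∂ 2) ∞ M] [CompactSpace M] [T2Space M]
  (f : M → E3), ContMDiff (𝓡∂ 2) 𝓘(ℝ, E3) 1 f → ∀ Γ : Set E2, BijOn f (Bdy M) (toP '' Γ) →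
  ∀ (ι : Type) [Fintype ι] (c : ι → M) (ρ : ι → M → ℝ), (∀ i, Continuous (ρ i)) →
  (∀ i m, 0 ≤ ρ i m) → (∀ m, ∑ i, ρ i m = 1) →
  ∑ i, ∫⁻ v in Vb (c i), ENNReal.ofReal (ρ i (gam (c i) v) * ‖tau f (c i) v‖) ≤ 2 * μH[1] Γ

def S_STK : Prop := ∀ (M : Type) [TopologicalSpace M] [ChartedSpace (EuclideanHalfSpace 2) M]
  [IsManifold (𝓡∂ 2) ∞ M] [MeasurableSpace M] [BorelSpace M] [CompactSpace M] [T2Space M]
  (f N : M → E3) (H : ℝ), IsCMCw f N H → ∀ Γ : Set E2, BijOn f (Bdy M) (toP '' Γ) →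
  μH[1] Γ ≠ ⊤ → ∀ (W : M → E3) (η a : M → ℝ) (c : ℝ), Fld f N W →
  ContMDiff (𝓡∂ 2) 𝓘(ℝ, ℝ) 1 η → (∀ m, 0 ≤ η m) → Continuous a →
  (∀ m, 0 ≤ a m) → (∀ m ∈ Inn M, ‖W m‖ ≤ a m) → 0 ≤ c → (∀ m ∈ Bdy M, η m * a m ≤ c) →
  Integrable (curlM f N fun m => η m • W m) (area f) ∧
    |∫ m, curlM f N (fun m => η m • W m) m ∂(area f)| ≤ c * (2 * (μH[1] Γ).toReal)

def S_NU : Prop := ∀ (M : Type) [TopologicalSpace M] [ChartedSpace (EuclideanHalfSpace 2) M]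
  [IsManifold (𝓡∂ 2) ∞ M] [MeasurableSpace M] [BorelSpace M] [CompactSpace M] [T2Space M]
  (f N : M → E3) (H : ℝ), IsCMCw f N H → Bd (nu f N) ∧
  (∀ F : E3 × E3 → ℝ, Continuous F → Integrable (fun m => F (f m, N m)) (area f) ∧
    ∫ z, F z ∂(nu f N) = ∫ m, F (f m, N m) ∂(area f)) ∧
  ∀ m ∈ Inn M, Dens (nu f N) (f m)

def S_GOOD : Prop := ∀ (M : Type) [TopologicalSpace M] [ChartedSpace (EuclideanHalfSpace 2) M]
  [IsManifold (𝓡∂ 2) ∞ M] [MeasurableSpace M] [BorelSpace M] [CompactSpace M] [T2Space M]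
  (f N : M → E3) (H : ℝ), IsCMCw f N H → ∀ Γ : Set E2, BijOn f (Bdy M) (toP '' Γ) →
  μH[1] Γ ≠ ⊤ → Good Γ (2 * (μH[1] Γ).toReal) H (nu f N)

def S_HF : Prop := ∀ (M : Type) [TopologicalSpace M] [ChartedSpace (EuclideanHalfSpace 2) M]
  [IsManifold (𝓡∂ 2) ∞ M] [CompactSpace M] [T2Space M]
  (f : M → E3), ContMDiff (𝓡∂ 2) 𝓘(ℝ, E3) 1 f → ∀ Γ : Set E2, BijOn f (Bdy M) (toP '' Γ) →
  μH[1] Γ ≠ ⊤

def S_REC : Prop := ∀ (M : Type) [TopologicalSpace M] [ChartedSpace (EuclideanHalfSpace 2) M]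
  [IsManifold (𝓡∂ 2) ∞ M] [CompactSpace M] [T2Space M]
  (f : M → E3), ContMDiff (𝓡∂ 2) 𝓘(ℝ, E3) 1 f → ∀ Γ : Set E2, BijOn f (Bdy M) (toP '' Γ) →
  Γ.Nonempty → ∃ i j x1 x2 y1 y2 y3 y4, Rect Γ i j x1 x2 y1 y2 y3 y4

def S_DEG : Prop := ∀ (Γ : Set E2) (i j : Fin 2) (x1 x2 y1 y2 y3 y4 : ℝ),
  Rect Γ i j x1 x2 y1 y2 y3 y4 → μH[1] Γ ≠ ⊤ → ∃ (g : E3 → ℝ) (K : ℝ), Dg Γ g K ∧
  ∀ (M : Type) [TopologicalSpace M] [ChartedSpace (EuclideanHalfSpace 2) M]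
    [IsManifold (𝓡∂ 2) ∞ M] [MeasurableSpace M] [BorelSpace M] [CompactSpace M] [T2Space M]
    (f N : M → E3) (H : ℝ), IsCMCw f N H → BijOn f (Bdy M) (toP '' Γ) →
    |∫ z, g z.1 * z.2 2 ∂(nu f N)| = 1

def S_TCH : Prop := ∀ (M : Type) [TopologicalSpace M] [ChartedSpace (EuclideanHalfSpace 2) M]
  [IsManifold (𝓡∂ 2) ∞ M] [CompactSpace M] [T2Space M] (f : M → E3), Continuous f →
  ∀ K1 K2 : Set E2, Convex ℝ K1 → IsCompact K1 → (interior K1).Nonempty → Convex ℝ K2 →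
  IsCompact K2 → (interior K2).Nonempty → Disjoint (interior K1) (interior K2) →
  BijOn f (Bdy M) (toP '' (frontier K1 ∪ frontier K2)) → Disjoint K1 K2

/-! ### Statements: the measure -/

def S_EST : Prop := ∀ (Γ : Set E2) (L H R : ℝ) (ν : Measure (E3 × E3)), Good Γ L H ν → 0 ≤ R →
  (∀ q ∈ Γ, ‖q‖ ≤ R) → 0 ≤ excN ν ∧ excN ν ≤ 2 * |H| * volN ν ∧
  ν.real univ ≤ R * L + 4 * |H| * volN ν ∧
  ∀ (g : E3 → ℝ) (K : ℝ), Dg Γ g K → |∫ z, g z.1 * z.2 2 ∂ν| = 1 → ∀ t : ℝ, 0 < t →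
    2 * |H| ≤ K * (excN ν / (2 * t) + t * ν.real univ / 2)

def S_SML : Prop := ∀ R L K ε : ℝ, 0 ≤ R → 0 ≤ L → 0 < ε → ∃ V0 : ℝ, 0 < V0 ∧
  ∀ (Γ : Set E2) (g : E3 → ℝ) (H : ℝ) (ν : Measure (E3 × E3)), (∀ q ∈ Γ, ‖q‖ ≤ R) → Dg Γ g K →
  Good Γ L H ν → |∫ z, g z.1 * z.2 2 ∂ν| = 1 → volN ν < V0 → Sm ε (R * L + 1) H ν

def S_BMP : Prop := ∀ r : ℝ, 0 < r → ∃ (b' B : ℝ → ℝ) (K : ℝ), C1 (bmp r) b' ∧ C1 B (bmp r) ∧
  (∀ t, |bmp r t| ≤ K ∧ |b' t| ≤ K ∧ |B t| ≤ K) ∧ (∀ t, t ≤ -r → B t = 0) ∧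
  ∀ t, r ≤ t → B t = B r

def S_SLAB : Prop := ∀ r δ A : ℝ, 0 < r → r ≤ 1 → 0 < δ → ∃ ε : ℝ, 0 < ε ∧
  ∀ (K : Set E2) (H : ℝ) (ν : Measure (E3 × E3)), Bd ν → Fz K H ν → Sm ε A H ν →
  ∀ i j : Fin 3, i ≠ j → j ≠ 2 → ∀ s c : ℝ, (∀ q ∈ K, 2 * r ≤ |toP q i - s|) →
  ν.real {z | |z.1 i - s| ≤ r ∧ |z.1 j - c| ≤ r} ≤ δ

def S_MOVE : Prop := ∀ (K : Set E2) (A ρ r : ℝ) (y y' y'' : E2), 0 < r → r ≤ ρ →
  (∀ q ∈ K, 2 * ρ ≤ |q 0 - y 0| ∨ 2 * ρ ≤ |q 1 - y 1|) → (∀ i, |y' i - y i| ≤ ρ) →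
  (∀ i, |y'' i - y i| ≤ ρ) → Lit K A y' r → Lit K A y'' r

def S_CLO : Prop := ∀ (K : Set E2) (A : ℝ), IsCompact K → IsPreconnected Kᶜ →
  ∀ y ∉ K, ∃ r : ℝ, 0 < r ∧ Lit K A y r

def S_MONO : Prop := ∀ r : ℝ, 0 < r → ∃ c : ℝ, 0 < c ∧
  ∀ (K : Set E2) (H : ℝ) (ν : Measure (E3 × E3)), Bd ν → Fz K H ν → |H| ≤ 1 →
  ∀ p : E3, (∀ q ∈ K, r ≤ dist (toP q) p) → Dens ν p → c ≤ ν.real {z | dist z.1 p ≤ r}

def S_LOC : Prop := ∀ (K : Set E2) (A : ℝ) (O : Set E3), IsCompact K → IsPreconnected Kᶜ →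
  IsOpen O → toP '' K ⊆ O → ∃ ε : ℝ, 0 < ε ∧
  ∀ (H : ℝ) (ν : Measure (E3 × E3)), Bd ν → Fz K H ν → Sm ε A H ν → ∀ p ∉ O, ¬Dens ν p

end Pool.Agent.P.MP_a07190_gt.Wk
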